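import Pool.Agent.Lib_MP_70e04f_ag.Count

/-!
The choice of the points on and off the curve, for multiplicities `M` and `M + 1` at `k^2` points.
-/

namespace Pool.MP_70e04f_ag

section
variable {n : ℕ} (k M N : ℕ) (m : Fin n → ℕ)

lemma sum_c (hm : ∀ i, m i = M ∨ m i = M + 1) (O : Finset (Fin n)) (j : ℕ) (hj : j ≤ M) :
    ∑ i ∈ O, (m i - j) = (M - j) * O.card + (O.filter (fun i => m i = M + 1)).card := by
  have : ∀ i ∈ O, m i - j = (M - j) + (if m i = M + 1 then 1 else 0) := by
    intro i _
    rcases hm i with h | h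
    · rw [h, if_neg (by omega)]; omega
    · rw [h, if_pos rfl]; omega
  rw [Finset.sum_congr rfl this, Finset.sum_add_distrib, Finset.sum_const, smul_eq_mul, mul_comm,
    Finset.card_filter]

lemma sum_c_zero (hm : ∀ i, m i = M ∨ m i = M + 1) (O : Finset (Fin n)) (j : ℕ) (hj : M < j) :
    ∑ i ∈ O, (m i - j) = 0 := by
  apply Finset.sum_eq_zero
  intro i _
  rcases hm i with h | h <;> omega

lemma two_card_J (hm : ∀ i, m i = M ∨ m i = M + 1) (hn : n = k ^ 2) :
    2 * Fintype.card (Σ i : Fin n, ↥(tri (m i))) = k ^ 2 * (M * (M + 1)) +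
      2 * (Finset.univ.filter (fun i => m i = M + 1)).card * (M + 1) := by
  rw [Fintype.card_sigma, Finset.mul_sum]
  have : ∀ i ∈ (Finset.univ : Finset (Fin n)), 2 * Fintype.card ↥(tri (m i)) = M * (M + 1) +
      (if m i = M + 1 then 2 * (M + 1) else 0) := by
    intro i _
    rw [Fintype.card_coe, two_card_tri]
    rcases hm i with h | h
    · rw [h, if_neg (by omega)]; ring
    · rw [h, if_pos rfl]; ring
  rw [Finset.sum_congr rfl this, Finset.sum_add_distrib, Finset.sum_const, Finset.card_univ,
    Fintype.card_fin, smul_eq_mul, Finset.sum_ite, Finset.sum_const, Finset.sum_const_zero,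
    smul_eq_mul, add_zero, show n * (M * (M + 1)) = k ^ 2 * (M * (M + 1)) by rw [hn]]
  ring

/-- A single extra row condition: the numerical conclusion. -/
lemma good_of_single (jst tt : ℕ) (X : Matrix (Σ i : Fin n, ↥(tri (m i))) ↥(tri N) ℝ)
    (h : Module.finrank ℝ (LinearMap.ker X.mulVecLin) ≤
      ∑ j ∈ Finset.range N, (if j = jst then tt else 0))
    (ht : 0 < tt → tt + Fintype.card (Σ i : Fin n, ↥(tri (m i))) ≤ (tri N).card) : Good X := by
  unfold Good
  rw [Fintype.card_coe]
  have : ∑ j ∈ Finset.range N, (if j = jst then tt else 0) ≤ tt := by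
    rw [Finset.sum_ite_eq']
    split_ifs <;> omega
  rcases Nat.eq_zero_or_pos tt with h0 | h0
  · omega
  · have := ht h0
    omega

theorem exists_good (hk : 0 < k) (hn : n = k ^ 2) (hm : ∀ i, m i = M ∨ m i = M + 1) :
    ∃ A B : Finset (Fin n), Good (degMat k N m (fun i : Fin n => ((i : ℕ) : ℝ) + 2)
      (fun i => if i ∈ A ∪ B then 1 else 0) 0) := by
  classical
  obtain ⟨h, hh⟩ : ∃ h, 2 * h = k * (k - 1) := by
    obtain ⟨r, hr⟩ := Nat.even_mul_pred_self k
    exact ⟨r, by omega⟩
  set A0 : Finset (Fin n) := Finset.univ.filter (fun i => m i = M + 1) with hA0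
  set a := A0.card with ha
  have hcardn : (Finset.univ : Finset (Fin n)).card = k ^ 2 := by
    rw [Finset.card_univ, Fintype.card_fin, hn]
  have hak : a ≤ k ^ 2 := by
    rw [← hcardn]; exact Finset.card_le_card (Finset.subset_univ _)
  have hJ := two_card_J k M m hm hn
  have hI := two_card_tri N
  rw [← hA0, ← ha] at hJ
  set J := Fintype.card (Σ i : Fin n, ↥(tri (m i))) with hJdef
  have hmA : ∀ i ∈ A0, m i = M + 1 := fun i hi => (Finset.mem_filter.1 hi).2
  have hcompl : ∀ Z : Finset (Fin n), Z.card + Zᶜ.card = k ^ 2 := by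
    intro Z
    rw [Finset.card_add_card_compl, Fintype.card_fin, hn]
  have hk2 : k * (k - 1) + k = k ^ 2 := by
    cases k with
    | zero => omega
    | succ k => rw [Nat.add_sub_cancel]; ring
  have hhk : h ≤ k ^ 2 := by omega
  rcases Nat.lt_or_ge (k * M) N with hN | hN
  swap
  · -- case 0 : N ≤ k M
    obtain ⟨B, -, hB⟩ := Finset.exists_subset_card_eq (show h ≤ (Finset.univ : Finset (Fin n)).card
      by rw [hcardn]; exact hhk)
    refine ⟨∅, B, ?_⟩
    apply good_of_single N m M 0 _ _ (by omega)
    refine (finrank_degMat_zero_le k N hk m ∅ B (Finset.disjoint_empty_left _) M M (by simp)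
      (fun i _ => by rcases hm i with h | h <;> omega) (fun _ => 0) ?_ ?_ ?_).trans (by simp)
    · intro j hj
      rw [Finset.empty_union, sum_c M m hm _ j hj.le, nrow_eq k N j hk, Finset.card_empty, hB]
      have h1 := S_mono k (show N - k * j ≤ k * (M - j) by
        rw [Nat.mul_sub]; omega)
      have h2 := S_large k (k * (M - j)) (by
        have : 1 ≤ M - j := by omega
        have := Nat.mul_le_mul_left k this
        omega)
      have h3 := hcompl B
      rw [hB] at h3
      obtain ⟨c, hc⟩ : ∃ c, M - j = c + 1 := ⟨M - j - 1, by omega⟩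
      have h4 : M - 1 - j = c := by omega
      rw [hc] at h1 h2 ⊢
      rw [h4]
      have h5 : 2 * S k (k * (c + 1)) + 2 * h = 2 * k * (k * (c + 1)) := by rw [hh]; exact h2
      have h6 : (c + 1) * Bᶜ.card + c * h + h = (c + 1) * k ^ 2 := by
        rw [← h3]; ring
      nlinarith
    · intro j hj _
      rw [nrow_eq k N j hk, Nat.sub_eq_zero_of_le (hN.trans (Nat.mul_le_mul_left k hj)), S_small k 0 (by omega) |> fun e => (by omega : S k 0 = 0)]
      omega
    · rw [nrow_eq k N M hk, Nat.sub_eq_zero_of_le hN, S_small k 0 (by omega) |> fun e => (by omega : S k 0 = 0)]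
      omega
  -- now N = k M + s with s > 0
  obtain ⟨s, rfl⟩ := Nat.exists_eq_add_of_lt hN
  rw [show k * M + s + 1 = k * M + (s + 1) by ring] at *
  obtain ⟨s, hs0, hs1⟩ : ∃ s', 0 < s' ∧ s + 1 = s' := ⟨s + 1, by omega, rfl⟩
  rw [hs1] at *
  clear hs1 hN
  -- facts on the rows
  have hSz : S k 0 = 0 := by have := S_small k 0 (by omega); omega
  have hrow1 : ∀ j < M, 2 * nrow k (k * M + s) j + 2 * h = 2 * k * (k * (M - j) + s) := by
    intro j hj
    have e : k * M + s - k * j = k * (M - j) + s := by
      rw [Nat.mul_sub]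
      have := Nat.mul_le_mul_left k hj.le
      omega
    rw [nrow_eq k _ j hk, e, hh]
    apply S_large
    have : 1 ≤ M - j := by omega
    have := Nat.mul_le_mul_left k this
    omega
  have hrowM : nrow k (k * M + s) M = S k s := by
    rw [nrow_eq k _ M hk, Nat.add_sub_cancel_left]
  have hrow2 : ∀ j, M < j → nrow k (k * M + s) j = S k (s - k * (j - M)) := by
    intro j hj
    rw [nrow_eq k _ j hk]
    congr 1
    rw [Nat.mul_sub]
    have := Nat.mul_le_mul_left k hj.le
    omega
  have hIs : 2 * (tri (k * M + s)).card = (k * M + s) * (k * M + s + 1) := two_card_tri _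
  rcases Nat.lt_or_ge (k * s) (a + h) with h1 | h1
  swap
  · -- case 1a
    refine ⟨∅, ∅, ?_⟩
    have hle : ∀ j, ∑ i ∈ (Finset.univ : Finset (Fin n)), (m i - j) ≤ nrow k (k * M + s) j := by
      intro j
      rcases lt_trichotomy j M with hj | hj | hj
      · rw [sum_c M m hm _ j hj.le, hcardn, ← hA0, ← ha]
        have := hrow1 j hj
        nlinarith
      · subst hj
        rw [sum_c j m hm _ j le_rfl, hcardn, ← hA0, ← ha, Nat.sub_self, zero_mul, zero_add, hrowM]
        by_cases hks : k ≤ s + 1
        · have := S_large k s hks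
          nlinarith
        · have := S_small k s (by omega)
          obtain ⟨e, rfl⟩ : ∃ e, k = s + 2 + e := ⟨k - s - 2, by omega⟩
          have e1 : s + 2 + e - 1 = s + 1 + e := by omega
          rw [e1] at hh
          nlinarith
      · rw [sum_c_zero M m hm _ j hj]; exact Nat.zero_le _
    have hsumc : ∑ j ∈ Finset.range (k * M + s), ∑ i ∈ (Finset.univ : Finset (Fin n)), (m i - j)
        = J := by
      rw [Finset.sum_comm, hJdef, Fintype.card_sigma]
      refine Finset.sum_congr rfl fun i _ => ?_
      have h2 := sum_sub_range (m i) (k * M + s) (by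
        have : M ≤ k * M := Nat.le_mul_of_pos_left M hk
        rcases hm i with h | h <;> omega)
      have h3 := two_card_tri (m i)
      rw [Fintype.card_coe]
      omega
    have hfin := finrank_degMat_zero_le k (k * M + s) hk m ∅ ∅ (Finset.disjoint_empty_left _) M M
      (by simp) (by simp) (fun j => nrow k (k * M + s) j - ∑ i ∈ (Finset.univ : Finset (Fin n)),
        (m i - j)) (by
          intro j hj
          simp only [Finset.empty_union, Finset.compl_empty]
          have := hle j
          omega) (by
          intro j hj _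
          simp only [Finset.empty_union, Finset.compl_empty]
          have := hle j
          omega) (by
          simp only [Finset.empty_union, Finset.compl_empty]
          have := hle M
          omega)
    unfold Good
    rw [Fintype.card_coe, ← hJdef]
    refine hfin.trans ?_
    have h4 : ∑ j ∈ Finset.range (k * M + s), (nrow k (k * M + s) j -
        ∑ i ∈ (Finset.univ : Finset (Fin n)), (m i - j)) + J = (tri (k * M + s)).card := by
      rw [← sum_nrow k, ← hsumc, ← Finset.sum_add_distrib]
      refine Finset.sum_congr rfl fun j _ => ?_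
      have := hle j
      omega
    omega
  rcases Nat.lt_or_ge (k * s) h with h2 | h2
  swap
  · -- case 1b
    obtain ⟨b, hb⟩ := Nat.exists_eq_add_of_le h2
    obtain ⟨α, hα⟩ : ∃ α, a = α + b := ⟨a - b, by omega⟩
    obtain ⟨A, hAA, hA⟩ := Finset.exists_subset_card_eq (show α ≤ A0.card by omega)
    refine ⟨A, ∅, ?_⟩
    have hAc := hcompl A
    rw [hA] at hAc
    have hfc : (Aᶜ.filter (fun i => m i = M + 1)).card = b := by
      have : Aᶜ.filter (fun i => m i = M + 1) = A0 \ A := by
        ext i
        simp only [Finset.mem_filter, Finset.mem_compl, Finset.mem_sdiff, hA0, Finset.mem_univ,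
          true_and]
        tauto
      rw [this, Finset.card_sdiff_of_subset hAA, hA]
      omega
    have H1 : ∀ j < M, nrow k (k * M + s) j ≤ (∑ i ∈ (A ∪ ∅)ᶜ, (m i - j)) + 0 +
        (M - 1 - j) * (∅ : Finset (Fin n)).card + (M - j) * A.card := by
      intro j hj
      rw [Finset.union_empty, sum_c M m hm _ j hj.le, hfc, hA, Finset.card_empty, mul_zero,
        add_zero, add_zero]
      have h3 := hrow1 j hj
      have h4 : (M - j) * Aᶜ.card + (M - j) * α = (M - j) * k ^ 2 := by rw [← hAc]; ring
      nlinarith
    rcases Nat.lt_or_ge k s with h3 | h3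
    · -- jst = M + 1
      have hs2 : s < 2 * k := by nlinarith
      have hr1 : nrow k (k * M + s) (M + 1) = S k (s - k) := by
        rw [hrow2 (M + 1) (by omega), Nat.add_sub_cancel_left, mul_one]
      have hr2 := S_small k (s - k) (by omega)
      apply good_of_single (k * M + s) m (M + 1) (S k (s - k) - (M + 1) * α) _
        (finrank_degMat_zero_le k (k * M + s) hk m A ∅ (Finset.disjoint_empty_right _) M (M + 1)
        (fun i hi => (hmA i (hAA hi)).ge) (by simp) _ ?_ ?_ ?_)
      · intro ht
        rw [← hJdef]
        obtain ⟨e, rfl⟩ := Nat.exists_eq_add_of_lt h3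
        have e1 : k + e + 1 - k = e + 1 := by omega
        rw [e1] at hr2 ⊢
        rw [e1] at ht
        have key : 2 * S k (e + 1) + 2 * J = 2 * (tri (k * M + (k + e + 1))).card +
            2 * ((M + 1) * α) := by
          rw [hr2, hJ, hIs, hα]
          have hb' : (k : ℤ) * (k + e + 1) = h + b := by exact_mod_cast hb
          have hh' : 2 * (h : ℤ) = k * k - k := by
            have : (2 * h + k : ℕ) = k ^ 2 := by omega
            have : ((2 * h + k : ℕ) : ℤ) = k ^ 2 := by exact_mod_cast this
            push_cast at this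
            linarith
          zify
          linear_combination (-2 * (M : ℤ) - 2) * hb' - ((M : ℤ) + 1) * hh'
        omega
      · intro j hj
        rw [if_neg (by omega)]
        exact H1 j hj
      · intro j hj hj2
        rw [if_neg hj2, Finset.union_empty]
        rcases Nat.lt_or_ge M j with h4 | h4
        · rw [hrow2 j h4]
          have : 2 ≤ j - M := by omega
          have := Nat.mul_le_mul_left k this
          rw [Nat.sub_eq_zero_of_le (by omega), hSz]
          exact Nat.zero_le _
        · have : j = M := by omega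
          subst this
          rw [sum_c j m hm _ j le_rfl, hfc, Nat.sub_self, zero_mul, zero_add, hrowM]
          have := S_large k s (by omega)
          nlinarith
      · rw [if_pos rfl, hr1, hA]
        omega
    · -- jst = M
      have hr2 := S_small k s h3
      apply good_of_single (k * M + s) m M (S k s - b - (M + 1) * α) _
        (finrank_degMat_zero_le k (k * M + s) hk m A ∅ (Finset.disjoint_empty_right _) M M
        (fun i hi => (hmA i (hAA hi)).ge) (by simp) _ ?_ ?_ ?_)
      · intro ht
        rw [← hJdef]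
        have key : 2 * S k s + 2 * J = 2 * (tri (k * M + s)).card + 2 * b +
            2 * ((M + 1) * α) := by
          rw [hr2, hJ, hIs, hα]
          have hb' : (k : ℤ) * s = h + b := by exact_mod_cast hb
          have hh' : 2 * (h : ℤ) = k * k - k := by
            have : (2 * h + k : ℕ) = k ^ 2 := by omega
            have : ((2 * h + k : ℕ) : ℤ) = k ^ 2 := by exact_mod_cast this
            push_cast at this
            linarith
          zify
          linear_combination (-2 * (M : ℤ)) * hb' - (M : ℤ) * hh'
        omega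
      · intro j hj
        rw [if_neg (by omega)]
        exact H1 j hj
      · intro j hj hj2
        rw [hrow2 j (by omega)]
        have : 1 ≤ j - M := by omega
        have := Nat.mul_le_mul_left k this
        rw [Nat.sub_eq_zero_of_le (by omega), hSz]
        exact Nat.zero_le _
      · rw [if_pos rfl, hrowM, hA, Finset.union_empty, sum_c M m hm _ M le_rfl, hfc]
        omega
  -- now k s < h
  obtain ⟨θ, hθ0, hθ⟩ : ∃ θ, 0 < θ ∧ k * s + θ = h := ⟨h - k * s, by omega, by omega⟩
  have hsk : s < k := by nlinarith
  have hr2 := S_small k s hsk.le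
  have hb' : (k : ℤ) * s + θ = h := by exact_mod_cast hθ
  have hh' : 2 * (h : ℤ) = k * k - k := by
    have : (2 * h + k : ℕ) = k ^ 2 := by omega
    have : ((2 * h + k : ℕ) : ℤ) = k ^ 2 := by exact_mod_cast this
    push_cast at this
    linarith
  have H2 : ∀ (Z : Finset (Fin n)) j, M ≤ j → j ≠ M → nrow k (k * M + s) j ≤
      (∑ i ∈ Z, (m i - j)) + 0 := by
    intro Z j hj hj2
    rw [hrow2 j (by omega)]
    have : 1 ≤ j - M := by omega
    have := Nat.mul_le_mul_left k this
    rw [Nat.sub_eq_zero_of_le (by omega), hSz]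
    exact Nat.zero_le _
  rcases Nat.lt_or_ge (k ^ 2) (a + θ) with h3 | h3
  · -- case 1c
    obtain ⟨α, hα⟩ : ∃ α, α + θ = k ^ 2 := ⟨k ^ 2 - θ, by omega⟩
    obtain ⟨A, hAA, hA⟩ := Finset.exists_subset_card_eq (show α ≤ A0.card by omega)
    refine ⟨A, Aᶜ, ?_⟩
    have hAc := hcompl A
    rw [hA] at hAc
    have hB : Aᶜ.card = θ := by omega
    apply good_of_single (k * M + s) m M 0 _
        (finrank_degMat_zero_le k (k * M + s) hk m A Aᶜ disjoint_compl_right M M
        (fun i hi => (hmA i (hAA hi)).ge) (fun i _ => by rcases hm i with h | h <;> omega) _ ?_ ?_ ?_)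
        (by omega)
    · intro j hj
      rw [if_neg (by omega), Finset.union_compl, Finset.compl_univ, Finset.sum_empty, hA, hB]
      have h4 := hrow1 j hj
      obtain ⟨c, hc⟩ : ∃ c, M - j = c + 1 := ⟨M - j - 1, by omega⟩
      have h5 : M - 1 - j = c := by omega
      rw [hc] at h4 ⊢
      rw [h5]
      have h6 : (c + 1) * α + (c + 1) * θ = (c + 1) * k ^ 2 := by rw [← hα]; ring
      nlinarith
    · intro j hj hj2
      rw [if_neg hj2]
      exact H2 _ j hj hj2
    · rw [if_pos rfl, hrowM, hA, hB]
      have : S k s ≤ α := by nlinarith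
      have h4 : α ≤ (M + 1) * α := Nat.le_mul_of_pos_left _ (Nat.succ_pos _)
      omega
  · -- case 1b'
    obtain ⟨B, hBB, hB⟩ := Finset.exists_subset_card_eq (show θ ≤ A0ᶜ.card by
      have := hcompl A0; omega)
    refine ⟨A0, B, ?_⟩
    have hdisj : Disjoint A0 B := by
      rw [Finset.disjoint_left]
      intro i hi hi'
      exact (Finset.mem_compl.1 (hBB hi')) hi
    have hOc : (A0 ∪ B)ᶜ.card + (a + θ) = k ^ 2 := by
      have := hcompl (A0 ∪ B)
      rw [Finset.card_union_of_disjoint hdisj, hB] at this
      omega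
    have hfc : ((A0 ∪ B)ᶜ.filter (fun i => m i = M + 1)).card = 0 := by
      rw [Finset.card_eq_zero, Finset.filter_eq_empty_iff]
      intro i hi hmi
      rw [Finset.mem_compl, Finset.mem_union, not_or] at hi
      exact hi.1 (Finset.mem_filter.2 ⟨Finset.mem_univ _, hmi⟩)
    apply good_of_single (k * M + s) m M (S k s - (M + 1) * a - M * θ) _
        (finrank_degMat_zero_le k (k * M + s) hk m A0 B hdisj M M
        (fun i hi => (hmA i hi).ge) (fun i _ => by rcases hm i with h | h <;> omega) _ ?_ ?_ ?_)
    · intro ht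
      rw [← hJdef]
      have key : 2 * S k s + 2 * J = 2 * (tri (k * M + s)).card +
          2 * ((M + 1) * a) + 2 * (M * θ) := by
        rw [hr2, hJ, hIs]
        zify
        linear_combination (-2 * (M : ℤ)) * hb' - (M : ℤ) * hh'
      omega
    · intro j hj
      rw [if_neg (by omega), sum_c M m hm _ j hj.le, hfc, hB, ← ha]
      have h4 := hrow1 j hj
      obtain ⟨c, hc⟩ : ∃ c, M - j = c + 1 := ⟨M - j - 1, by omega⟩
      have h5 : M - 1 - j = c := by omega
      rw [hc] at h4 ⊢
      rw [h5]
      have h6 : (c + 1) * (A0 ∪ B)ᶜ.card + (c + 1) * (a + θ) = (c + 1) * k ^ 2 := by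
        rw [← hOc]; ring
      nlinarith
    · intro j hj hj2
      rw [if_neg hj2]
      exact H2 _ j hj hj2
    · rw [if_pos rfl, hrowM, sum_c M m hm _ M le_rfl, hfc, hB, ← ha]
      omega

end

end Pool.MP_70e04f_ag
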