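import Pool.Agent.Lib_MP_70e04f_ag.Profiles

/-!
The numerical case analysis.
-/

namespace Pool.MP_70e04f_ag

section
variable {n : ℕ} (m : Fin n → ℕ) (M : ℕ)

/-- All points off the curve `u = infinity` except `R` arbitrary ones. -/
theorem prof9 (k R : ℕ) (hn : n = k ^ 2 + 2 * R) (hm : ∀ i, m i = M ∨ m i = M + 1) :
    ∃ c : ℕ → ℕ, HasCert m c ∧
      (∀ j ≤ M, c j ≤ k ^ 2 * (M - j) + k ^ 2 + R * (M + 1)) ∧
      (c (M + 1) ≤ R * (M + 1)) ∧ (∀ j, M + 1 < j → c j = 0) := by
  classical
  obtain ⟨T, -, hTc⟩ := Finset.exists_subset_card_eq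
    (show R ≤ (Finset.univ : Finset (Fin n)).card by rw [Finset.card_univ, Fintype.card_fin]; omega)
  have hTcc : T.card + Tᶜ.card = n := by
    rw [Finset.card_add_card_compl, Fintype.card_fin]
  have hfil : (Tᶜ.filter (fun i => m i = M + 1)).card ≤ Tᶜ.card := Finset.card_filter_le _ _
  have hT : ∀ j ≤ M + 1, ∑ i ∈ T, treg (M + 1) (m i) j ≤ R * j := by
    intro j hj
    have : ∑ i ∈ T, treg (M + 1) (m i) j ≤ ∑ i ∈ T, j := by
      apply Finset.sum_le_sum
      intro i _
      unfold treg
      rw [if_pos hj]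
      rcases hm i with h | h <;> omega
    rwa [Finset.sum_const, smul_eq_mul, hTc] at this
  refine ⟨_, hasCert_reg m (M + 1) T ∅ (Finset.disjoint_empty_right _) (fun _ => 0) 0
    (fun i => by rcases hm i with h | h <;> omega)
    patOK_zero (fun _ _ => rfl) (by simp) (by simp), ?_, ?_, ?_⟩
  · intro j hj
    simp only [Finset.union_empty]
    rw [sum_c M m hm _ j hj, Finset.card_empty]
    have h1 := hT j (by omega)
    obtain ⟨c, rfl⟩ := Nat.exists_eq_add_of_le hj
    rw [Nat.add_sub_cancel_left]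
    have e3 : Tᶜ.card = k ^ 2 + R := by omega
    rw [e3] at hfil ⊢
    nlinarith
  · simp only [Finset.union_empty]
    rw [sum_c_zero M m hm _ (M + 1) (by omega), Finset.card_empty]
    have := hT (M + 1) le_rfl
    omega
  · intro j hj
    simp only [Finset.union_empty]
    rw [sum_c_zero M m hm _ j (by omega), sum_treg_zero m M hm (M + 1) T j hj, Finset.card_empty]

/-- One point at infinity, equal multiplicities. -/
theorem prof8 (k : ℕ) (hn : n = k ^ 2 + 2) (hm : ∀ i, m i = M) :
    ∃ c : ℕ → ℕ, HasCert m c ∧ (c 0 = k ^ 2 * M + M) ∧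
      (∀ j, 0 < j → j ≤ M → c j + 1 = k ^ 2 * (M - j) + M) ∧
      (c (M + 1) = M) ∧ (∀ j, M + 1 < j → c j = 0) := by
  classical
  have hm' : ∀ i, m i = M ∨ m i = M + 1 := fun i => Or.inl (hm i)
  obtain ⟨T, -, hTc⟩ := Finset.exists_subset_card_eq
    (show 1 ≤ (Finset.univ : Finset (Fin n)).card by rw [Finset.card_univ, Fintype.card_fin]; omega)
  have hTcc : T.card + Tᶜ.card = n := by
    rw [Finset.card_add_card_compl, Fintype.card_fin]
  have hfil := filter_raised_card m M hm' Tᶜ (fun i _ => hm i)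
  have e3 : Tᶜ.card = k ^ 2 + 1 := by omega
  refine ⟨_, hasCert_reg m (M + 1) T ∅ (Finset.disjoint_empty_right _) (fun _ => 0) 0
    (fun i => by rw [hm i]; omega)
    patOK_zero (fun _ _ => rfl) (by simp) (by simp), ?_, ?_, ?_, ?_⟩
  · simp only [Finset.union_empty]
    rw [sum_c M m hm' _ 0 (Nat.zero_le _), sum_treg_low m M hm' T (fun i _ => hm i) 0 (by omega),
      hfil, Finset.card_empty, e3, hTc]
    rw [Nat.sub_zero]
    ring
  · intro j hj0 hj
    simp only [Finset.union_empty]
    rw [sum_c M m hm' _ j hj, sum_treg_low m M hm' T (fun i _ => hm i) j (by omega),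
      hfil, Finset.card_empty, e3, hTc]
    obtain ⟨c, rfl⟩ := Nat.exists_eq_add_of_le hj
    rw [Nat.add_sub_cancel_left]
    obtain ⟨d, rfl⟩ := Nat.exists_eq_add_of_lt hj0
    have : 0 + d + 1 - 1 = d := by omega
    rw [this]
    ring
  · simp only [Finset.union_empty]
    rw [sum_c_zero M m hm' _ (M + 1) (by omega),
      sum_treg_low m M hm' T (fun i _ => hm i) (M + 1) le_rfl, Finset.card_empty, hTc]
    simp
  · intro j hj
    simp only [Finset.union_empty]
    rw [sum_c_zero M m hm' _ j (by omega), sum_treg_zero m M hm' (M + 1) T j hj, Finset.card_empty]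

end

section
variable {n : ℕ} (k R M N : ℕ) (m : Fin n → ℕ)

/-- The rows when `k ≤ w`. -/
lemma rows_large (hk : 0 < k) (w j : ℕ) (hj : j < M ∨ (j = M ∧ k ≤ w + 1)) :
    2 * nrow k (k * M + w) j + k * (k - 1) = 2 * (k ^ 2 * (M - j)) + 2 * (k * w) := by
  have hjM : j ≤ M := by omega
  have e : k * M + w - k * j = k * (M - j) + w := by
    rw [Nat.mul_sub]
    have := Nat.mul_le_mul_left k hjM
    omega
  rw [nrow_eq k _ j hk, e, S_large]
  · ring
  · rcases hj with hj | ⟨rfl, hj⟩
    · have : 1 ≤ M - j := by omega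
      have := Nat.mul_le_mul_left k this
      omega
    · rw [Nat.sub_self, mul_zero, zero_add]; exact hj

lemma row_top (hk : 0 < k) (w : ℕ) : nrow k (k * M + w) M = S k w := by
  rw [nrow_eq k _ M hk, Nat.add_sub_cancel_left]

lemma row_zero_of_le (hk : 0 < k) (j : ℕ) (h : N ≤ k * j) : nrow k N j = 0 := by
  rw [nrow_eq k N j hk, Nat.sub_eq_zero_of_le h]
  have := S_small k 0 (Nat.zero_le _)
  omega

lemma aux_D (k w h : ℕ) (hw : w ≤ k) (hk2 : 2 * h + k = k ^ 2) :
    2 * (k * w) ≤ w * (w + 1) + 2 * h := by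
  obtain ⟨z, rfl⟩ := Nat.exists_eq_add_of_le hw
  have h1 : z ≤ z * z := Nat.le_mul_self z
  nlinarith

/-- Case 1: `N ≤ k M`. -/
lemma case1 (hk : 0 < k) (hn : n = k ^ 2 + 2 * R) (hm : ∀ i, m i = M ∨ m i = M + 1)
    (hN : N ≤ k * M) : ∃ c, HasCert m c ∧
    ((∀ j, nrow k N j ≤ c j) ∨ (∀ j, c j ≤ nrow k N j)) := by
  refine ⟨_, prof0 m M hm, Or.inl ?_⟩
  intro j
  rcases Nat.lt_or_ge j M with hj | hj
  · rw [sum_c M m hm _ j hj.le, Finset.card_univ, Fintype.card_fin, nrow_eq k N j hk]
    have h1 := S_mono k (show N - k * j ≤ k * (M - j) by rw [Nat.mul_sub]; omega)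
    have h2 := S_large k (k * (M - j)) (by
      have : 1 ≤ M - j := by omega
      have := Nat.mul_le_mul_left k this
      omega)
    have h3 : (M - j) * k ^ 2 ≤ (M - j) * n := Nat.mul_le_mul_left _ (by omega)
    have h4 : 2 * k * (k * (M - j)) = 2 * ((M - j) * k ^ 2) := by ring
    omega
  · rw [row_zero_of_le k N hk j (hN.trans (Nat.mul_le_mul_left k hj))]
    exact Nat.zero_le _

/-- Case 2: `N = k M + w` with `0 < w ≤ k`. -/
lemma case2 (hk : 0 < k) (hM : 0 < M) (hn : n = k ^ 2 + 2 * R)
    (hm : ∀ i, m i = M ∨ m i = M + 1) (w : ℕ) (hw0 : 0 < w) (hw : w ≤ k) :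
    ∃ c, HasCert m c ∧
    ((∀ j, nrow k (k * M + w) j ≤ c j) ∨ (∀ j, c j ≤ nrow k (k * M + w) j)) := by
  classical
  set a := (Finset.univ.filter (fun i => m i = M + 1)).card with ha
  obtain ⟨h, hh⟩ : ∃ h, k * (k - 1) = 2 * h := by
    obtain ⟨r, hr⟩ := Nat.even_mul_pred_self k
    exact ⟨r, by omega⟩
  have hk2 : 2 * h + k = k ^ 2 := by
    rw [← hh]
    obtain ⟨k, rfl⟩ := Nat.exists_eq_add_of_lt hk
    have : 0 + k + 1 - 1 = k := by omega
    rw [this]; ring
  have hs : 2 * S k w = w * (w + 1) := S_small k w hw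
  set s := S k w with hsdef
  have hrow : ∀ j < M, nrow k (k * M + w) j + h = k ^ 2 * (M - j) + k * w := by
    intro j hj
    have := rows_large k M hk w j (Or.inl hj)
    omega
  have hrowM : nrow k (k * M + w) M = s := row_top k M hk w
  have hrow2 : ∀ j, M < j → nrow k (k * M + w) j = 0 := by
    intro j hj
    apply row_zero_of_le k _ hk
    have := Nat.mul_le_mul_left k (show M + 1 ≤ j from hj)
    have : k * (M + 1) = k * M + k := by ring
    omega
  have hkw : w * (w + 1) ≤ 2 * (k * w) := by nlinarith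
  have hDnn : 2 * (k * w) ≤ w * (w + 1) + 2 * h := aux_D k w h hw hk2
  obtain ⟨D, hD⟩ : ∃ D, s + h = k * w + D := ⟨s + h - k * w, by omega⟩
  have hDh : D ≤ h := by omega
  rcases Nat.lt_or_ge (k * w) (R * M + a + h) with h1 | h1
  swap
  · obtain ⟨c, hc, hc1, hc2⟩ := prof1' m M hm k R hn
    refine ⟨c, hc, Or.inr ?_⟩
    intro j
    rcases lt_trichotomy j M with hj | hj | hj
    · have := hrow j hj
      have := hc1 j hj.le
      omega
    · subst hj
      rw [hrowM, hc1 j le_rfl, Nat.sub_self, mul_zero]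
      omega
    · rw [hc2 j hj]; exact Nat.zero_le _
  · obtain ⟨d, hd0, hd⟩ : ∃ d, 0 < d ∧ k * w + d = R * M + a + h :=
      ⟨R * M + a + h - k * w, by omega, by omega⟩
    have hkwk : k * w ≤ k ^ 2 := by nlinarith
    rcases Nat.lt_or_ge D ((M + 1) * d) with h2 | h2
    swap
    · have h3 : 2 * d ≤ (M + 1) * d := Nat.mul_le_mul_right d (by omega)
      obtain ⟨c, hc, hc1, hc2, hc3⟩ := prof1 m M hm k R d hn (by omega)
      refine ⟨c, hc, Or.inr ?_⟩
      intro j
      rcases lt_trichotomy j M with hj | hj | hj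
      · have := hrow j hj
        have := hc1 j hj
        omega
      · rw [hj, hrowM, hc2]
        have : (M + 1) * d = d * M + d := by ring
        omega
      · rw [hc3 j hj]; exact Nat.zero_le _
    · set y := (D + M) / (M + 1) with hy
      have hy1 : D ≤ y * M + y := by
        have := Nat.lt_mul_div_succ (D + M) (show 0 < M + 1 by omega)
        rw [← hy] at this
        have e : (M + 1) * (y + 1) = y * M + y + M + 1 := by ring
        omega
      have hy2 : y * M + y ≤ D + M := by
        have := Nat.mul_div_le (D + M) (M + 1)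
        rw [← hy] at this
        have e : (M + 1) * y = y * M + y := by ring
        omega
      have hyd : y ≤ d := by
        by_contra hcon
        have h4 : d + 1 ≤ y := by omega
        have := Nat.mul_le_mul_right (M + 1) h4
        have e1 : (d + 1) * (M + 1) = (M + 1) * d + M + 1 := by ring
        have e2 : y * (M + 1) = y * M + y := by ring
        omega
      rcases Nat.lt_or_ge (k ^ 2 + R) (a + y) with h3 | h3
      swap
      · obtain ⟨c, hc, hc1, hc2, hc3⟩ := prof1 m M hm k R y hn h3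
        refine ⟨c, hc, Or.inl ?_⟩
        intro j
        rcases lt_trichotomy j M with hj | hj | hj
        · have := hrow j hj
          have := hc1 j hj
          omega
        · rw [hj, hrowM, hc2]
          omega
        · rw [hrow2 j hj]; exact Nat.zero_le _
      · have hyD : y ≤ D := by
          rcases Nat.eq_zero_or_pos D with h0 | h0
          · have : y * (M + 1) ≤ M := by
              have e2 : y * (M + 1) = y * M + y := by ring
              omega
            have : y < 1 := by
              by_contra hcon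
              have := Nat.mul_le_mul_right (M + 1) (show 1 ≤ y by omega)
              omega
            omega
          · by_contra hcon
            have h4 : D + 1 ≤ y := by omega
            have := Nat.mul_le_mul_right (M + 1) h4
            have e1 : (D + 1) * (M + 1) = D * M + D + M + 1 := by ring
            have e2 : y * (M + 1) = y * M + y := by ring
            have : M ≤ D * M := Nat.le_mul_of_pos_left M h0
            omega
        refine ⟨_, prof0 m M hm, Or.inl ?_⟩
        intro j
        have hww : w * (w + 1) ≤ k * (k + 1) := Nat.mul_le_mul hw (by omega)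
        have hkk : k * (k + 1) = k ^ 2 + k := by ring
        rcases lt_trichotomy j M with hj | hj | hj
        · rw [sum_c M m hm _ j hj.le, Finset.card_univ, Fintype.card_fin, ← ha]
          have h5 := hrow j hj
          have h6 : (M - j) * k ^ 2 ≤ (M - j) * n := Nat.mul_le_mul_left _ (by omega)
          have h7 : (M - j) * k ^ 2 = k ^ 2 * (M - j) := mul_comm _ _
          omega
        · rw [hj, hrowM, sum_c M m hm _ M le_rfl, ← ha]
          omega
        · rw [hrow2 j hj]; exact Nat.zero_le _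

/-- Case 3, independence. -/
lemma case3B (hk : 0 < k) (hn : n = k ^ 2 + 2 * R) (hR : R ≤ 2 * k + 1)
    (hm : ∀ i, m i = M ∨ m i = M + 1) (y : ℕ) (hy : y ≤ k)
    (t h : ℕ) (hh : k * (k - 1) = 2 * h)
    (ht : k ^ 2 + k * y + t = R * M + (Finset.univ.filter (fun i => m i = M + 1)).card + h)
    (hτ : (M + 1) * t ≤ S k y) :
    ∃ c, HasCert m c ∧ (∀ j, c j ≤ nrow k (k * M + (k + y)) j) := by
  classical
  set a := (Finset.univ.filter (fun i => m i = M + 1)).card with ha
  have hk2 : 2 * h + k = k ^ 2 := by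
    rw [← hh]
    obtain ⟨k, rfl⟩ := Nat.exists_eq_add_of_lt hk
    have : 0 + k + 1 - 1 = k := by omega
    rw [this]; ring
  have hs : 2 * S k y = y * (y + 1) := S_small k y hy
  set τ := S k y with hτdef
  have hrow : ∀ j ≤ M, nrow k (k * M + (k + y)) j + h = k ^ 2 * (M - j) + (k ^ 2 + k * y) := by
    intro j hj
    have := rows_large k M hk (k + y) j (by omega)
    have e : k * (k + y) = k ^ 2 + k * y := by ring
    omega
  have hrowM : nrow k (k * M + (k + y)) (M + 1) = τ := by
    rw [show k * M + (k + y) = k * (M + 1) + y by ring, row_top k (M + 1) hk y]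
  have hky : y * (y + 1) ≤ 2 * (k * y) := by nlinarith
  have hDnn : 2 * (k * y) ≤ y * (y + 1) + 2 * h := aux_D k y h hy hk2
  have fin : ∀ c : ℕ → ℕ, (∀ j ≤ M, c j + t = k ^ 2 * (M - j) + R * M + a) →
      (c (M + 1) = (M + 1) * t) → (∀ j, M + 1 < j → c j = 0) →
      ∀ j, c j ≤ nrow k (k * M + (k + y)) j := by
    intro c hc1 hc2 hc3 j
    rcases Nat.lt_or_ge M j with hj | hj
    · rcases Nat.lt_or_ge (M + 1) j with hj' | hj'
      · rw [hc3 j hj']; exact Nat.zero_le _
      · have : j = M + 1 := by omega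
        rw [this, hrowM, hc2]; exact hτ
    · have := hrow j hj
      have := hc1 j hj
      omega
  rcases Nat.lt_or_ge a t with h1 | h1
  · have hRt : t + 1 ≤ R := by
      by_contra hcon
      have h2 : (M + 1) * R ≤ (M + 1) * t := Nat.mul_le_mul_left _ (by omega)
      have e : (M + 1) * R = R * M + R := by ring
      omega
    have hta : t ≤ a + M := by
      by_contra hcon
      have h2 : (M + 1) * (M + 1) ≤ (M + 1) * t := Nat.mul_le_mul_left _ (by omega)
      have h3 : R * M ≤ (2 * k + 1) * M := Nat.mul_le_mul_right M hR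
      have h4 : (2 * k + 1) * M = 2 * (k * M) + M := by ring
      have h5 : k ^ 2 + k * y + 1 ≤ 2 * (k * M) + h := by omega
      have h6 : k * (k + 1 + 2 * y) < k * (4 * M) := by nlinarith
      have h7 := Nat.lt_of_mul_lt_mul_left h6
      have h8 : 3 * y + 2 ≤ 4 * M := by omega
      have h9 : (3 * y + 2) * (3 * y + 2) ≤ (4 * M) * (4 * M) := Nat.mul_le_mul h8 h8
      nlinarith
    obtain ⟨c, hc, hc1, hc2, hc3⟩ := prof7 m M hm k R t hn h1 hRt hta
    exact ⟨c, hc, fin c hc1 hc2 hc3⟩
  · rcases Nat.lt_or_ge (k ^ 2 + R + t) a with h2 | h2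
    · obtain ⟨c, hc, hc1, hc2, hc3⟩ := prof9 m M k R hn hm
      refine ⟨c, hc, ?_⟩
      have e : R * (M + 1) = R * M + R := by ring
      rw [e] at hc1 hc2
      intro j
      rcases Nat.lt_or_ge M j with hj | hj
      · rcases Nat.lt_or_ge (M + 1) j with hj' | hj'
        · rw [hc3 j hj']; exact Nat.zero_le _
        · have : j = M + 1 := by omega
          rw [this, hrowM]
          omega
      · have := hrow j hj
        have := hc1 j hj
        omega
    · rcases Nat.lt_or_ge R t with h3 | h3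
      · obtain ⟨c, hc, hc1, hc2, hc3⟩ := prof6 m M hm k R t hn h1 h3.le
        exact ⟨c, hc, fin c hc1 hc2 hc3⟩
      · obtain ⟨c, hc, hc1, hc2, hc3⟩ := prof5 m M hm k R t hn h1 h3 h2
        exact ⟨c, hc, fin c hc1 hc2 hc3⟩

/-- Case 3, trivial independence. -/
lemma case3C (hk : 0 < k) (hn : n = k ^ 2 + 2 * R)
    (hm : ∀ i, m i = M ∨ m i = M + 1) (y : ℕ)
    (h : ℕ) (hh : k * (k - 1) = 2 * h)
    (ht : R * M + (Finset.univ.filter (fun i => m i = M + 1)).card + h ≤ k ^ 2 + k * y) :
    ∃ c, HasCert m c ∧ (∀ j, c j ≤ nrow k (k * M + (k + y)) j) := by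
  classical
  obtain ⟨c, hc, hc1, hc2⟩ := prof1' m M hm k R hn
  refine ⟨c, hc, ?_⟩
  intro j
  rcases Nat.lt_or_ge M j with hj | hj
  · rw [hc2 j hj]; exact Nat.zero_le _
  · have h1 := rows_large k M hk (k + y) j (by omega)
    have e : k * (k + y) = k ^ 2 + k * y := by ring
    have := hc1 j hj
    omega

/-- Case 3: `N = k M + k + y` with `0 < y ≤ k`. -/
lemma case3 (hk : 0 < k) (hn : n = k ^ 2 + 2 * R) (hR : R ≤ 2 * k + 1)
    (hm : ∀ i, m i = M ∨ m i = M + 1) (y : ℕ) (hy0 : 0 < y) (hy : y ≤ k) :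
    ∃ c, HasCert m c ∧
    ((∀ j, nrow k (k * M + (k + y)) j ≤ c j) ∨ (∀ j, c j ≤ nrow k (k * M + (k + y)) j)) := by
  classical
  obtain ⟨h, hh⟩ : ∃ h, k * (k - 1) = 2 * h := by
    obtain ⟨r, hr⟩ := Nat.even_mul_pred_self k
    exact ⟨r, by omega⟩
  rcases Nat.lt_or_ge (k ^ 2 + k * y)
    (R * M + (Finset.univ.filter (fun i => m i = M + 1)).card + h) with h1 | h1
  swap
  · obtain ⟨c, hc, hc1⟩ := case3C k R M m hk hn hm y h hh h1
    exact ⟨c, hc, Or.inr hc1⟩
  obtain ⟨t, ht0, ht⟩ : ∃ t, 0 < t ∧ k ^ 2 + k * y + t =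
      R * M + (Finset.univ.filter (fun i => m i = M + 1)).card + h :=
    ⟨R * M + (Finset.univ.filter (fun i => m i = M + 1)).card + h - (k ^ 2 + k * y),
      by omega, by omega⟩
  rcases Nat.lt_or_ge (S k y) ((M + 1) * t) with h2 | h2
  swap
  · obtain ⟨c, hc, hc1⟩ := case3B k R M m hk hn hR hm y hy t h hh ht h2
    exact ⟨c, hc, Or.inr hc1⟩
  set a := (Finset.univ.filter (fun i => m i = M + 1)).card with ha
  have han : a ≤ n := by
    have := Finset.card_le_univ (Finset.univ.filter (fun i => m i = M + 1))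
    rwa [Fintype.card_fin] at this
  have hk2 : 2 * h + k = k ^ 2 := by
    rw [← hh]
    obtain ⟨k, rfl⟩ := Nat.exists_eq_add_of_lt hk
    have : 0 + k + 1 - 1 = k := by omega
    rw [this]; ring
  have hs : 2 * S k y = y * (y + 1) := S_small k y hy
  set τ := S k y with hτdef
  have hrow : ∀ j ≤ M, nrow k (k * M + (k + y)) j + h = k ^ 2 * (M - j) + (k ^ 2 + k * y) := by
    intro j hj
    have := rows_large k M hk (k + y) j (by omega)
    have e : k * (k + y) = k ^ 2 + k * y := by ring
    omega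
  have hrowM : nrow k (k * M + (k + y)) (M + 1) = τ := by
    rw [show k * M + (k + y) = k * (M + 1) + y by ring, row_top k (M + 1) hk y]
  have hrow2 : ∀ j, M + 1 < j → nrow k (k * M + (k + y)) j = 0 := by
    intro j hj
    apply row_zero_of_le k _ hk
    have := Nat.mul_le_mul_left k (show M + 2 ≤ j from hj)
    have : k * (M + 2) = k * M + k + k := by ring
    omega
  have hky : y * (y + 1) ≤ 2 * (k * y) := by nlinarith
  have hDnn : 2 * (k * y) ≤ y * (y + 1) + 2 * h := aux_D k y h hy hk2
  set q := (τ + M) / (M + 1) with hq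
  have hq1 : τ ≤ (M + 1) * q := by
    have := Nat.lt_mul_div_succ (τ + M) (show 0 < M + 1 by omega)
    rw [← hq] at this
    have e : (M + 1) * (q + 1) = (M + 1) * q + M + 1 := by ring
    omega
  have hq2 : (M + 1) * q ≤ τ + M := Nat.mul_div_le (τ + M) (M + 1)
  have hqt : q ≤ t := by
    by_contra hcon
    have h4 : t + 1 ≤ q := by omega
    have := Nat.mul_le_mul_left (M + 1) h4
    have e1 : (M + 1) * (t + 1) = (M + 1) * t + M + 1 := by ring
    omega
  have hat : a ≤ k ^ 2 + R + t := by
    by_contra hcon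
    have h3 : R * M + R < τ := by omega
    have h4 : R < t := by
      by_contra hcon2
      have := Nat.mul_le_mul_left (M + 1) (show t ≤ R by omega)
      have e1 : (M + 1) * R = R * M + R := by ring
      omega
    omega
  obtain ⟨t1, ht1, ht1q, ht1a, ht1'⟩ : ∃ t1, t1 ≤ t ∧ q ≤ t1 ∧ a ≤ k ^ 2 + R + t1 ∧
      (a < t1 → t1 = q) := by
    rcases Nat.lt_or_ge (k ^ 2 + R + q) a with h3 | h3
    · exact ⟨a - (k ^ 2 + R), by omega, by omega, by omega, by omega⟩
    · exact ⟨q, hqt, le_rfl, h3, fun _ => rfl⟩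
  have hτ1 : τ ≤ (M + 1) * t1 := hq1.trans (Nat.mul_le_mul_left _ ht1q)
  have fin : ∀ c : ℕ → ℕ, (∀ j ≤ M, c j + t1 = k ^ 2 * (M - j) + R * M + a) →
      (c (M + 1) = (M + 1) * t1) →
      ∀ j, nrow k (k * M + (k + y)) j ≤ c j := by
    intro c hc1 hc2 j
    rcases Nat.lt_or_ge M j with hj | hj
    · rcases Nat.lt_or_ge (M + 1) j with hj' | hj'
      · rw [hrow2 j hj']; exact Nat.zero_le _
      · have : j = M + 1 := by omega
        rw [this, hrowM, hc2]; exact hτ1
    · have := hrow j hj
      have := hc1 j hj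
      omega
  rcases Nat.lt_or_ge a t1 with h3 | h3
  swap
  · rcases Nat.lt_or_ge R t1 with h4 | h4
    · obtain ⟨c, hc, hc1, hc2, hc3⟩ := prof6 m M hm k R t1 hn h3 h4.le
      exact ⟨c, hc, Or.inl (fin c hc1 hc2)⟩
    · obtain ⟨c, hc, hc1, hc2, hc3⟩ := prof5 m M hm k R t1 hn h3 h4 ht1a
      exact ⟨c, hc, Or.inl (fin c hc1 hc2)⟩
  · have hq' : t1 = q := ht1' h3
    rcases Nat.lt_or_ge t1 R with h4 | h4
    · have hta : t1 ≤ a + M := by
        by_contra hcon
        have h5 : (M + 1) * (M + 1) ≤ (M + 1) * q := Nat.mul_le_mul_left _ (by omega)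
        have h6 : R * M ≤ (2 * k + 1) * M := Nat.mul_le_mul_right M hR
        have h7 : (2 * k + 1) * M = 2 * (k * M) + M := by ring
        have h8 : k ^ 2 + k * y + 1 ≤ 2 * (k * M) + h := by omega
        have h9 : k * (k + 1 + 2 * y) < k * (4 * M) := by nlinarith
        have h10 := Nat.lt_of_mul_lt_mul_left h9
        have h11 : 3 * y + 2 ≤ 4 * M := by omega
        have h12 : (3 * y + 2) * (3 * y + 2) ≤ (4 * M) * (4 * M) := Nat.mul_le_mul h11 h11
        nlinarith
      obtain ⟨c, hc, hc1, hc2, hc3⟩ := prof7 m M hm k R t1 hn h3 h4 hta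
      exact ⟨c, hc, Or.inl (fin c hc1 hc2)⟩
    · -- `R ≤ q`
      have h5 : (M + 1) * R ≤ (M + 1) * q := Nat.mul_le_mul_left _ (by omega)
      have h6 : k ^ 2 + k * y + 1 ≤ R * M + h := by omega
      rcases Nat.lt_or_ge 1 R with h7 | h7
      · exfalso
        obtain ⟨r, rfl⟩ := Nat.exists_eq_add_of_lt h7
        have h8 : y * (y + 1) ≤ k * y + k := by nlinarith
        nlinarith
      · rcases Nat.lt_or_ge 0 R with h8 | h8
        swap
        · exfalso
          have : R = 0 := by omega
          rw [this, zero_mul, zero_add] at h6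
          omega
        · have hR1 : R = 1 := by omega
          rw [hR1, one_mul] at h6
          have hτM : τ + 1 ≤ M := by omega
          have hq1' : q = 1 := by
            have : q < 2 := by
              by_contra hcon
              have := Nat.mul_le_mul_left (M + 1) (show 2 ≤ q by omega)
              omega
            omega
          have ha0 : a = 0 := by omega
          have hmM : ∀ i, m i = M := by
            intro i
            rcases hm i with h | h
            · exact h
            · exfalso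
              rw [ha, Finset.card_eq_zero, Finset.filter_eq_empty_iff] at ha0
              exact ha0 (Finset.mem_univ i) h
          obtain ⟨c, hc, hc0, hc1, hc2, hc3⟩ := prof8 m M k (by rw [hn, hR1]) hmM
          refine ⟨c, hc, Or.inl ?_⟩
          intro j
          rcases Nat.lt_or_ge M j with hj | hj
          · rcases Nat.lt_or_ge (M + 1) j with hj' | hj'
            · rw [hrow2 j hj']; exact Nat.zero_le _
            · have : j = M + 1 := by omega
              rw [this, hrowM, hc2]; omega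
          · rcases Nat.eq_zero_or_pos j with h0 | h0
            · have := hrow j hj
              rw [h0, Nat.sub_zero] at this
              rw [h0, hc0]
              omega
            · have := hrow j hj
              have := hc1 j h0 hj
              omega

/-- The final case analysis. -/
theorem exists_certG (hk : 0 < k) (hM : 0 < M) (hn : n = k ^ 2 + 2 * R) (hR : R ≤ 2 * k + 1)
    (hm : ∀ i, m i = M ∨ m i = M + 1)
    (hχ : ∑ i, m i * (m i + 1) ≤ k * (M + 2) * (k * (M + 2) + 1)) :
    ∃ c, HasCert m c ∧ ((∀ j, nrow k N j ≤ c j) ∨ (∀ j, c j ≤ nrow k N j)) := by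
  classical
  rcases Nat.lt_or_ge (k * M) N with h1 | h1
  swap
  · exact case1 k R M N m hk hn hm h1
  rcases Nat.lt_or_ge (k * M + k) N with h2 | h2
  swap
  · obtain ⟨w, rfl⟩ := Nat.exists_eq_add_of_lt h1
    rw [show k * M + w + 1 = k * M + (w + 1) by ring]
    exact case2 k R M m hk hM hn hm (w + 1) (by omega) (by omega)
  rcases Nat.lt_or_ge (k * M + k + k) N with h3 | h3
  swap
  · obtain ⟨y, rfl⟩ := Nat.exists_eq_add_of_lt h2
    rw [show k * M + k + y + 1 = k * M + (k + (y + 1)) by ring]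
    exact case3 k R M m hk hn hR hm (y + 1) (by omega) (by omega)
  -- large `N`
  obtain ⟨h, hh⟩ : ∃ h, k * (k - 1) = 2 * h := by
    obtain ⟨r, hr⟩ := Nat.even_mul_pred_self k
    exact ⟨r, by omega⟩
  have hk2 : 2 * h + k = k ^ 2 := by
    rw [← hh]
    obtain ⟨k, rfl⟩ := Nat.exists_eq_add_of_lt hk
    have : 0 + k + 1 - 1 = k := by omega
    rw [this]; ring
  have hmono : ∀ j, nrow k (k * M + (k + k)) j ≤ nrow k N j := by
    intro j
    rw [nrow_eq k _ j hk, nrow_eq k _ j hk]
    exact S_mono k (by omega)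
  suffices hs : ∃ c, HasCert m c ∧ (∀ j, c j ≤ nrow k (k * M + (k + k)) j) by
    obtain ⟨c, hc, hc1⟩ := hs
    exact ⟨c, hc, Or.inr fun j => (hc1 j).trans (hmono j)⟩
  rcases Nat.lt_or_ge (k ^ 2 + k * k)
    (R * M + (Finset.univ.filter (fun i => m i = M + 1)).card + h) with h4 | h4
  swap
  · exact case3C k R M m hk hn hm k h hh h4
  obtain ⟨t, ht0, ht⟩ : ∃ t, 0 < t ∧ k ^ 2 + k * k + t =
      R * M + (Finset.univ.filter (fun i => m i = M + 1)).card + h :=
    ⟨R * M + (Finset.univ.filter (fun i => m i = M + 1)).card + h - (k ^ 2 + k * k),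
      by omega, by omega⟩
  apply case3B k R M m hk hn hR hm k le_rfl t h hh ht
  set a := (Finset.univ.filter (fun i => m i = M + 1)).card with ha
  have hsum : ∑ i, m i * (m i + 1) = n * (M * (M + 1)) + 2 * a * (M + 1) := by
    have : ∀ i ∈ (Finset.univ : Finset (Fin n)), m i * (m i + 1) = M * (M + 1) +
        (if m i = M + 1 then 2 * (M + 1) else 0) := by
      intro i _
      rcases hm i with h | h
      · rw [h, if_neg (by omega)]; ring
      · rw [h, if_pos rfl]; ring
    rw [Finset.sum_congr rfl this, Finset.sum_add_distrib, Finset.sum_const, Finset.card_univ,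
      Fintype.card_fin, smul_eq_mul, Finset.sum_ite, Finset.sum_const, Finset.sum_const_zero,
      smul_eq_mul, add_zero, ← ha]
    ring
  rw [hsum, hn] at hχ
  have hs := S_small k k le_rfl
  zify at *
  nlinarith

/-- The expected dimension for multiplicities `M`, `M + 1` at `k ^ 2 + 2 R` general points. -/
theorem mainG (n k R M d : ℕ) (hk : 0 < k) (hM : 0 < M) (hn : n = k ^ 2 + 2 * R)
    (hR : R ≤ 2 * k + 1) (m : Fin n → ℕ) (hm : ∀ i, m i = M ∨ m i = M + 1)
    (hχ : ∑ i, m i * (m i + 1) ≤ k * (M + 2) * (k * (M + 2) + 1)) :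
    ∃ g : MvPolynomial (Fin n × Fin 2) ℂ, g ≠ 0 ∧
      ∀ p : Fin n → Fin 2 → ℂ,
        MvPolynomial.eval (fun q : Fin n × Fin 2 => p q.1 q.2) g ≠ 0 →
          ((2 : ℤ) * ((Module.finrank ℂ
              ↥(MvPolynomial.restrictTotalDegree (Fin 2) ℂ d ⊓
                ⨅ i : Fin n, Submodule.restrictScalars ℂ
                  ((RingHom.ker (MvPolynomial.eval (p i)) :
                      Ideal (MvPolynomial (Fin 2) ℂ)) ^ m i)) : ℕ) : ℤ)
            = max 0 (((d : ℤ) + 1) * ((d : ℤ) + 2) - ∑ i, (m i : ℤ) * ((m i : ℤ) + 1))) := by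
  apply generic_of_real
  obtain ⟨c, hc, hc1⟩ := exists_certG k R M (d + 1) m hk hM hn hR hm hχ
  obtain ⟨u, hu⟩ := hc.good k (d + 1) hk hc1
  exact real_of_good k (d + 1) m hk xpos u hu

end

end Pool.MP_70e04f_ag
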