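import Pool.Agent.Lib_MP_70e04f_ag.Descartes

/-!
The elimination lemma: a family of univariate polynomials `T j` (the rows) with few terms,
subject to vanishing conditions at points on the axis and at points off the axis, is zero.
-/

namespace Pool.MP_70e04f_ag

open Polynomial

lemma pow_dvd_iff_taylor (x : ℝ) (n : ℕ) (f : ℝ[X]) :
    (X - C x) ^ n ∣ f ↔ ∀ d < n, (taylor x f).coeff d = 0 := by
  rw [Polynomial.X_sub_C_pow_dvd_iff, Polynomial.X_pow_dvd_iff]
  rfl

lemma off_step {ι : Type*} (x : ι → ℝ) (mu : ι → ℕ) (i : ι)
    (T : ℕ → ℝ[X]) (R : ℕ) (hR : ∀ j, R ≤ j → T j = 0)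
    (hoff : ∀ al be, al + be < mu i →
      ∑ j ∈ Finset.range R, (taylor (x i) (T j)).coeff al * ((X + C 1 : ℝ[X]) ^ j).coeff be = 0)
    (l : ℕ) (hl : l < mu i) (hdvd : ∀ j, (X - C (x i)) ^ l ∣ T j)
    (S : Finset ℕ) (hS : ∀ j, j ∉ S → T j = 0) (hcard : S.card ≤ mu i - l) :
    ∀ j, (X - C (x i)) ^ (l + 1) ∣ T j := by
  classical
  set q : ℝ[X] := ∑ j ∈ Finset.range R, C ((taylor (x i) (T j)).coeff l) * X ^ j with hq
  have hcomp : ∀ be, (q.comp (X + C 1)).coeff be =
      ∑ j ∈ Finset.range R, (taylor (x i) (T j)).coeff l * ((X + C 1 : ℝ[X]) ^ j).coeff be := by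
    intro be
    rw [hq, Polynomial.sum_comp, Polynomial.finsetSum_coeff]
    refine Finset.sum_congr rfl fun j _ => ?_
    simp only [mul_comp, C_comp, pow_comp, X_comp, coeff_C_mul]
  have hqc : ∀ j, q.coeff j = (taylor (x i) (T j)).coeff l := by
    intro j
    rw [hq, Polynomial.finsetSum_coeff]
    simp only [coeff_C_mul, coeff_X_pow, mul_ite, mul_one, mul_zero]
    rw [Finset.sum_ite_eq]
    split_ifs with h
    · rfl
    · rw [Finset.mem_range, not_lt] at h
      rw [hR j h]; simp
  have hdq : (X - C (1 : ℝ)) ^ (mu i - l) ∣ q := by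
    rw [Polynomial.X_sub_C_pow_dvd_iff, Polynomial.X_pow_dvd_iff]
    intro d hd
    rw [hcomp]
    exact hoff l d (by omega)
  have hsup : q.support ⊆ S := by
    intro j hj
    by_contra hjS
    rw [Polynomial.mem_support_iff, hqc, hS j hjS] at hj
    simp at hj
  have hq0 : q = 0 := by
    apply descartes q (Finset.univ : Finset Unit) (fun _ => (1 : ℝ)) (fun _ => mu i - l)
    · intro _ _; norm_num
    · intro a _ b _ _; rfl
    · intro _ _; exact hdq
    · simp only [Finset.univ_unique, Finset.sum_const, Finset.card_singleton, one_smul]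
      exact (Finset.card_le_card hsup).trans hcard
  intro j
  rw [pow_dvd_iff_taylor]
  intro d hd
  rcases Nat.lt_succ_iff_lt_or_eq.1 hd with h | h
  · exact (pow_dvd_iff_taylor _ _ _).1 (hdvd j) d h
  · rw [h, ← hqc, hq0, coeff_zero]

theorem elim {ι : Type*} [DecidableEq ι] (x : ι → ℝ) (hx : ∀ i, 0 < x i)
    (hinj : Function.Injective x) (y : ℝ) (hy : 0 < y) (hyx : ∀ i, x i ≠ y)
    (mu : ι → ℕ) (O A B : Finset ι) (hOA : Disjoint O A) (hOB : Disjoint O B)
    (hAB : Disjoint A B) (M jst : ℕ) (hA : ∀ i ∈ A, M + 1 ≤ mu i) (hB : ∀ i ∈ B, M ≤ mu i)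
    (T : ℕ → ℝ[X]) (R : ℕ) (hR : ∀ j, R ≤ j → T j = 0)
    (nn t : ℕ → ℕ) (hsupp : ∀ j, (T j).support.card ≤ nn j)
    (hO : ∀ i ∈ O, ∀ j, (X - C (x i)) ^ (mu i - j) ∣ T j)
    (hoff : ∀ i, i ∈ A ∨ i ∈ B → ∀ al be, al + be < mu i →
      ∑ j ∈ Finset.range R, (taylor (x i) (T j)).coeff al * ((X + C 1 : ℝ[X]) ^ j).coeff be = 0)
    (hty : ∀ j, (X - C y) ^ (t j) ∣ T j)
    (H1 : ∀ j < M, nn j ≤ (∑ i ∈ O, (mu i - j)) + t j + (M - 1 - j) * B.card + (M - j) * A.card)
    (H2 : ∀ j, M ≤ j → j ≠ jst → nn j ≤ (∑ i ∈ O, (mu i - j)) + t j)
    (H3 : nn jst ≤ (∑ i ∈ O, (mu i - jst)) + t jst + (M + 1) * A.card + M * B.card) :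
    ∀ j, T j = 0 := by
  classical
  -- Descartes with all the points
  have D1 : ∀ (j lA lB : ℕ), (∀ i ∈ A, (X - C (x i)) ^ lA ∣ T j) →
      (∀ i ∈ B, (X - C (x i)) ^ lB ∣ T j) →
      nn j ≤ (∑ i ∈ O, (mu i - j)) + t j + lA * A.card + lB * B.card → T j = 0 := by
    intro j lA lB h1 h2 h3
    -- use index type Option ι
    let s : Finset (Option ι) := insert none ((O ∪ (A ∪ B)).map Function.Embedding.some)
    let xx : Option ι → ℝ := fun o => o.elim y x
    let w : Option ι → ℕ := fun o => o.elim (t j) (fun i =>
      if i ∈ O then mu i - j else if i ∈ A then lA else lB)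
    have hnone : none ∉ ((O ∪ (A ∪ B)).map Function.Embedding.some) := by simp
    apply descartes (T j) s xx w
    · intro o _
      cases o with
      | none => exact hy
      | some i => exact hx i
    · intro o1 _ o2 _ h
      cases o1 with
      | none =>
        cases o2 with
        | none => rfl
        | some i => exact absurd h.symm (hyx i)
      | some i =>
        cases o2 with
        | none => exact absurd h (hyx i)
        | some i' => rw [hinj h]
    · intro o ho
      cases o with
      | none => exact hty j
      | some i =>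
        have hi : i ∈ O ∨ i ∈ A ∨ i ∈ B := by
          simpa [s] using ho
        change (X - C (x i)) ^ (if i ∈ O then mu i - j else if i ∈ A then lA else lB) ∣ T j
        split_ifs with h4 h5
        · exact hO i h4 j
        · exact h1 i h5
        · rcases hi with h | h | h
          · exact absurd h h4
          · exact absurd h h5
          · exact h2 i h
    · refine (hsupp j).trans (h3.trans (le_of_eq ?_))
      rw [Finset.sum_insert hnone, Finset.sum_map, Finset.sum_union, Finset.sum_union hAB]
      · have e1 : ∑ i ∈ O, w (Function.Embedding.some i) = ∑ i ∈ O, (mu i - j) := by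
          refine Finset.sum_congr rfl fun i hi => ?_
          change (if i ∈ O then mu i - j else if i ∈ A then lA else lB) = _
          rw [if_pos hi]
        have e2 : ∑ i ∈ A, w (Function.Embedding.some i) = lA * A.card := by
          rw [Finset.sum_congr rfl (g := fun _ => lA), Finset.sum_const, smul_eq_mul, mul_comm]
          intro i hi
          change (if i ∈ O then mu i - j else if i ∈ A then lA else lB) = _
          rw [if_neg (Finset.disjoint_right.1 hOA hi), if_pos hi]
        have e3 : ∑ i ∈ B, w (Function.Embedding.some i) = lB * B.card := by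
          rw [Finset.sum_congr rfl (g := fun _ => lB), Finset.sum_const, smul_eq_mul, mul_comm]
          intro i hi
          change (if i ∈ O then mu i - j else if i ∈ A then lA else lB) = _
          rw [if_neg (Finset.disjoint_right.1 hOB hi), if_neg (Finset.disjoint_right.1 hAB hi)]
        have e4 : w none = t j := rfl
        rw [e1, e2, e3, e4]; ring
      · rw [Finset.disjoint_union_right]; exact ⟨hOA, hOB⟩
  -- the induction
  have key : ∀ l ≤ M, ∀ i, i ∈ A ∨ i ∈ B → ∀ j, (X - C (x i)) ^ l ∣ T j := by
    intro l
    induction l with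
    | zero => intro _ i _ j; simp
    | succ l ih =>
      intro hl
      have ih := ih (by omega)
      have stepA : ∀ i ∈ A, ∀ j, (X - C (x i)) ^ (l + 1) ∣ T j := by
        intro i hi
        have hmu := hA i hi
        apply off_step x mu i T R hR (hoff i (Or.inl hi)) l (by omega) (ih i (Or.inl hi))
          (insert jst (Finset.range (M - l)))
        · intro j hj
          rw [Finset.mem_insert, Finset.mem_range, not_or, not_lt] at hj
          apply D1 j l l (fun i hi => ih i (Or.inl hi) j) (fun i hi => ih i (Or.inr hi) j)
          by_cases hjM : j < M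
          · refine (H1 j hjM).trans ?_
            have h1 : M - 1 - j ≤ l := by omega
            have h2 : M - j ≤ l := by omega
            have h3 := Nat.mul_le_mul_right B.card h1
            have h4 := Nat.mul_le_mul_right A.card h2
            omega
          · refine (H2 j (by omega) hj.1).trans ?_
            omega
        · refine (Finset.card_insert_le _ _).trans ?_
          rw [Finset.card_range]; omega
      have stepB : ∀ i ∈ B, ∀ j, (X - C (x i)) ^ (l + 1) ∣ T j := by
        intro i hi
        have hmu := hB i hi
        apply off_step x mu i T R hR (hoff i (Or.inr hi)) l (by omega) (ih i (Or.inr hi))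
          (insert jst (Finset.range (M - 1 - l)))
        · intro j hj
          rw [Finset.mem_insert, Finset.mem_range, not_or, not_lt] at hj
          apply D1 j (l + 1) l (fun i hi => stepA i hi j) (fun i hi => ih i (Or.inr hi) j)
          by_cases hjM : j < M
          · refine (H1 j hjM).trans ?_
            have h1 : M - 1 - j ≤ l := by omega
            have h2 : M - j ≤ l + 1 := by omega
            have h3 := Nat.mul_le_mul_right B.card h1
            have h4 := Nat.mul_le_mul_right A.card h2
            omega
          · refine (H2 j (by omega) hj.1).trans ?_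
            omega
        · refine (Finset.card_insert_le _ _).trans ?_
          rw [Finset.card_range]; omega
      intro i hi
      rcases hi with hi | hi
      · exact stepA i hi
      · exact stepB i hi
  have keyA : ∀ i ∈ A, ∀ j, (X - C (x i)) ^ (M + 1) ∣ T j := by
    intro i hi
    have hmu := hA i hi
    apply off_step x mu i T R hR (hoff i (Or.inl hi)) M (by omega) (key M le_rfl i (Or.inl hi))
      {jst}
    · intro j hj
      rw [Finset.mem_singleton] at hj
      apply D1 j M M (fun i hi => key M le_rfl i (Or.inl hi) j)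
        (fun i hi => key M le_rfl i (Or.inr hi) j)
      by_cases hjM : j < M
      · refine (H1 j hjM).trans ?_
        have h1 : M - 1 - j ≤ M := by omega
        have h2 : M - j ≤ M := by omega
        have h3 := Nat.mul_le_mul_right B.card h1
        have h4 := Nat.mul_le_mul_right A.card h2
        omega
      · refine (H2 j (by omega) hj).trans ?_
        omega
    · rw [Finset.card_singleton]; omega
  intro j
  apply D1 j (M + 1) M (fun i hi => keyA i hi j) (fun i hi => key M le_rfl i (Or.inr hi) j)
  by_cases hj : j = jst
  · rw [hj]; exact H3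
  · by_cases hjM : j < M
    · refine (H1 j hjM).trans ?_
      have h1 : M - 1 - j ≤ M := by omega
      have h2 : M - j ≤ M + 1 := by omega
      have h3 := Nat.mul_le_mul_right B.card h1
      have h4 := Nat.mul_le_mul_right A.card h2
      omega
    · refine (H2 j (by omega) hj).trans ?_
      omega

end Pool.MP_70e04f_ag
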