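import Pool.Agent.Lib_MP_70e04f_ag.Scale
import Pool.Agent.Lib_MP_70e04f_ag.Elim

/-!
Combinatorial certificates for the dimension of the limit system.
-/

namespace Pool.MP_70e04f_ag

open Polynomial

/-- Descartes' rule for one row. -/
lemma row_zero {ι : Type*} [DecidableEq ι] (x : ι → ℝ) (hx : ∀ i, 0 < x i)
    (hinj : Function.Injective x) (y : ℝ) (hy : 0 < y) (hyx : ∀ i, x i ≠ y)
    (f : ℝ[X]) (s : Finset ι) (c : ι → ℕ) (h : ∀ i ∈ s, (X - C (x i)) ^ (c i) ∣ f) (t : ℕ)
    (ht : (X - C y) ^ t ∣ f) (hcard : f.support.card ≤ (∑ i ∈ s, c i) + t) : f = 0 := by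
  classical
  let s' : Finset (Option ι) := insert none (s.map Function.Embedding.some)
  let xx : Option ι → ℝ := fun o => o.elim y x
  let w : Option ι → ℕ := fun o => o.elim t c
  have hnone : none ∉ s.map Function.Embedding.some := by simp
  apply descartes f s' xx w
  · intro o _
    cases o with
    | none => exact hy
    | some i => exact hx i
  · intro o1 _ o2 _ h
    cases o1 with
    | none =>
      cases o2 with
      | none => rfl
      | some i => exact absurd h.symm (hyx i)
    | some i =>
      cases o2 with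
      | none => exact absurd h (hyx i)
      | some i' => rw [hinj h]
  · intro o ho
    cases o with
    | none => exact ht
    | some i =>
      have hi : i ∈ s := by simpa [s'] using ho
      exact h i hi
  · refine hcard.trans (le_of_eq ?_)
    rw [Finset.sum_insert hnone, Finset.sum_map]
    have e2 : w none = t := rfl
    rw [e2, add_comm]
    rfl

section
variable (k N : ℕ)

/-- The number of large entries of a pattern. -/
def PatOK (m : ℕ) (w : ℕ → ℕ) : Prop :=
  ∀ l, ∀ F : Finset ℕ, (∀ j ∈ F, l < w j) → F.card ≤ m - l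

lemma PatOK.le {m : ℕ} {w : ℕ → ℕ} (h : PatOK m w) (j : ℕ) : w j ≤ m := by
  by_contra hcon
  have := h m {j} (by intro i hi; rw [Finset.mem_singleton] at hi; subst hi; omega)
  rw [Finset.card_singleton] at this
  omega

/-- Elimination at one point. -/
lemma elim_one (m : ℕ) (x : ℝ) (w : ℕ → ℕ) (hw : PatOK m w) (v : ↥(tri N) → ℝ)
    (hoff : v ∈ offSub k N m x 1) (j0 : ℕ)
    (hex : ∀ j, rowPoly k N v j = 0 ∨ w j0 ≤ w j ∨
      ((X - C x) ^ (w j) ∣ rowPoly k N v j → rowPoly k N v j = 0)) :
    ∀ l ≤ w j0, ∀ j, (X - C x) ^ l ∣ rowPoly k N v j := by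
  intro l
  induction l with
  | zero => intro _ j; simp
  | succ l ih =>
    intro hl
    have ih := ih (by omega)
    have hm : w j0 ≤ m := hw.le j0
    apply off_step (fun _ : Unit => x) (fun _ => m) () (rowPoly k N v) N
      (fun j hj => rowPoly_eq_zero k N v j hj) hoff l (by show l < m; omega) ih
      ((Finset.range N).filter (fun j => l < w j))
    · intro j hj
      rw [Finset.mem_filter, Finset.mem_range, not_and, not_lt] at hj
      rcases Nat.lt_or_ge j N with h1 | h1
      · have h2 := hj h1
        rcases hex j with h | h | h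
        · exact h
        · omega
        · exact h ((pow_dvd_pow _ h2).trans (ih j))
      · exact rowPoly_eq_zero k N v j h1
    · exact hw l _ (fun j hj => (Finset.mem_filter.1 hj).2)

/-- The certificates. -/
structure IsCert {n : ℕ} (m : Fin n → ℕ) (V : Fin n → ℕ → ℕ) (σ : Fin n → ℤ) (ord : Fin n → ℕ)
    (Γ : Finset (Fin n)) (w : ℕ → ℕ) (Mc : ℕ) : Prop where
  hσ : ∀ i, σ i = 1 ∨ σ i = -1
  hΓm : ∀ i ∈ Γ, Mc ≤ m i
  hΓV : ∀ i ∈ Γ, V i = w
  hw : PatOK Mc w
  hV : ∀ i, i ∉ Γ → PatOK (m i) (V i)
  hex : ∀ i, i ∉ Γ → ∀ j0 j : ℕ, 0 < σ i * ((j : ℤ) - j0) → V i j < V i j0 →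
    ∀ p, p ≠ i → (p ∈ Γ ∨ ord i ≤ ord p) → V p j = 0

variable {n : ℕ}

/-- The positions in the `x` direction. -/
noncomputable def xpos (i : Fin n) : ℝ := ((i : ℕ) : ℝ) + 2

lemma xpos_pos (i : Fin n) : 0 < xpos i := by unfold xpos; positivity

lemma xpos_inj : Function.Injective (xpos (n := n)) := by
  intro i j hij
  have : ((i : ℕ) : ℝ) = ((j : ℕ) : ℝ) := by simpa [xpos] using hij
  exact Fin.ext (Nat.cast_injective this)

lemma xpos_ne (i : Fin n) : xpos i ≠ 1 := by
  intro h
  have : (0 : ℝ) ≤ ((i : ℕ) : ℝ) := Nat.cast_nonneg _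
  unfold xpos at h
  linarith

/-- A row all of whose points are used up vanishes. -/
lemma row_zero' (V : Fin n → ℕ → ℕ) (t : ℕ → ℕ) (v : ↥(tri N) → ℝ) (j : ℕ)
    (S : Finset (Fin n)) (c : Fin n → ℕ) (h : ∀ i ∈ S, (X - C (xpos i)) ^ (c i) ∣ rowPoly k N v j)
    (ht : (X - C (1 : ℝ)) ^ (t j) ∣ rowPoly k N v j)
    (hcard : nrow k N j ≤ (∑ i ∈ S, c i) + t j) : rowPoly k N v j = 0 :=
  row_zero xpos xpos_pos xpos_inj 1 one_pos xpos_ne _ S c h (t j) ht
    ((card_support_rowPoly k N v j).trans hcard)

theorem cert_pos (hk : 0 < k) (m : Fin n → ℕ) (V : Fin n → ℕ → ℕ) (σ : Fin n → ℤ)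
    (ord : Fin n → ℕ) (Γ : Finset (Fin n)) (w : ℕ → ℕ) (Mc : ℕ)
    (hC : IsCert m V σ ord Γ w Mc) (t : ℕ → ℕ)
    (hcap : ∀ j, nrow k N j ≤ (∑ i, V i j) + t j) :
    ∀ (c : ℕ) (S : Finset (Fin n)), Disjoint S Γ → ((S ∪ Γ)ᶜ).card = c →
      (∀ p ∈ S, ∀ q, q ∉ Γ → ord q < ord p → q ∈ S) →
      ∃ u : Fin n → ℝ, ∀ v : ↥(tri N) → ℝ,
        (∀ j, (X - C (1 : ℝ)) ^ (t j) ∣ rowPoly k N v j) →
        (∀ i ∈ S, ∀ j, (X - C (xpos i)) ^ (V i j) ∣ rowPoly k N v j) →
        (∀ i, i ∉ S → v ∈ offSub k N (m i) (xpos i) (u i)) → ∀ j, rowPoly k N v j = 0 := by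
  classical
  intro c
  induction c with
  | zero =>
    intro S hSΓ hc _
    refine ⟨fun _ => 1, ?_⟩
    intro v ht hS hoff
    have hcov : ∀ i, i ∈ S ∨ i ∈ Γ := by
      intro i
      by_contra hcon
      rw [Finset.card_eq_zero, Finset.eq_empty_iff_forall_notMem] at hc
      exact hc i (by rw [Finset.mem_compl, Finset.mem_union]; exact hcon)
    have huniv : S ∪ Γ = Finset.univ := by
      rw [Finset.eq_univ_iff_forall]
      intro i; rw [Finset.mem_union]; exact hcov i
    have hdead : ∀ l j, (∀ i ∈ Γ, (X - C (xpos i)) ^ l ∣ rowPoly k N v j) → w j ≤ l →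
        rowPoly k N v j = 0 := by
      intro l j h hl
      apply row_zero' k N V t v j (S ∪ Γ) (fun i => if i ∈ S then V i j else w j)
      · intro i hi
        split_ifs with h1
        · exact hS i h1 j
        · exact (pow_dvd_pow _ hl).trans (h i ((hcov i).resolve_left h1))
      · exact ht j
      · refine (hcap j).trans (le_of_eq ?_)
        congr 1
        rw [huniv]
        refine Finset.sum_congr rfl fun i _ => ?_
        split_ifs with h1
        · rfl
        · rw [hC.hΓV i ((hcov i).resolve_left h1)]
    have key : ∀ l ≤ Mc, ∀ i ∈ Γ, ∀ j, (X - C (xpos i)) ^ l ∣ rowPoly k N v j := by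
      intro l
      induction l with
      | zero => intro _ i _ j; simp
      | succ l ih =>
        intro hl i hi
        have ih := ih (by omega)
        have hmi := hC.hΓm i hi
        apply off_step (xpos (n := n)) m i (rowPoly k N v) N
          (fun j hj => rowPoly_eq_zero k N v j hj)
          (hoff i (Finset.disjoint_right.1 hSΓ hi)) l (by omega) (ih i hi)
          ((Finset.range N).filter (fun j => l < w j))
        · intro j hj
          rw [Finset.mem_filter, Finset.mem_range, not_and, not_lt] at hj
          rcases Nat.lt_or_ge j N with h1 | h1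
          · exact hdead l j (fun i hi => ih i hi j) (hj h1)
          · exact rowPoly_eq_zero k N v j h1
        · refine (hC.hw l _ (fun j hj => (Finset.mem_filter.1 hj).2)).trans ?_
          omega
    intro j
    exact hdead Mc j (fun i hi => key Mc le_rfl i hi j) (hC.hw.le j)
  | succ c ih =>
    intro S hSΓ hc hdown
    have hne : ((S ∪ Γ)ᶜ).Nonempty := by
      rw [← Finset.card_pos, hc]; omega
    obtain ⟨i, hi, hmin⟩ := Finset.exists_min_image _ ord hne
    rw [Finset.mem_compl, Finset.mem_union, not_or] at hi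
    obtain ⟨hiS, hiΓ⟩ := hi
    have hmin' : ∀ p, p ∉ S → p ∉ Γ → ord i ≤ ord p := by
      intro p h1 h2
      exact hmin p (by rw [Finset.mem_compl, Finset.mem_union]; tauto)
    obtain ⟨u, hu⟩ := ih (insert i S)
      (by rw [Finset.disjoint_insert_left]; exact ⟨hiΓ, hSΓ⟩)
      (by
        have h1 : insert i S ∪ Γ = insert i (S ∪ Γ) := by rw [Finset.insert_union]
        rw [h1, Finset.compl_insert, Finset.card_erase_of_mem, hc]
        · omega
        · rw [Finset.mem_compl, Finset.mem_union]; tauto)
      (by
        intro p hp q hq hqp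
        rw [Finset.mem_insert] at hp ⊢
        by_cases hqS : q ∈ S
        · exact Or.inr hqS
        · have h1 := hmin' q hqS hq
          rcases hp with rfl | hp
          · omega
          · exact absurd (hdown p hp q hq hqp) hqS)
    set G : Submodule ℝ (↥(tri N) → ℝ) := (⨅ j, divSub k N 1 (t j) j) ⊓
      (⨅ p ∈ S, ⨅ j, divSub k N (xpos p) (V p j) j) with hG
    have memG : ∀ v, v ∈ G ↔ (∀ j, (X - C (1 : ℝ)) ^ (t j) ∣ rowPoly k N v j) ∧
        (∀ p ∈ S, ∀ j, (X - C (xpos p)) ^ (V p j) ∣ rowPoly k N v j) := by
      intro v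
      rw [hG, Submodule.mem_inf, Submodule.mem_iInf, Submodule.mem_iInf]
      simp only [Submodule.mem_iInf, mem_divSub]
    set W : Submodule ℝ (↥(tri N) → ℝ) := G ⊓
      (⨅ p ∈ (insert i S)ᶜ, offSub k N (m p) (xpos p) (u p)) with hW
    have memW : ∀ v, v ∈ W ↔ v ∈ G ∧ ∀ p, p ∉ insert i S →
        v ∈ offSub k N (m p) (xpos p) (u p) := by
      intro v
      rw [hW, Submodule.mem_inf]
      simp only [Submodule.mem_iInf, Finset.mem_compl]
    obtain ⟨ui, hui, hui2⟩ := exists_scale k N (m i) (xpos i) G W (by
        intro s v hv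
        rw [memG] at hv ⊢
        refine ⟨fun j => ?_, fun p hp j => ?_⟩
        · rw [rowPoly_sc]; exact (hv.1 j).mul_left _
        · rw [rowPoly_sc]; exact (hv.2 p hp j).mul_left _) inf_le_left (V i) (σ i) (hC.hσ i) (by
        intro j0 v hv hz hoff
        apply elim_one k N (m i) (xpos i) (V i) (hC.hV i hiΓ) v hoff j0 _ (V i j0) le_rfl
        intro j
        rcases lt_or_ge (σ i * ((j : ℤ) - j0)) 0 with h1 | h1
        · left
          rw [rowPoly]
          apply Finset.sum_eq_zero
          intro q _
          split_ifs with hq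
          · rw [hz q (by rw [hq]; exact h1)]; simp
          · rfl
        · right
          rcases Nat.lt_or_ge (V i j) (V i j0) with h2 | h2
          swap
          · exact Or.inl h2
          · right
            intro hd
            have h3 : 0 < σ i * ((j : ℤ) - j0) := by
              refine lt_of_le_of_ne h1 ?_
              intro h4
              rcases mul_eq_zero.1 h4.symm with h5 | h5
              · rcases hC.hσ i with h | h <;> omega
              · have : j = j0 := by omega
                rw [this] at h2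
                exact lt_irrefl _ h2
            have h4 := hC.hex i hiΓ j0 j h3 h2
            rw [memG] at hv
            apply row_zero' k N V t v j (insert i S) (fun p => V p j)
            · intro p hp
              rw [Finset.mem_insert] at hp
              rcases hp with rfl | hp
              · exact hd
              · exact hv.2 p hp j
            · exact hv.1 j
            · refine (hcap j).trans (le_of_eq ?_)
              congr 1
              symm
              apply Finset.sum_subset (Finset.subset_univ _)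
              intro p _ hp
              rw [Finset.mem_insert, not_or] at hp
              by_cases hpΓ : p ∈ Γ
              · exact h4 p hp.1 (Or.inl hpΓ)
              · exact h4 p hp.1 (Or.inr (hmin' p hp.2 hpΓ))) (by
        intro v hv hd
        rw [memW, memG] at hv
        have h1 := hu v hv.1.1 (by
          intro p hp j
          rw [Finset.mem_insert] at hp
          rcases hp with rfl | hp
          · exact hd j
          · exact hv.1.2 p hp j) hv.2
        funext q
        rw [← coeff_rowPoly k N hk v q, h1]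
        simp)
    refine ⟨Function.update u i ui, ?_⟩
    intro v h1 h2 h3 j
    have h4 : v = 0 := by
      apply hui2 v
      · rw [memW, memG]
        refine ⟨⟨h1, h2⟩, ?_⟩
        intro p hp
        rw [Finset.mem_insert, not_or] at hp
        have := h3 p hp.2
        rwa [Function.update_of_ne hp.1] at this
      · have := h3 i hiS
        rwa [Function.update_self] at this
    rw [h4]
    exact (rowLin k N j).map_zero

end

end Pool.MP_70e04f_ag
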