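import Pool.Agent.Lib_MP_70e04f_ag.Mono

/-!
Counting the rows.
-/

namespace Pool.MP_70e04f_ag

/-- `∑_{r<k} (w - r)` with truncated subtraction. -/
def S (k w : ℕ) : ℕ := ∑ r ∈ Finset.range k, (w - r)

lemma S_succ (k w : ℕ) : S (k + 1) w = S k w + (w - k) := Finset.sum_range_succ _ _

lemma S_large (k w : ℕ) (h : k ≤ w + 1) : 2 * S k w + k * (k - 1) = 2 * k * w := by
  induction k with
  | zero => simp [S]
  | succ k ih =>
    have h1 := ih (by omega)
    rw [S_succ]
    obtain ⟨c, rfl⟩ := Nat.exists_eq_add_of_le (show k ≤ w by omega)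
    rw [Nat.add_sub_cancel_left, Nat.add_sub_cancel]
    cases k with
    | zero => simp [S]
    | succ k =>
      rw [Nat.add_sub_cancel] at h1
      nlinarith

lemma S_small (k w : ℕ) (h : w ≤ k) : 2 * S k w = w * (w + 1) := by
  induction k with
  | zero =>
    have : w = 0 := by omega
    subst this; simp [S]
  | succ k ih =>
    rcases Nat.lt_or_ge w (k + 1) with h1 | h1
    · rw [S_succ, Nat.sub_eq_zero_of_le (by omega), add_zero]
      exact ih (by omega)
    · have : w = k + 1 := by omega
      subst this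
      have := S_large (k + 1) (k + 1) (by omega)
      rw [Nat.add_sub_cancel] at this
      nlinarith

lemma S_mono (k : ℕ) {w w' : ℕ} (h : w ≤ w') : S k w ≤ S k w' :=
  Finset.sum_le_sum fun r _ => Nat.sub_le_sub_right h r

lemma nrow_eq (k N j : ℕ) (hk : 0 < k) : nrow k N j = S k (N - k * j) := by
  classical
  have : nrow k N j = ((Finset.range k).sigma (fun r => Finset.range (N - k * j - r))).card := by
    unfold nrow
    symm
    apply Finset.card_bij (fun (c : Σ _ : ℕ, ℕ) _ => ((k * j + c.1, c.2) : ℕ × ℕ))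
    · rintro ⟨r, b⟩ h
      rw [Finset.mem_sigma, Finset.mem_range, Finset.mem_range] at h
      simp only at h
      rw [Finset.mem_filter, mem_tri]
      refine ⟨by show k * j + r + b < N; omega, ?_⟩
      show (k * j + r) / k = j
      rw [Nat.mul_add_div hk, Nat.div_eq_of_lt h.1, add_zero]
    · rintro ⟨r, b⟩ _ ⟨r', b'⟩ _ h
      have h1 : k * j + r = k * j + r' := congrArg Prod.fst h
      have h2 : b = b' := congrArg Prod.snd h
      have h3 : r = r' := by omega
      subst h2; subst h3; rfl
    · rintro ⟨A, b⟩ h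
      rw [Finset.mem_filter, mem_tri] at h
      have h1 : A / k = j := h.2
      have h2 : A + b < N := h.1
      have h3 := Nat.div_add_mod A k
      rw [h1] at h3
      have h4 := Nat.mod_lt A hk
      refine ⟨⟨A % k, b⟩, ?_, ?_⟩
      · rw [Finset.mem_sigma, Finset.mem_range, Finset.mem_range]
        refine ⟨h4, ?_⟩
        show b < N - k * j - A % k
        omega
      · show (k * j + A % k, b) = (A, b)
        rw [h3]
  rw [this, Finset.card_sigma]
  simp [S]

lemma two_card_tri (m : ℕ) : 2 * (tri m).card = m * (m + 1) := by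
  have h1 : nrow (m + 1) m 0 = (tri m).card := by
    unfold nrow
    congr 1
    apply Finset.filter_true_of_mem
    intro q hq
    have := mem_tri.1 hq
    exact Nat.div_eq_of_lt (by omega)
  rw [← h1, nrow_eq _ _ _ (Nat.succ_pos m), mul_zero, Nat.sub_zero, S_small _ _ (Nat.le_succ m)]

lemma sum_nrow (k N : ℕ) : ∑ j ∈ Finset.range N, nrow k N j = (tri N).card := by
  classical
  unfold nrow
  symm
  apply Finset.card_eq_sum_card_fiberwise
  intro q hq
  have := mem_tri.1 hq
  have := Nat.div_le_self q.1 k
  exact Finset.mem_coe.2 (Finset.mem_range.2 (show q.1 / k < N by omega))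

lemma sum_sub_range (m N : ℕ) (h : m ≤ N) : 2 * ∑ j ∈ Finset.range N, (m - j) = m * (m + 1) :=
  S_small N m h

end Pool.MP_70e04f_ag
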