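import Pool.Agent.Lib_MP_70e04f_ag.Mat

/-!
The degeneration `y = x^k + e u`.
-/

namespace Pool.MP_70e04f_ag

open MvPolynomial

/-- The matrix of the conditions in the coordinates `(x, u)`, `y = x^k + e u`, with respect to
the basis `u^(A/k) x^(A%k) (x^k + e u)^b`. -/
noncomputable def degMat {R : Type*} [CommRing R] {n : ℕ} (k N : ℕ) (m : Fin n → ℕ)
    (x u : Fin n → R) (e : R) : Matrix (Σ i : Fin n, ↥(tri (m i))) ↥(tri N) R :=
  fun c q => ∑ t ∈ Finset.range (q.1.2 + 1), ((q.1.2.choose t : ℕ) : R) * e ^ t *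
    ec (x c.1) (u c.1) (q.1.1 % k + k * (q.1.2 - t)) (q.1.1 / k + t) c.2.1.1 c.2.1.2

lemma degMat_map {R S : Type*} [CommRing R] [CommRing S] {n : ℕ} (k N : ℕ) (m : Fin n → ℕ)
    (x u : Fin n → R) (e : R) (φ : R →+* S) :
    (degMat k N m x u e).map φ = degMat k N m (fun i => φ (x i)) (fun i => φ (u i)) (φ e) := by
  ext c q
  simp only [Matrix.map_apply, degMat, map_sum, map_mul, map_pow, map_natCast, ec_map]

section
variable {K : Type*} [Field K]

/-- The substitution `y = x^k + e u`. -/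
noncomputable def subst (k : ℕ) (e : K) : MvPolynomial (Fin 2) K →ₐ[K] MvPolynomial (Fin 2) K :=
  aeval ![X 0, X 0 ^ k + C e * X 1]

lemma subst_X0 (k : ℕ) (e : K) : subst k e (X 0) = X 0 := by simp [subst]
lemma subst_X1 (k : ℕ) (e : K) : subst k e (X 1) = X 0 ^ k + C e * X 1 := by simp [subst]

lemma subst_mem (k : ℕ) (e : K) (x u : K) (m : ℕ) (f : MvPolynomial (Fin 2) K)
    (hf : f ∈ (RingHom.ker (MvPolynomial.eval ![x, x ^ k + e * u]) :
      Ideal (MvPolynomial (Fin 2) K)) ^ m) :
    subst k e f ∈ (RingHom.ker (MvPolynomial.eval ![x, u]) :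
      Ideal (MvPolynomial (Fin 2) K)) ^ m := by
  have h1 : Ideal.map (subst k e).toRingHom
      (RingHom.ker (MvPolynomial.eval ![x, x ^ k + e * u])) ≤
      RingHom.ker (MvPolynomial.eval ![x, u]) := by
    rw [Ideal.map_le_iff_le_comap]
    intro g hg
    rw [Ideal.mem_comap, RingHom.mem_ker]
    rw [RingHom.mem_ker] at hg
    rw [← hg]
    have : (eval ![x, u] : MvPolynomial (Fin 2) K →+* K).comp (subst k e).toRingHom
        = eval ![x, x ^ k + e * u] := by
      apply MvPolynomial.ringHom_ext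
      · intro r; simp [subst]
      · intro i
        fin_cases i <;> simp [subst]
    exact congrArg (fun ψ : MvPolynomial (Fin 2) K →+* K => ψ g) this
  have := Ideal.mem_map_of_mem (subst k e).toRingHom hf
  rw [Ideal.map_pow] at this
  exact Ideal.pow_right_mono h1 m this

/-- The adapted basis elements, before the substitution. -/
noncomputable def gen (k : ℕ) (e : K) (q : ℕ × ℕ) : MvPolynomial (Fin 2) K :=
  C ((e⁻¹) ^ (q.1 / k)) * (X 1 - X 0 ^ k) ^ (q.1 / k) * X 0 ^ (q.1 % k) * X 1 ^ q.2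

noncomputable def toG (k N : ℕ) (e : K) : (↥(tri N) → K) →ₗ[K] MvPolynomial (Fin 2) K :=
  Fintype.linearCombination K (fun q : ↥(tri N) => gen k e q.1)

lemma toG_apply (k N : ℕ) (e : K) (v : ↥(tri N) → K) :
    toG k N e v = ∑ q : ↥(tri N), v q • gen k e q.1 := rfl

lemma toPoly_le_toG (k N : ℕ) (hk : 0 < k) (e : K) (he : e ≠ 0) :
    LinearMap.range (toPoly K N) ≤ LinearMap.range (toG k N e) := by
  classical
  have hgen : ∀ q ∈ tri N, gen k e q ∈ LinearMap.range (toG k N e) := by
    intro q hq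
    refine ⟨Pi.single ⟨q, hq⟩ 1, ?_⟩
    rw [toG, Fintype.linearCombination_apply_single, one_smul]
  have main : ∀ (a j b : ℕ), k * j + a + b < N →
      ((X 1 - X 0 ^ k) ^ j * X 0 ^ a * X 1 ^ b : MvPolynomial (Fin 2) K) ∈
        LinearMap.range (toG k N e) := by
    intro a
    induction a using Nat.strong_induction_on with
    | _ a ih =>
      intro j b h
      by_cases hak : a < k
      · have h1 := hgen (k * j + a, b) (mem_tri.2 h)
        have hd : (k * j + a) / k = j := by
          rw [Nat.mul_add_div hk, Nat.div_eq_of_lt hak, add_zero]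
        have hm : (k * j + a) % k = a := by
          rw [Nat.mul_add_mod, Nat.mod_eq_of_lt hak]
        have h2 : ((X 1 - X 0 ^ k) ^ j * X 0 ^ a * X 1 ^ b : MvPolynomial (Fin 2) K) =
            (e ^ j) • gen k e (k * j + a, b) := by
          simp only [gen]
          rw [hd, hm, smul_eq_C_mul, ← mul_assoc, ← mul_assoc, ← mul_assoc, ← C_mul, ← mul_pow,
            mul_inv_cancel₀ he, one_pow, C_1, one_mul]
        rw [h2]
        exact Submodule.smul_mem _ _ h1
      · rw [not_lt] at hak
        obtain ⟨a', rfl⟩ := Nat.exists_eq_add_of_le hak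
        have h1 := ih a' (by omega) j (b + 1) (by omega)
        have h2 := ih a' (by omega) (j + 1) b (by
          have : k * (j + 1) = k * j + k := by ring
          omega)
        have h3 : ((X 1 - X 0 ^ k) ^ j * X 0 ^ (k + a') * X 1 ^ b : MvPolynomial (Fin 2) K) =
            (X 1 - X 0 ^ k) ^ j * X 0 ^ a' * X 1 ^ (b + 1) -
            (X 1 - X 0 ^ k) ^ (j + 1) * X 0 ^ a' * X 1 ^ b := by ring
        rw [h3]
        exact Submodule.sub_mem _ h1 h2
  rintro _ ⟨v, rfl⟩
  rw [toPoly_apply]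
  apply Submodule.sum_mem
  intro q _
  apply Submodule.smul_mem
  have := main q.1.1 0 q.1.2 (by have := mem_tri.1 q.2; omega)
  simpa using this

lemma coeff_shift_subst_gen (k : ℕ) (e : K) (he : e ≠ 0) (x u : K) (q : ℕ × ℕ) (α β : ℕ) :
    coeff (mon α β) (shift ![x, u] (subst k e (gen k e q))) =
      ∑ t ∈ Finset.range (q.2 + 1), ((q.2.choose t : ℕ) : K) * e ^ t *
        ec x u (q.1 % k + k * (q.2 - t)) (q.1 / k + t) α β := by
  have h1 : subst k e (gen k e q) = ∑ t ∈ Finset.range (q.2 + 1),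
      (((q.2.choose t : ℕ) : K) * e ^ t) •
        (X 0 ^ (q.1 % k + k * (q.2 - t)) * X 1 ^ (q.1 / k + t) : MvPolynomial (Fin 2) K) := by
    have h2 : subst k e (gen k e q) = X 1 ^ (q.1 / k) * X 0 ^ (q.1 % k) *
        (C e * X 1 + X 0 ^ k) ^ q.2 := by
      simp only [gen, map_mul, map_pow, map_sub, subst_X0, subst_X1]
      have h3 : subst k e (C e⁻¹) = C e⁻¹ := by simp [subst]
      have h4 : (X 0 ^ k + C e * X 1 - X 0 ^ k : MvPolynomial (Fin 2) K) = C e * X 1 := by ring
      rw [h3, h4, mul_pow, ← mul_assoc, ← mul_pow, ← C_mul, inv_mul_cancel₀ he, C_1, one_pow,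
        one_mul, add_comm (X 0 ^ k) (C e * X 1)]
    rw [h2, add_pow, Finset.mul_sum]
    refine Finset.sum_congr rfl fun t ht => ?_
    rw [smul_eq_C_mul, C_mul, C_pow, mul_pow, pow_add, pow_add, pow_mul]
    have : (C ((q.2.choose t : ℕ) : K) : MvPolynomial (Fin 2) K) = ((q.2.choose t : ℕ) :
      MvPolynomial (Fin 2) K) := by simp
    rw [this]
    ring
  rw [h1, map_sum, coeff_sum]
  refine Finset.sum_congr rfl fun t _ => ?_
  rw [map_smul, coeff_smul, coeff_shift_mon, smul_eq_mul]
  rfl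

/-- For `e ≠ 0` the kernel of the original conditions is no larger than that of `degMat`. -/
theorem finrank_condMat_le {n : ℕ} (k N : ℕ) (hk : 0 < k) (m : Fin n → ℕ) (x u : Fin n → K)
    (e : K) (he : e ≠ 0) :
    Module.finrank K (LinearMap.ker (condMat N m
      (fun i => ![x i, x i ^ k + e * u i])).mulVecLin) ≤
    Module.finrank K (LinearMap.ker (degMat k N m x u e).mulVecLin) := by
  have h1 : (LinearMap.ker (condMat N m
      (fun i => ![x i, x i ^ k + e * u i])).mulVecLin).map (toPoly K N) ≤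
      (LinearMap.ker (degMat k N m x u e).mulVecLin).map (toG k N e) := by
    rintro f ⟨v, hv, rfl⟩
    obtain ⟨w, hw⟩ := toPoly_le_toG k N hk e he ⟨v, rfl⟩
    refine ⟨w, ?_, hw⟩
    rw [SetLike.mem_coe, LinearMap.mem_ker, Matrix.mulVecLin_apply, ← toPoly_mem_iff] at hv
    rw [SetLike.mem_coe, LinearMap.mem_ker, Matrix.mulVecLin_apply]
    funext c
    have h2 := subst_mem k e (x c.1) (u c.1) (m c.1) _ (hv c.1)
    rw [← hw, mem_ker_pow_iff] at h2
    have h3 := h2 c.2.1 c.2.2
    rw [toG_apply, map_sum, map_sum, coeff_sum] at h3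
    refine Eq.trans ?_ h3
    change ∑ q : ↥(tri N), degMat k N m x u e c q * w q = _
    refine Finset.sum_congr rfl fun q _ => ?_
    rw [map_smul, map_smul, coeff_smul, coeff_shift_subst_gen k e he, smul_eq_mul, mul_comm]
    rfl
  have e1 := LinearEquiv.finrank_eq (Submodule.equivMapOfInjective (toPoly K N)
    (toPoly_injective K N) (LinearMap.ker (condMat N m
      (fun i => ![x i, x i ^ k + e * u i])).mulVecLin))
  have e2 := Submodule.finrank_map_le (toG k N e) (LinearMap.ker (degMat k N m x u e).mulVecLin)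
  have e3 := Submodule.finrank_mono h1
  omega

end

end Pool.MP_70e04f_ag
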