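import Mathlib

/-!
Descartes' rule of signs in the form used below, and the elimination lemma.
-/

namespace Pool.MP_70e04f_ag

open Polynomial

/-- The number of sign variations is less than the number of terms. -/
lemma signVariations_lt_card_support :
    ∀ (n : ℕ) (P : ℝ[X]), P ≠ 0 → P.support.card = n → P.signVariations + 1 ≤ n := by
  intro n
  induction n with
  | zero =>
    intro P hP hc
    exact absurd (Polynomial.support_eq_empty.1 (Finset.card_eq_zero.1 hc)) hP
  | succ n ih =>
    intro P hP hc
    by_cases he : P.eraseLead = 0
    · have : P = monomial P.natDegree P.leadingCoeff := by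
        have := Polynomial.eraseLead_add_monomial_natDegree_leadingCoeff P
        rw [he, zero_add] at this
        exact this.symm
      rw [this, Polynomial.signVariations_monomial]
      omega
    · have h1 : P.eraseLead.support.card = n := by
        have := Polynomial.card_support_eraseLead' (f := P) (c := n) hc
        exact this
      have h2 := ih P.eraseLead he h1
      have h3 := Polynomial.signVariations_le_eraseLead_succ P
      omega

/-- A real polynomial with at most `∑ w i` terms cannot vanish to order `w i` at distinct
positive reals `x i`, unless it is zero. -/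
theorem descartes {ι : Type*} (f : ℝ[X]) (s : Finset ι) (x : ι → ℝ) (w : ι → ℕ)
    (hx : ∀ i ∈ s, 0 < x i) (hinj : Set.InjOn x s)
    (hdvd : ∀ i ∈ s, (X - C (x i)) ^ (w i) ∣ f) (hcard : f.support.card ≤ ∑ i ∈ s, w i) :
    f = 0 := by
  classical
  by_contra hf
  have hprod : (∏ i ∈ s, (X - C (x i)) ^ (w i)) ∣ f := by
    apply Finset.prod_dvd_of_coprime
    · intro i hi j hj hij
      apply IsCoprime.pow
      apply Polynomial.isCoprime_X_sub_C_of_isUnit_sub
      have : x i ≠ x j := fun h => hij (hinj hi hj h)
      exact (sub_ne_zero.2 this).isUnit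
    · exact hdvd
  have hne : (∏ i ∈ s, (X - C (x i)) ^ (w i)) ≠ 0 := by
    apply Finset.prod_ne_zero_iff.2
    intro i _
    exact pow_ne_zero _ (X_sub_C_ne_zero _)
  have hroots : (∏ i ∈ s, (X - C (x i)) ^ (w i)).roots ≤ f.roots :=
    Polynomial.roots.le_of_dvd hf hprod
  have hr : (∏ i ∈ s, (X - C (x i)) ^ (w i)).roots = ∑ i ∈ s, (w i) • {x i} := by
    rw [Polynomial.roots_prod _ _ hne]
    simp [Polynomial.roots_pow, Multiset.bind, Multiset.join]
  have hcnt : ∑ i ∈ s, w i ≤ f.roots.countP (0 < ·) := by
    calc ∑ i ∈ s, w i = Multiset.card (∑ i ∈ s, (w i) • ({x i} : Multiset ℝ)) := by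
          rw [Multiset.card_sum]; simp
      _ = (∑ i ∈ s, (w i) • ({x i} : Multiset ℝ)).countP (0 < ·) := by
          symm
          rw [Multiset.countP_eq_card]
          intro a ha
          rw [Multiset.mem_sum] at ha
          obtain ⟨i, hi, ha⟩ := ha
          have := Multiset.mem_of_mem_nsmul ha
          rw [Multiset.mem_singleton] at this
          rw [this]; exact hx i hi
      _ ≤ f.roots.countP (0 < ·) := by
          rw [← hr]
          exact Multiset.countP_le_of_le _ hroots
  have h1 := Polynomial.roots_countP_pos_le_signVariations f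
  have h2 := signVariations_lt_card_support _ f hf rfl
  omega

end Pool.MP_70e04f_ag
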