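import Pool.Agent.Lib_MP_70e04f_ag.Cases

/-!
The main theorem.
-/

namespace Pool.MP_70e04f_ag

open MvPolynomial

/-- A real configuration of points with the expected dimension. -/
theorem exists_real (n k M N : ℕ) (m : Fin n → ℕ) (hk : 0 < k) (hn : n = k ^ 2)
    (hm : ∀ i, m i = M ∨ m i = M + 1) :
    ∃ p : Fin n → Fin 2 → ℝ, Good (condMat N m p) := by
  classical
  obtain ⟨A, B, hg⟩ := exists_good k M N m hk hn hm
  set x : Fin n → ℝ := fun i : Fin n => ((i : ℕ) : ℝ) + 2 with hx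
  set u : Fin n → ℝ := fun i => if i ∈ A ∪ B then 1 else 0 with hu
  set F : Matrix (Σ i : Fin n, ↥(tri (m i))) ↥(tri N) (Polynomial ℝ) :=
    degMat k N m (fun i => Polynomial.C (x i)) (fun i => Polynomial.C (u i)) Polynomial.X with hF
  have hFe : ∀ e : ℝ, F.map (Polynomial.evalRingHom e) = degMat k N m x u e := by
    intro e
    rw [hF, degMat_map]
    simp
  have hc : ∀ e : ℝ, (Polynomial.evalRingHom e).comp (Polynomial.C : ℝ →+* Polynomial ℝ) =
      RingHom.id ℝ := by
    intro e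
    ext r
    simp
  obtain ⟨g, hg0, hgg⟩ := exists_detpoly (Polynomial.C : ℝ →+* Polynomial ℝ) F
    (Polynomial.evalRingHom 0) (hc 0) (by rw [hFe]; exact hg)
  have hgX : g * Polynomial.X ≠ 0 := by
    apply mul_ne_zero
    · rintro rfl
      simp at hg0
    · exact Polynomial.X_ne_zero
  obtain ⟨e, he⟩ : ∃ e : ℝ, (g * Polynomial.X).eval e ≠ 0 := by
    by_contra hcon
    push Not at hcon
    apply hgX
    apply Polynomial.funext
    intro r
    rw [hcon r]; simp
  rw [Polynomial.eval_mul, Polynomial.eval_X] at he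
  have he1 : g.eval e ≠ 0 := left_ne_zero_of_mul he
  have he2 : e ≠ 0 := right_ne_zero_of_mul he
  have h1 : Good (degMat k N m x u e) := by
    rw [← hFe]
    exact hgg _ (hc e) he1
  refine ⟨fun i => ![x i, x i ^ k + e * u i], ?_⟩
  have h2 := finrank_condMat_le k N hk m x u e he2
  unfold Good at h1 ⊢
  omega

theorem main (n k M d : ℕ) (hk : 0 < k) (hn : n = k ^ 2) (m : Fin n → ℕ)
    (hm : ∀ i, m i = M ∨ m i = M + 1) :
    ∃ g : MvPolynomial (Fin n × Fin 2) ℂ, g ≠ 0 ∧
      ∀ p : Fin n → Fin 2 → ℂ,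
        MvPolynomial.eval (fun q : Fin n × Fin 2 => p q.1 q.2) g ≠ 0 →
          ((2 : ℤ) * ((Module.finrank ℂ
              ↥(MvPolynomial.restrictTotalDegree (Fin 2) ℂ d ⊓
                ⨅ i : Fin n, Submodule.restrictScalars ℂ
                  ((RingHom.ker (MvPolynomial.eval (p i)) :
                      Ideal (MvPolynomial (Fin 2) ℂ)) ^ m i)) : ℕ) : ℤ)
            = max 0 (((d : ℤ) + 1) * ((d : ℤ) + 2) - ∑ i, (m i : ℤ) * ((m i : ℤ) + 1))) := by
  classical
  obtain ⟨p0, hp0⟩ := exists_real n k M (d + 1) m hk hn hm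
  have hC : Good (condMat (d + 1) m (fun i j => ((p0 i j : ℝ) : ℂ))) := by
    have := hp0.map Complex.ofRealHom
    rw [condMat_map] at this
    exact this
  set F : Matrix (Σ i : Fin n, ↥(tri (m i))) ↥(tri (d + 1)) (MvPolynomial (Fin n × Fin 2) ℂ) :=
    condMat (d + 1) m (fun i j => X (i, j)) with hF
  have hFe : ∀ p : Fin n → Fin 2 → ℂ, F.map (eval (fun q : Fin n × Fin 2 => p q.1 q.2)) =
      condMat (d + 1) m p := by
    intro p
    rw [hF, condMat_map]
    simp
  have hc : ∀ p : Fin n → Fin 2 → ℂ, (eval (fun q : Fin n × Fin 2 => p q.1 q.2)).comp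
      (C : ℂ →+* MvPolynomial (Fin n × Fin 2) ℂ) = RingHom.id ℂ := by
    intro p
    ext r
    simp
  obtain ⟨g, hg0, hgg⟩ := exists_detpoly (C : ℂ →+* MvPolynomial (Fin n × Fin 2) ℂ) F
    (eval (fun q : Fin n × Fin 2 => ((p0 q.1 q.2 : ℝ) : ℂ)))
    (hc (fun i j => ((p0 i j : ℝ) : ℂ)))
    (by
      have := hFe (fun i j => ((p0 i j : ℝ) : ℂ))
      rw [this]; exact hC)
  refine ⟨g, ?_, ?_⟩
  · rintro rfl
    simp at hg0
  · intro p hp
    have h1 : Good (condMat (d + 1) m p) := by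
      rw [← hFe p]
      exact hgg _ (hc p) hp
    have h2 := h1.finrank_eq
    have h3 := finrank_system ℂ d m p
    have h4 : Module.finrank ℂ ↥(MvPolynomial.restrictTotalDegree (Fin 2) ℂ d ⊓
                ⨅ i : Fin n, Submodule.restrictScalars ℂ
                  ((RingHom.ker (MvPolynomial.eval (p i)) :
                      Ideal (MvPolynomial (Fin 2) ℂ)) ^ m i)) =
        Fintype.card ↥(tri (d + 1)) - Fintype.card (Σ i : Fin n, ↥(tri (m i))) := by
      rw [← h2, ← h3]; rfl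
    rw [h4]
    have h5 : ((2 * Fintype.card ↥(tri (d + 1)) : ℕ) : ℤ) = ((d : ℤ) + 1) * ((d : ℤ) + 2) := by
      rw [Fintype.card_coe, two_card_tri]
      push_cast; ring
    have h6 : ((2 * Fintype.card (Σ i : Fin n, ↥(tri (m i))) : ℕ) : ℤ) =
        ∑ i, (m i : ℤ) * ((m i : ℤ) + 1) := by
      rw [Fintype.card_sigma, Finset.mul_sum]
      push_cast
      refine Finset.sum_congr rfl fun i _ => ?_
      have := two_card_tri (m i)
      rw [Fintype.card_coe]
      exact_mod_cast this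
    rw [← h5, ← h6]
    push_cast
    omega

end Pool.MP_70e04f_ag
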