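import Pool.Agent.Lib_MP_70e04f_ag.CasesG

/-!
The case of multiplicities `0` and `1`, and the final statement.
-/

open MvPolynomial

namespace Pool.MP_70e04f_ag

/-- Multiplicities `0` and `1` at any number of points. -/
theorem main_zero (n d : ℕ) (m : Fin n → ℕ) (hm : ∀ i, m i = 0 ∨ m i = 0 + 1) :
    ∃ g : MvPolynomial (Fin n × Fin 2) ℂ, g ≠ 0 ∧
      ∀ p : Fin n → Fin 2 → ℂ,
        MvPolynomial.eval (fun q : Fin n × Fin 2 => p q.1 q.2) g ≠ 0 →
          ((2 : ℤ) * ((Module.finrank ℂ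
              ↥(MvPolynomial.restrictTotalDegree (Fin 2) ℂ d ⊓
                ⨅ i : Fin n, Submodule.restrictScalars ℂ
                  ((RingHom.ker (MvPolynomial.eval (p i)) :
                      Ideal (MvPolynomial (Fin 2) ℂ)) ^ m i)) : ℕ) : ℤ)
            = max 0 (((d : ℤ) + 1) * ((d : ℤ) + 2) - ∑ i, (m i : ℤ) * ((m i : ℤ) + 1))) := by
  apply generic_of_real
  have hc := prof0 m 0 hm
  have hc0 : ∀ j, 0 < j → ∑ i, (m i - j) = 0 := by
    intro j hj
    apply Finset.sum_eq_zero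
    intro i _
    rcases hm i with h | h <;> omega
  have hn0 : ∀ j, 0 < j → nrow (d + 1) (d + 1) j = 0 := by
    intro j hj
    rw [nrow, Finset.card_eq_zero, Finset.filter_eq_empty_iff]
    intro q hq h
    rw [mem_tri] at hq
    have : q.1 / (d + 1) = 0 := Nat.div_eq_of_lt (by omega)
    omega
  have hgood : (∀ j, nrow (d + 1) (d + 1) j ≤ ∑ i, (m i - j)) ∨
      (∀ j, ∑ i, (m i - j) ≤ nrow (d + 1) (d + 1) j) := by
    rcases Nat.le_total (nrow (d + 1) (d + 1) 0) (∑ i, (m i - 0)) with h | h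
    · left
      intro j
      rcases Nat.eq_zero_or_pos j with rfl | hj
      · exact h
      · rw [hn0 j hj]; exact Nat.zero_le _
    · right
      intro j
      rcases Nat.eq_zero_or_pos j with rfl | hj
      · exact h
      · rw [hc0 j hj]; exact Nat.zero_le _
  obtain ⟨u, hu⟩ := hc.good (d + 1) (d + 1) (Nat.succ_pos d) hgood
  exact real_of_good (d + 1) (d + 1) m (Nat.succ_pos d) xpos u hu

/-- The expected dimension for multiplicities `M`, `M + 1` at `k ^ 2 + 2 R` general points. -/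
theorem mainG' (n k R M d : ℕ) (hk : 0 < k) (hn : n = k ^ 2 + 2 * R)
    (hR : R ≤ 2 * k + 1) (m : Fin n → ℕ) (hm : ∀ i, m i = M ∨ m i = M + 1)
    (hχ : ∑ i, m i * (m i + 1) ≤ k * (M + 2) * (k * (M + 2) + 1)) :
    ∃ g : MvPolynomial (Fin n × Fin 2) ℂ, g ≠ 0 ∧
      ∀ p : Fin n → Fin 2 → ℂ,
        MvPolynomial.eval (fun q : Fin n × Fin 2 => p q.1 q.2) g ≠ 0 →
          ((2 : ℤ) * ((Module.finrank ℂ
              ↥(MvPolynomial.restrictTotalDegree (Fin 2) ℂ d ⊓
                ⨅ i : Fin n, Submodule.restrictScalars ℂ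
                  ((RingHom.ker (MvPolynomial.eval (p i)) :
                      Ideal (MvPolynomial (Fin 2) ℂ)) ^ m i)) : ℕ) : ℤ)
            = max 0 (((d : ℤ) + 1) * ((d : ℤ) + 2) - ∑ i, (m i : ℤ) * ((m i : ℤ) + 1))) := by
  rcases Nat.eq_zero_or_pos M with rfl | hM
  · exact main_zero n d m hm
  · exact mainG n k R M d hk hM hn hR m hm hχ

end Pool.MP_70e04f_ag
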