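import Pool.Agent.Lib_MP_70e04f_ag.General

/-!
The patterns of the front: a point of multiplicity `μ` whose order on the rows is
`b, b - 1, ..., c, b + 1, c - 1, ..., 0, b + 2, b + 3, ...`.
-/

namespace Pool.MP_70e04f_ag

/-- The number of conditions on row `j` of a point of multiplicity `μ` at the front position
`(b, c)`. -/
def vp (μ b c j : ℕ) : ℕ :=
  if j ≤ b then μ + j - (b + if j < c then 1 else 0) else if j = b + 1 then μ + c - j else μ - j

lemma vp_le_iff {μ b c j : ℕ} (h : j ≤ b) : vp μ b c j = μ + j - (b + if j < c then 1 else 0) := by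
  unfold vp; rw [if_pos h]

lemma vp_succ (μ b c : ℕ) : vp μ b c (b + 1) = μ + c - (b + 1) := by
  unfold vp; rw [if_neg (by omega), if_pos rfl]

lemma vp_gt {μ b c j : ℕ} (h : b + 2 ≤ j) : vp μ b c j = μ - j := by
  unfold vp; rw [if_neg (by omega), if_neg (by omega)]

lemma vp_mono {μ b c j : ℕ} (h : j + 1 ≤ b) : vp μ b c j ≤ vp μ b c (j + 1) := by
  rw [vp_le_iff h, vp_le_iff (by omega)]
  split_ifs <;> omega

/-- The pattern is a permutation of `μ, μ - 1, ..., 1`. -/
lemma patOK_vp (μ b c : ℕ) (hc : c ≤ b + 1) : PatOK μ (vp μ b c) := by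
  intro l F hF
  have h1 : ∀ j ∈ F, vp μ b c j ∈ Finset.Ioc l μ := by
    intro j hj
    rw [Finset.mem_Ioc]
    refine ⟨hF j hj, ?_⟩
    unfold vp
    split_ifs <;> omega
  have h2 : Set.InjOn (vp μ b c) (F : Set ℕ) := by
    intro i hi j hj hij
    have hi' := hF i hi
    have hj' := hF j hj
    unfold vp at hij hi' hj'
    split_ifs at hij hi' hj' <;> omega
  have h3 := Finset.card_le_card_of_injOn (vp μ b c) h1 h2
  rwa [Nat.card_Ioc] at h3

/-- Moving across a wall. -/
lemma sum_vp_step (μ b c L : ℕ) (hc : c ≤ b) (hL : b + 2 ≤ L) :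
    ∑ j ∈ Finset.range L, vp μ b (c + 1) j = ∑ j ∈ Finset.range L, vp μ b c j := by
  have key : ∀ j ∈ Finset.range L,
      vp μ b (c + 1) j + (if j = c then (if b + 1 ≤ μ + c then 1 else 0) else 0) =
      vp μ b c j + (if j = b + 1 then (if b + 1 ≤ μ + c then 1 else 0) else 0) := by
    intro j _
    unfold vp
    split_ifs <;> omega
  have h := Finset.sum_congr rfl key
  rw [Finset.sum_add_distrib, Finset.sum_add_distrib, Finset.sum_ite_eq', Finset.sum_ite_eq',
    if_pos (Finset.mem_range.2 (by omega)), if_pos (Finset.mem_range.2 (by omega))] at h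
  omega

lemma vp_roll (μ b j : ℕ) : vp μ b (b + 1) j = vp μ (b + 1) 0 j := by
  unfold vp
  split_ifs <;> omega

lemma sum_vp (μ b c L : ℕ) (hc : c ≤ b + 1) (hb : b + 2 ≤ L) (hμ : μ ≤ L) :
    2 * ∑ j ∈ Finset.range L, vp μ b c j = μ * (μ + 1) := by
  have h1 : ∀ b c, c ≤ b + 1 → b + 2 ≤ L → ∑ j ∈ Finset.range L, vp μ b c j =
      ∑ j ∈ Finset.range L, vp μ b 0 j := by
    intro b c
    induction c with
    | zero => intro _ _; rfl
    | succ c ih =>
      intro hc hb
      rw [sum_vp_step μ b c L (by omega) hb, ih (by omega) hb]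
  have h2 : ∀ b, b + 2 ≤ L → ∑ j ∈ Finset.range L, vp μ b 0 j =
      ∑ j ∈ Finset.range L, (μ - j) := by
    intro b
    induction b with
    | zero =>
      intro _
      refine Finset.sum_congr rfl fun j _ => ?_
      unfold vp
      split_ifs <;> omega
    | succ b ih =>
      intro hb
      rw [← ih (by omega), ← h1 b (b + 1) le_rfl (by omega)]
      refine Finset.sum_congr rfl fun j _ => ?_
      rw [vp_roll]
  rw [h1 b c hc hb, h2 b hb]
  exact sum_sub_range μ L hμ

end Pool.MP_70e04f_ag
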