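import Pool.Agent.Lib_MP_70e04f_ag.General

/-!
Certificates by potentials: the row `j` carries a real potential `w j`, the point `i` a real slope
`s i`, and the conditions imposed by the point `i` on the rows are sorted by `s i * j - w j`.
-/

namespace Pool.MP_70e04f_ag

open Polynomial Filter Topology

/-- The coefficients in `F` are determined by the others. -/
lemma exists_interp (N r : ℕ) (F : Finset ℕ) (hF : F.card ≤ r) (j0 : ℕ) :
    ∃ g : ℕ → ℝ, ∀ q : ℝ[X], (X - C (1 : ℝ)) ^ r ∣ q → (∀ j, N ≤ j → q.coeff j = 0) →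
      q.coeff j0 = ∑ j ∈ Finset.range N \ F, g j * q.coeff j := by
  classical
  let K : Submodule ℝ ℝ[X] :=
    (Ideal.span {(X - C (1 : ℝ)) ^ r}).restrictScalars ℝ ⊓ degreeLT ℝ N
  have hK : ∀ q : ℝ[X], q ∈ K ↔ (X - C (1 : ℝ)) ^ r ∣ q ∧ ∀ j, N ≤ j → q.coeff j = 0 := by
    intro q
    rw [Submodule.mem_inf, Submodule.restrictScalars_mem, Ideal.mem_span_singleton,
      Polynomial.mem_degreeLT, Polynomial.degree_lt_iff_coeff_zero]
  let L : ↥(Finset.range N \ F) → K →ₗ[ℝ] ℝ := fun j => (lcoeff ℝ j.1).comp K.subtype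
  let L0 : K →ₗ[ℝ] ℝ := (lcoeff ℝ j0).comp K.subtype
  have hker : ⨅ i, LinearMap.ker (L i) ≤ LinearMap.ker L0 := by
    intro q hq
    rw [Submodule.mem_iInf] at hq
    have hq' := (hK q.1).1 q.2
    have h0 : q.1 = 0 := by
      apply descartes q.1 (Finset.univ : Finset Unit) (fun _ => (1 : ℝ)) (fun _ => r)
      · intro _ _; norm_num
      · intro a _ b _ _; rfl
      · intro _ _; exact hq'.1
      · simp only [Finset.univ_unique, Finset.sum_const, Finset.card_singleton, one_smul]
        refine le_trans (Finset.card_le_card ?_) hF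
        intro j hj
        by_contra hjF
        rw [Polynomial.mem_support_iff] at hj
        apply hj
        by_cases hjN : j < N
        · exact hq ⟨j, Finset.mem_sdiff.2 ⟨Finset.mem_range.2 hjN, hjF⟩⟩
        · exact hq'.2 j (by omega)
    rw [LinearMap.mem_ker]
    change q.1.coeff j0 = 0
    rw [h0, coeff_zero]
  have hmem := mem_span_of_iInf_ker_le_ker hker
  rw [Submodule.mem_span_range_iff_exists_fun] at hmem
  obtain ⟨c, hc⟩ := hmem
  refine ⟨fun j => if h : j ∈ Finset.range N \ F then c ⟨j, h⟩ else 0, ?_⟩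
  intro q h1 h2
  have h3 := LinearMap.congr_fun hc ⟨q, (hK q).2 ⟨h1, h2⟩⟩
  rw [LinearMap.sum_apply] at h3
  have h4 : L0 ⟨q, (hK q).2 ⟨h1, h2⟩⟩ = q.coeff j0 := rfl
  rw [← h4, ← h3, ← Finset.sum_coe_sort (Finset.range N \ F)]
  refine Finset.sum_congr rfl fun j _ => ?_
  change _ = (if h : j.1 ∈ Finset.range N \ F then c ⟨j.1, h⟩ else 0) * _
  rw [dif_pos j.2]
  rfl

section
variable (k N : ℕ)

/-- The vanishing conditions in terms of one polynomial for each order in `x`. -/
lemma off_dvd (m : ℕ) (x : ℝ) (v : ↥(tri N) → ℝ) (hv : v ∈ offSub k N m x 1) (al : ℕ) :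
    (X - C (1 : ℝ)) ^ (m - al) ∣
      ∑ j ∈ Finset.range N, C ((taylor x (rowPoly k N v j)).coeff al) * X ^ j := by
  rw [Polynomial.X_sub_C_pow_dvd_iff, Polynomial.X_pow_dvd_iff]
  intro d hd
  rw [Polynomial.sum_comp, Polynomial.finsetSum_coeff]
  have h := hv al d (by omega)
  rw [← h]
  refine Finset.sum_congr rfl fun j _ => ?_
  simp only [mul_comp, C_comp, pow_comp, X_comp, coeff_C_mul]

/-- The limit argument. -/
theorem pot_pos {n : ℕ} (hk : 0 < k) (m : Fin n → ℕ) (V : Fin n → ℕ → ℕ) (w : ℕ → ℝ)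
    (s : Fin n → ℝ) (hV : ∀ i, PatOK (m i) (V i))
    (hθ : ∀ i j0 j, j0 < N → j < N → V i j < V i j0 → s i * j - w j < s i * j0 - w j0)
    (t : ℕ → ℕ) (hcap : ∀ j, nrow k N j ≤ (∑ i, V i j) + t j) :
    ∃ u : Fin n → ℝ, ∀ v : ↥(tri N) → ℝ, (∀ j, (X - C (1 : ℝ)) ^ (t j) ∣ rowPoly k N v j) →
      (∀ i, v ∈ offSub k N (m i) (xpos i) (u i)) → ∀ j, rowPoly k N v j = 0 := by
  classical
  by_contra hcon
  push Not at hcon
  have hpos : ∀ p : ℕ, (0 : ℝ) < ((p : ℝ) + 1) := fun p => by positivity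
  have h1 : ∀ p : ℕ, ∃ z : ↥(tri N) → ℝ, ‖z‖ = 1 ∧
      (∀ j, (X - C (1 : ℝ)) ^ (t j) ∣ rowPoly k N z j) ∧
      ∀ i, sc k N (fun j => ((p : ℝ) + 1) ^ (s i * j - w j)) z ∈ offSub k N (m i) (xpos i) 1 := by
    intro p
    obtain ⟨v, hv1, hv2, j, hj⟩ := hcon (fun i => ((p : ℝ) + 1) ^ (s i))
    set v' := sc k N (fun j => ((p : ℝ) + 1) ^ (w j)) v with hv'
    have hv0 : v' ≠ 0 := by
      intro h0
      apply hj
      have h2 := rowPoly_sc k N (fun j => ((p : ℝ) + 1) ^ (w j)) v j
      rw [← hv', h0] at h2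
      have h3 : rowPoly k N (0 : ↥(tri N) → ℝ) j = 0 := by
        rw [← rowLin_apply, map_zero]
      rw [h3] at h2
      rcases mul_eq_zero.1 h2.symm with h4 | h4
      · rw [C_eq_zero] at h4
        exact absurd h4 (Real.rpow_pos_of_pos (hpos p) _).ne'
      · exact h4
    refine ⟨‖v'‖⁻¹ • v', ?_, ?_, ?_⟩
    · rw [norm_smul, norm_inv, norm_norm, inv_mul_cancel₀ (norm_ne_zero_iff.2 hv0)]
    · intro j
      rw [← mem_divSub]
      apply Submodule.smul_mem
      rw [mem_divSub, hv', rowPoly_sc]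
      exact (hv1 j).mul_left _
    · intro i
      have h2 : sc k N (fun j => ((p : ℝ) + 1) ^ (s i * j - w j)) (‖v'‖⁻¹ • v') =
          sc k N (fun j => ‖v'‖⁻¹ * (((p : ℝ) + 1) ^ (s i)) ^ j) v := by
        funext q
        simp only [sc, Pi.smul_apply, smul_eq_mul, hv']
        rw [← Real.rpow_natCast, ← Real.rpow_mul (hpos p).le, Real.rpow_sub (hpos p)]
        have := (Real.rpow_pos_of_pos (hpos p) (w (q.1.1 / k))).ne'
        field_simp
      rw [h2]
      exact sc_mem_offSub k N (m i) (xpos i) (((p : ℝ) + 1) ^ (s i)) ‖v'‖⁻¹ v _ (fun j => rfl)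
        (hv2 i)
  choose z hz1 hz2 hz3 using h1
  obtain ⟨a, ha, φ, hφ, hlim⟩ := (isCompact_sphere (0 : ↥(tri N) → ℝ) 1).tendsto_subseq
    (x := z) (fun p => by rw [mem_sphere_zero_iff_norm]; exact hz1 p)
  have ha0 : a ≠ 0 := by
    rintro rfl
    rw [mem_sphere_zero_iff_norm, norm_zero] at ha
    exact zero_ne_one ha
  apply ha0
  have hat : ∀ j, (X - C (1 : ℝ)) ^ (t j) ∣ rowPoly k N a j := by
    intro j
    rw [← mem_divSub]
    have hc : IsClosed (divSub k N 1 (t j) j : Set (↥(tri N) → ℝ)) :=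
      Submodule.closed_of_finiteDimensional _
    exact hc.mem_of_tendsto hlim
      (Eventually.of_forall fun p => (mem_divSub k N 1 (t j) j _).2 (hz2 (φ p) j))
  have hlam : Tendsto (fun p : ℕ => (((φ p : ℕ) : ℝ) + 1)) atTop atTop :=
    (tendsto_atTop_add_const_right _ _ tendsto_natCast_atTop_atTop).comp hφ.tendsto_atTop
  have hcoef : ∀ (x : ℝ) (j al : ℕ), Tendsto
      (fun p => (taylor x (rowPoly k N (z (φ p)) j)).coeff al) atTop
      (𝓝 ((taylor x (rowPoly k N a j)).coeff al)) := by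
    intro x j al
    simp only [taylor_rowPoly]
    apply tendsto_finsetSum
    intro q _
    split_ifs
    · exact ((tendsto_pi_nhds.1 hlim) q).mul_const _
    · exact tendsto_const_nhds
  have hdiv : ∀ i j0, (X - C (xpos i)) ^ (V i j0) ∣ rowPoly k N a j0 := by
    intro i j0
    by_cases hj0 : j0 < N
    swap
    · rw [rowPoly_eq_zero k N a j0 (by omega)]; exact dvd_zero _
    rw [pow_dvd_iff_taylor]
    intro al hal
    obtain ⟨g, hg⟩ := exists_interp N (m i - al) ((Finset.range N).filter (fun j => al < V i j))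
      (hV i al _ (fun j hj => (Finset.mem_filter.1 hj).2)) j0
    have h2 : ∀ p, (taylor (xpos i) (rowPoly k N (z (φ p)) j0)).coeff al =
        ∑ j ∈ Finset.range N \ (Finset.range N).filter (fun j => al < V i j),
          g j * ((taylor (xpos i) (rowPoly k N (z (φ p)) j)).coeff al *
            ((((φ p : ℕ) : ℝ) + 1) ^ (-((s i * j0 - w j0) - (s i * j - w j))))) := by
      intro p
      have h3 := off_dvd k N (m i) (xpos i) _ (hz3 (φ p) i) al
      have h4 := hg _ h3 (by
        intro j hj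
        rw [Polynomial.finsetSum_coeff]
        apply Finset.sum_eq_zero
        intro r hr
        rw [Finset.mem_range] at hr
        rw [coeff_C_mul, coeff_X_pow, if_neg (by omega), mul_zero])
      have h5 : ∀ j < N, (∑ r ∈ Finset.range N, C ((taylor (xpos i) (rowPoly k N
          (sc k N (fun j => (((φ p : ℕ) : ℝ) + 1) ^ (s i * j - w j)) (z (φ p))) r)).coeff al) *
            X ^ r : ℝ[X]).coeff j = (((φ p : ℕ) : ℝ) + 1) ^ (s i * j - w j) *
            (taylor (xpos i) (rowPoly k N (z (φ p)) j)).coeff al := by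
        intro j hj
        rw [Polynomial.finsetSum_coeff]
        simp only [coeff_C_mul, coeff_X_pow, mul_ite, mul_one, mul_zero]
        rw [Finset.sum_ite_eq, if_pos (Finset.mem_range.2 hj), rowPoly_sc, taylor_mul, taylor_C,
          coeff_C_mul]
      rw [h5 j0 hj0] at h4
      have h6 := (Real.rpow_pos_of_pos (hpos (φ p)) (s i * j0 - w j0)).ne'
      have h7 : (taylor (xpos i) (rowPoly k N (z (φ p)) j0)).coeff al =
          ((((φ p : ℕ) : ℝ) + 1) ^ (s i * j0 - w j0))⁻¹ *
          ∑ j ∈ Finset.range N \ (Finset.range N).filter (fun j => al < V i j),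
            g j * (∑ r ∈ Finset.range N, C ((taylor (xpos i) (rowPoly k N
          (sc k N (fun j => (((φ p : ℕ) : ℝ) + 1) ^ (s i * j - w j)) (z (φ p))) r)).coeff al) *
            X ^ r : ℝ[X]).coeff j := by
        rw [← h4, ← mul_assoc, inv_mul_cancel₀ h6, one_mul]
      rw [h7, Finset.mul_sum]
      refine Finset.sum_congr rfl fun j hj => ?_
      rw [Finset.mem_sdiff, Finset.mem_range] at hj
      rw [h5 j hj.1, neg_sub, Real.rpow_sub (hpos (φ p)) (s i * j - w j) (s i * j0 - w j0)]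
      field_simp
    have h3 : Tendsto (fun p => ∑ j ∈ Finset.range N \ (Finset.range N).filter
        (fun j => al < V i j), g j * ((taylor (xpos i) (rowPoly k N (z (φ p)) j)).coeff al *
            ((((φ p : ℕ) : ℝ) + 1) ^ (-((s i * j0 - w j0) - (s i * j - w j)))))) atTop
        (𝓝 (∑ j ∈ Finset.range N \ (Finset.range N).filter (fun j => al < V i j),
          g j * ((taylor (xpos i) (rowPoly k N a j)).coeff al * 0))) := by
      apply tendsto_finsetSum
      intro j hj
      rw [Finset.mem_sdiff, Finset.mem_range, Finset.mem_filter, Finset.mem_range, not_and,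
        not_lt] at hj
      refine ((hcoef (xpos i) j al).mul ?_).const_mul _
      have h4 := hθ i j0 j hj0 hj.1 (lt_of_le_of_lt (hj.2 hj.1) hal)
      exact (tendsto_rpow_neg_atTop (by linarith)).comp hlam
    simp only [mul_zero, Finset.sum_const_zero] at h3
    exact tendsto_nhds_unique ((hcoef (xpos i) j0 al).congr fun p => h2 p) h3
  have hzero : ∀ j, rowPoly k N a j = 0 := by
    intro j
    exact row_zero' k N V t a j Finset.univ (fun i => V i j) (fun i _ => hdiv i j) (hat j)
      (hcap j)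
  funext q
  rw [← coeff_rowPoly k N hk a q, hzero]
  simp

end

end Pool.MP_70e04f_ag
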