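import Pool.Agent.Lib_MP_70e04f_ag.Front
import Pool.Agent.Lib_MP_70e04f_ag.Pot

/-!
The front patterns come from the potentials `w j = B ^ j`.
-/

namespace Pool.MP_70e04f_ag

/-- The order of the rows. -/
lemma front_order (N μ b c : ℕ) (hc : c ≤ b + 1) (hb : b ≤ N) (j0 j : ℕ) (hj0 : j0 < N)
    (hj : j < N) (h : vp μ b c j < vp μ b c j0) :
    (2 * (N : ℝ) + 4) ^ (b + 1) / ((b : ℝ) + 3 / 2 - c) * j - (2 * (N : ℝ) + 4) ^ j <
      (2 * (N : ℝ) + 4) ^ (b + 1) / ((b : ℝ) + 3 / 2 - c) * j0 - (2 * (N : ℝ) + 4) ^ j0 := by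
  set B : ℝ := 2 * (N : ℝ) + 4 with hB
  set d : ℝ := (b : ℝ) + 3 / 2 - c with hd
  set s : ℝ := B ^ (b + 1) / d with hs
  have hN0 : (0 : ℝ) ≤ N := Nat.cast_nonneg N
  have hB0 : 0 < B := by rw [hB]; linarith
  have hB1 : 1 ≤ B := by rw [hB]; linarith
  have hc' : (c : ℝ) ≤ b + 1 := by exact_mod_cast hc
  have hc0 : (0 : ℝ) ≤ c := Nat.cast_nonneg c
  have hb' : (b : ℝ) ≤ N := by exact_mod_cast hb
  have hd0 : 1 / 2 ≤ d := by rw [hd]; linarith
  have hdp : 0 < d := by linarith
  have hdN : d ≤ N + 3 / 2 := by rw [hd]; linarith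
  have hP : 0 < B ^ b := pow_pos hB0 b
  have hPB : B ^ (b + 1) = B * B ^ b := pow_succ' B b
  have hsd : s * d = B ^ (b + 1) := by rw [hs]; field_simp
  have hs0 : 0 < s := by rw [hs]; positivity
  have hs1 : B ^ b < s := by
    rw [hs, lt_div_iff₀ hdp, hPB]
    nlinarith
  have hs2 : s ≤ 2 * B ^ (b + 1) := by
    rw [← hsd]; nlinarith
  have hmono : ∀ i i' : ℕ, i ≤ i' → B ^ i ≤ B ^ i' := fun i i' h => pow_le_pow_right₀ hB1 h
  -- rows up to `b`
  have c1 : ∀ i i' : ℕ, i < i' → i' ≤ b → s * i - B ^ i < s * i' - B ^ i' := by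
    intro i i' h1 h2
    have h3 : (i : ℝ) + 1 ≤ i' := by exact_mod_cast h1
    have h4 := hmono i' b h2
    have h5 : 0 < B ^ i := pow_pos hB0 i
    nlinarith
  -- the row `b + 1` below the rows from `c` on
  have c2 : ∀ i : ℕ, c ≤ i → i ≤ b → s * ((b + 1 : ℕ) : ℝ) - B ^ (b + 1) < s * i - B ^ i := by
    intro i h1 h2
    have h3 : (c : ℝ) ≤ i := by exact_mod_cast h1
    have h4 := hmono i b h2
    push_cast
    have h5 : s * ((b : ℝ) + 1 - i) ≤ s * (d - 1 / 2) := by
      apply mul_le_mul_of_nonneg_left _ hs0.le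
      rw [hd]; linarith
    have h6 : s * (d - 1 / 2) = B ^ (b + 1) - s / 2 := by rw [← hsd]; ring
    have h7 : B ^ b < s / 2 := by
      rw [hs, div_div, lt_div_iff₀ (by positivity), hPB]
      nlinarith
    nlinarith
  -- the row `b + 1` above the rows before `c`
  have c3 : ∀ i : ℕ, i < c → s * i - B ^ i < s * ((b + 1 : ℕ) : ℝ) - B ^ (b + 1) := by
    intro i h1
    have h3 : (i : ℝ) + 1 ≤ c := by exact_mod_cast h1
    have h5 : 0 < B ^ i := pow_pos hB0 i
    push_cast
    have h6 : s * (d + 1 / 2) ≤ s * ((b : ℝ) + 1 - i) := by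
      apply mul_le_mul_of_nonneg_left _ hs0.le
      rw [hd]; linarith
    have h7 : s * (d + 1 / 2) = B ^ (b + 1) + s / 2 := by rw [← hsd]; ring
    nlinarith
  -- the rows above `b + 1`
  have c4 : ∀ i i' : ℕ, i < i' → b + 2 ≤ i' → i' < N → s * i' - B ^ i' < s * i - B ^ i := by
    intro i i' h1 h2 h3
    obtain ⟨p, rfl⟩ : ∃ p, i' = p + 1 := ⟨i' - 1, by omega⟩
    have h4 := hmono (b + 1) p (by omega)
    have h5 := hmono i p (by omega)
    have h6 : (i : ℝ) ≥ 0 := Nat.cast_nonneg i
    have h7 : ((p + 1 : ℕ) : ℝ) ≤ N := by exact_mod_cast h3.le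
    have h8 : B ^ (p + 1) = B * B ^ p := pow_succ' B p
    have h9 : s * (((p + 1 : ℕ) : ℝ) - i) ≤ 2 * B ^ (b + 1) * N := by
      have h10 : ((p + 1 : ℕ) : ℝ) - i ≤ N := by linarith
      calc s * (((p + 1 : ℕ) : ℝ) - i) ≤ s * N := mul_le_mul_of_nonneg_left h10 hs0.le
        _ ≤ 2 * B ^ (b + 1) * N := mul_le_mul_of_nonneg_right hs2 hN0
    have h11 : 0 < B ^ p := pow_pos hB0 p
    have h12 : 2 * B ^ (b + 1) * N ≤ 2 * B ^ p * N := by
      apply mul_le_mul_of_nonneg_right _ hN0
      linarith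
    rw [h8]
    nlinarith
  unfold vp at h
  rcases Nat.lt_or_ge j0 (b + 1) with h0 | h0
  · rw [if_pos (show j0 ≤ b by omega)] at h
    rcases Nat.lt_or_ge j (b + 1) with h1 | h1
    · rw [if_pos (show j ≤ b by omega)] at h
      apply c1 j j0 _ (by omega)
      split_ifs at h <;> omega
    · rw [if_neg (show ¬ j ≤ b by omega)] at h
      rcases Nat.eq_or_lt_of_le h1 with h2 | h2
      · subst h2
        rw [if_pos rfl] at h
        apply c2 j0 _ (by omega)
        split_ifs at h <;> omega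
      · exact c4 j0 j (by omega) (by omega) hj
  · rw [if_neg (show ¬ j0 ≤ b by omega)] at h
    rcases Nat.eq_or_lt_of_le h0 with h1 | h1
    · subst h1
      rw [if_pos rfl] at h
      rcases Nat.lt_or_ge j (b + 1) with h2 | h2
      · rw [if_pos (show j ≤ b by omega)] at h
        apply c3
        split_ifs at h <;> omega
      · rw [if_neg (show ¬ j ≤ b by omega)] at h
        rcases Nat.eq_or_lt_of_le h2 with h3 | h3
        · exfalso
          rw [if_pos h3.symm] at h
          omega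
        · exact c4 (b + 1) j (by omega) (by omega) hj
    · rw [if_neg (show ¬ j0 = b + 1 by omega)] at h
      rcases Nat.lt_or_ge j (b + 1) with h2 | h2
      · exfalso
        rw [if_pos (show j ≤ b by omega)] at h
        split_ifs at h <;> omega
      · rw [if_neg (show ¬ j ≤ b by omega)] at h
        rcases Nat.eq_or_lt_of_le h2 with h3 | h3
        · exfalso
          rw [if_pos h3.symm] at h
          omega
        · rw [if_neg (show ¬ j = b + 1 by omega)] at h
          exact c4 j0 j (by omega) (by omega) hj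

section
open Polynomial

/-- The dimension bound given by front positions. -/
theorem finrank_of_front {n : ℕ} (k N : ℕ) (hk : 0 < k) (m b c : Fin n → ℕ)
    (hc : ∀ i, c i ≤ b i + 1) (hb : ∀ i, b i ≤ N) (t : ℕ → ℕ)
    (hcap : ∀ j, nrow k N j ≤ (∑ i, vp (m i) (b i) (c i) j) + t j) :
    ∃ u : Fin n → ℝ, Module.finrank ℝ (LinearMap.ker (degMat k N m xpos u 0).mulVecLin) ≤
      ∑ j ∈ Finset.range N, t j := by
  classical
  obtain ⟨u, hu⟩ := pot_pos k N hk m (fun i => vp (m i) (b i) (c i))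
    (fun j => (2 * (N : ℝ) + 4) ^ j)
    (fun i => (2 * (N : ℝ) + 4) ^ (b i + 1) / ((b i : ℝ) + 3 / 2 - c i))
    (fun i => patOK_vp (m i) (b i) (c i) (hc i))
    (fun i j0 j hj0 hj h => front_order N (m i) (b i) (c i) (hc i) (hb i) j0 j hj0 hj h) t hcap
  refine ⟨u, ?_⟩
  let θ : (↥(tri N) → ℝ) →ₗ[ℝ] ((Σ j : Fin N, Fin (t j)) → ℝ) :=
    { toFun := fun v c => (taylor 1 (rowPoly k N v c.1)).coeff c.2
      map_add' := by
        intro v w
        funext c
        simp only [taylor_rowPoly, Pi.add_apply]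
        rw [← Finset.sum_add_distrib]
        refine Finset.sum_congr rfl fun q _ => ?_
        split_ifs <;> ring
      map_smul' := by
        intro a v
        funext c
        simp only [taylor_rowPoly, Pi.smul_apply, smul_eq_mul, RingHom.id_apply, Finset.mul_sum]
        refine Finset.sum_congr rfl fun q _ => ?_
        split_ifs <;> ring }
  have hcard : Fintype.card (Σ j : Fin N, Fin (t j)) = ∑ j ∈ Finset.range N, t j := by
    rw [Fintype.card_sigma, Finset.sum_range]
    simp
  rw [← hcard]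
  apply finrank_ker_le _ θ
  intro v hv hθ
  have hT : ∀ j, rowPoly k N v j = 0 := by
    apply hu v
    · intro j
      rw [pow_dvd_iff_taylor]
      intro d hd
      by_cases hj : j < N
      · exact congrFun hθ ⟨⟨j, hj⟩, ⟨d, hd⟩⟩
      · rw [rowPoly_eq_zero k N v j (by omega)]; simp
    · intro i al be hab
      have hc := congrFun hv ⟨i, ⟨(al, be), mem_tri.2 hab⟩⟩
      rw [degMat_zero_mulVec] at hc
      exact hc
  funext q
  rw [← coeff_rowPoly k N hk v q, hT]
  simp

lemma nrow_eq_zero (k N j : ℕ) (hk : 0 < k) (hj : N ≤ k * j) : nrow k N j = 0 := by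
  rw [nrow_eq k N j hk]
  have h2 : N - k * j = 0 := by omega
  rw [h2]
  have := S_small k 0 (Nat.zero_le _)
  omega

/-- The front certificate for emptiness and independence. -/
theorem good_of_front {n : ℕ} (k N : ℕ) (hk : 0 < k) (m b c : Fin n → ℕ)
    (hc : ∀ i, c i ≤ b i + 1) (hb : ∀ i, b i ≤ N)
    (hcap : (∀ j, nrow k N j ≤ ∑ i, vp (m i) (b i) (c i) j) ∨
      (∀ j, ∑ i, vp (m i) (b i) (c i) j ≤ nrow k N j)) :
    ∃ u : Fin n → ℝ, Good (degMat k N m xpos u 0) := by
  rcases hcap with hcap | hcap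
  · obtain ⟨u, hu⟩ := finrank_of_front k N hk m b c hc hb (fun _ => 0) hcap
    refine ⟨u, ?_⟩
    unfold Good
    rw [Finset.sum_const_zero] at hu
    omega
  · obtain ⟨u, hu⟩ := finrank_of_front k N hk m b c hc hb
      (fun j => nrow k N j - ∑ i, vp (m i) (b i) (c i) j) (fun j => by have := hcap j; omega)
    refine ⟨u, ?_⟩
    have h1 : ∑ j ∈ Finset.range N, (nrow k N j - ∑ i, vp (m i) (b i) (c i) j) +
        ∑ j ∈ Finset.range N, ∑ i, vp (m i) (b i) (c i) j = (tri N).card := by
      rw [← sum_nrow k, ← Finset.sum_add_distrib]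
      refine Finset.sum_congr rfl fun j _ => ?_
      have := hcap j
      omega
    have h0 : ∀ j, N ≤ j → nrow k N j = 0 := by
      intro j hj
      apply nrow_eq_zero k N j hk
      have := Nat.le_mul_of_pos_left j hk
      omega
    have h2 : ∑ j ∈ Finset.range N, ∑ i, vp (m i) (b i) (c i) j =
        Fintype.card (Σ i : Fin n, ↥(tri (m i))) := by
      rw [Finset.sum_comm, Fintype.card_sigma]
      refine Finset.sum_congr rfl fun i _ => ?_
      have hz : ∀ j, N ≤ j → vp (m i) (b i) (c i) j = 0 := by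
        intro j hj
        have h4 := hcap j
        rw [h0 j hj, Nat.le_zero] at h4
        exact (Finset.sum_eq_zero_iff.1 h4) i (Finset.mem_univ i)
      have h3 := sum_vp (m i) (b i) (c i) (N + b i + 2 + m i) (hc i) (by omega) (by omega)
      have h6 : ∑ j ∈ Finset.range (N + b i + 2 + m i), vp (m i) (b i) (c i) j =
          ∑ j ∈ Finset.range N, vp (m i) (b i) (c i) j := by
        symm
        apply Finset.sum_subset (Finset.range_subset_range.2 (by omega))
        intro j _ hj
        rw [Finset.mem_range, not_lt] at hj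
        exact hz j hj
      rw [h6] at h3
      have h5 := two_card_tri (m i)
      rw [Fintype.card_coe]
      omega
    unfold Good
    rw [Fintype.card_coe]
    omega

end

end Pool.MP_70e04f_ag
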