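import Pool.Agent.Lib_MP_70e04f_ag.Cert

/-!
From a certificate to the expected dimension for general points.
-/

namespace Pool.MP_70e04f_ag

section
open Polynomial

/-- The dimension bound given by a certificate. -/
theorem finrank_of_cert {n : ℕ} (k N : ℕ) (hk : 0 < k) (m : Fin n → ℕ) (V : Fin n → ℕ → ℕ)
    (σ : Fin n → ℤ) (ord : Fin n → ℕ) (Γ : Finset (Fin n)) (w : ℕ → ℕ) (Mc : ℕ)
    (hC : IsCert m V σ ord Γ w Mc) (t : ℕ → ℕ)
    (hcap : ∀ j, nrow k N j ≤ (∑ i, V i j) + t j) :
    ∃ u : Fin n → ℝ, Module.finrank ℝ (LinearMap.ker (degMat k N m xpos u 0).mulVecLin) ≤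
      ∑ j ∈ Finset.range N, t j := by
  classical
  obtain ⟨u, hu⟩ := cert_pos k N hk m V σ ord Γ w Mc hC t hcap _ ∅
    (Finset.disjoint_empty_left _) rfl (by simp)
  refine ⟨u, ?_⟩
  let θ : (↥(tri N) → ℝ) →ₗ[ℝ] ((Σ j : Fin N, Fin (t j)) → ℝ) :=
    { toFun := fun v c => (taylor 1 (rowPoly k N v c.1)).coeff c.2
      map_add' := by
        intro v w
        funext c
        simp only [taylor_rowPoly, Pi.add_apply]
        rw [← Finset.sum_add_distrib]
        refine Finset.sum_congr rfl fun q _ => ?_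
        split_ifs <;> ring
      map_smul' := by
        intro a v
        funext c
        simp only [taylor_rowPoly, Pi.smul_apply, smul_eq_mul, RingHom.id_apply, Finset.mul_sum]
        refine Finset.sum_congr rfl fun q _ => ?_
        split_ifs <;> ring }
  have hcard : Fintype.card (Σ j : Fin N, Fin (t j)) = ∑ j ∈ Finset.range N, t j := by
    rw [Fintype.card_sigma, Finset.sum_range]
    simp
  rw [← hcard]
  apply finrank_ker_le _ θ
  intro v hv hθ
  have hT : ∀ j, rowPoly k N v j = 0 := by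
    apply hu v
    · intro j
      rw [pow_dvd_iff_taylor]
      intro d hd
      by_cases hj : j < N
      · exact congrFun hθ ⟨⟨j, hj⟩, ⟨d, hd⟩⟩
      · rw [rowPoly_eq_zero k N v j (by omega)]; simp
    · simp
    · intro i _ al be hab
      have hc := congrFun hv ⟨i, ⟨(al, be), mem_tri.2 hab⟩⟩
      rw [degMat_zero_mulVec] at hc
      exact hc
  funext q
  rw [← coeff_rowPoly k N hk v q, hT]
  simp

/-- Certificates for emptiness. -/
theorem good_of_cert_le {n : ℕ} (k N : ℕ) (hk : 0 < k) (m : Fin n → ℕ) (V : Fin n → ℕ → ℕ)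
    (σ : Fin n → ℤ) (ord : Fin n → ℕ) (Γ : Finset (Fin n)) (w : ℕ → ℕ) (Mc : ℕ)
    (hC : IsCert m V σ ord Γ w Mc) (hcap : ∀ j, nrow k N j ≤ ∑ i, V i j) :
    ∃ u : Fin n → ℝ, Good (degMat k N m xpos u 0) := by
  obtain ⟨u, hu⟩ := finrank_of_cert k N hk m V σ ord Γ w Mc hC (fun _ => 0) hcap
  refine ⟨u, ?_⟩
  unfold Good
  rw [Finset.sum_const_zero] at hu
  omega

/-- Certificates for independence. -/
theorem good_of_cert_ge {n : ℕ} (k N : ℕ) (hk : 0 < k) (m : Fin n → ℕ) (V : Fin n → ℕ → ℕ)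
    (σ : Fin n → ℤ) (ord : Fin n → ℕ) (Γ : Finset (Fin n)) (w : ℕ → ℕ) (Mc : ℕ)
    (hC : IsCert m V σ ord Γ w Mc) (hcap : ∀ j, ∑ i, V i j ≤ nrow k N j)
    (htot : ∀ i L, (∀ j, L ≤ j → V i j = 0) → 2 * ∑ j ∈ Finset.range L, V i j = m i * (m i + 1)) :
    ∃ u : Fin n → ℝ, Good (degMat k N m xpos u 0) := by
  obtain ⟨u, hu⟩ := finrank_of_cert k N hk m V σ ord Γ w Mc hC
    (fun j => nrow k N j - ∑ i, V i j) (fun j => by have := hcap j; omega)
  refine ⟨u, ?_⟩
  have h1 : ∑ j ∈ Finset.range N, (nrow k N j - ∑ i, V i j) + ∑ j ∈ Finset.range N, ∑ i, V i j =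
      (tri N).card := by
    rw [← sum_nrow k, ← Finset.sum_add_distrib]
    refine Finset.sum_congr rfl fun j _ => ?_
    have := hcap j
    omega
  have h0 : ∀ j, N ≤ j → nrow k N j = 0 := by
    intro j hj
    rw [nrow_eq k N j hk]
    have h2 : N - k * j = 0 := by
      have := Nat.le_mul_of_pos_left j hk
      omega
    rw [h2]
    have := S_small k 0 (Nat.zero_le _)
    omega
  have h2 : ∑ j ∈ Finset.range N, ∑ i, V i j = Fintype.card (Σ i : Fin n, ↥(tri (m i))) := by
    rw [Finset.sum_comm, Fintype.card_sigma]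
    refine Finset.sum_congr rfl fun i _ => ?_
    have h3 := htot i N (by
      intro j hj
      have h4 := hcap j
      rw [h0 j hj, Nat.le_zero] at h4
      exact (Finset.sum_eq_zero_iff.1 h4) i (Finset.mem_univ i))
    have h5 := two_card_tri (m i)
    rw [Fintype.card_coe]
    omega
  unfold Good
  rw [Fintype.card_coe]
  omega

end

section
open MvPolynomial

/-- A real configuration of points with the expected dimension. -/
theorem real_of_good {n : ℕ} (k N : ℕ) (m : Fin n → ℕ) (hk : 0 < k) (x u : Fin n → ℝ)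
    (hg : Good (degMat k N m x u 0)) : ∃ p : Fin n → Fin 2 → ℝ, Good (condMat N m p) := by
  classical
  set F : Matrix (Σ i : Fin n, ↥(tri (m i))) ↥(tri N) (Polynomial ℝ) :=
    degMat k N m (fun i => Polynomial.C (x i)) (fun i => Polynomial.C (u i)) Polynomial.X with hF
  have hFe : ∀ e : ℝ, F.map (Polynomial.evalRingHom e) = degMat k N m x u e := by
    intro e
    rw [hF, degMat_map]
    simp
  have hc : ∀ e : ℝ, (Polynomial.evalRingHom e).comp (Polynomial.C : ℝ →+* Polynomial ℝ) =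
      RingHom.id ℝ := by
    intro e
    ext r
    simp
  obtain ⟨g, hg0, hgg⟩ := exists_detpoly (Polynomial.C : ℝ →+* Polynomial ℝ) F
    (Polynomial.evalRingHom 0) (hc 0) (by rw [hFe]; exact hg)
  have hgX : g * Polynomial.X ≠ 0 := by
    apply mul_ne_zero
    · rintro rfl
      simp at hg0
    · exact Polynomial.X_ne_zero
  obtain ⟨e, he⟩ : ∃ e : ℝ, (g * Polynomial.X).eval e ≠ 0 := by
    by_contra hcon
    push Not at hcon
    apply hgX
    apply Polynomial.funext
    intro r
    rw [hcon r]; simp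
  rw [Polynomial.eval_mul, Polynomial.eval_X] at he
  have he1 : g.eval e ≠ 0 := left_ne_zero_of_mul he
  have he2 : e ≠ 0 := right_ne_zero_of_mul he
  have h1 : Good (degMat k N m x u e) := by
    rw [← hFe]
    exact hgg _ (hc e) he1
  refine ⟨fun i => ![x i, x i ^ k + e * u i], ?_⟩
  have h2 := finrank_condMat_le k N hk m x u e he2
  unfold Good at h1 ⊢
  omega

/-- From one real configuration to general complex points. -/
theorem generic_of_real {n : ℕ} (d : ℕ) (m : Fin n → ℕ)
    (h : ∃ p : Fin n → Fin 2 → ℝ, Good (condMat (d + 1) m p)) :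
    ∃ g : MvPolynomial (Fin n × Fin 2) ℂ, g ≠ 0 ∧
      ∀ p : Fin n → Fin 2 → ℂ,
        MvPolynomial.eval (fun q : Fin n × Fin 2 => p q.1 q.2) g ≠ 0 →
          ((2 : ℤ) * ((Module.finrank ℂ
              ↥(MvPolynomial.restrictTotalDegree (Fin 2) ℂ d ⊓
                ⨅ i : Fin n, Submodule.restrictScalars ℂ
                  ((RingHom.ker (MvPolynomial.eval (p i)) :
                      Ideal (MvPolynomial (Fin 2) ℂ)) ^ m i)) : ℕ) : ℤ)
            = max 0 (((d : ℤ) + 1) * ((d : ℤ) + 2) - ∑ i, (m i : ℤ) * ((m i : ℤ) + 1))) := by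
  classical
  obtain ⟨p0, hp0⟩ := h
  have hC : Good (condMat (d + 1) m (fun i j => ((p0 i j : ℝ) : ℂ))) := by
    have := hp0.map Complex.ofRealHom
    rw [condMat_map] at this
    exact this
  set F : Matrix (Σ i : Fin n, ↥(tri (m i))) ↥(tri (d + 1)) (MvPolynomial (Fin n × Fin 2) ℂ) :=
    condMat (d + 1) m (fun i j => X (i, j)) with hF
  have hFe : ∀ p : Fin n → Fin 2 → ℂ, F.map (eval (fun q : Fin n × Fin 2 => p q.1 q.2)) =
      condMat (d + 1) m p := by
    intro p
    rw [hF, condMat_map]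
    simp
  have hc : ∀ p : Fin n → Fin 2 → ℂ, (eval (fun q : Fin n × Fin 2 => p q.1 q.2)).comp
      (C : ℂ →+* MvPolynomial (Fin n × Fin 2) ℂ) = RingHom.id ℂ := by
    intro p
    ext r
    simp
  obtain ⟨g, hg0, hgg⟩ := exists_detpoly (C : ℂ →+* MvPolynomial (Fin n × Fin 2) ℂ) F
    (eval (fun q : Fin n × Fin 2 => ((p0 q.1 q.2 : ℝ) : ℂ)))
    (hc (fun i j => ((p0 i j : ℝ) : ℂ)))
    (by
      have := hFe (fun i j => ((p0 i j : ℝ) : ℂ))
      rw [this]; exact hC)
  refine ⟨g, ?_, ?_⟩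
  · rintro rfl
    simp at hg0
  · intro p hp
    have h1 : Good (condMat (d + 1) m p) := by
      rw [← hFe p]
      exact hgg _ (hc p) hp
    have h2 := h1.finrank_eq
    have h3 := finrank_system ℂ d m p
    have h4 : Module.finrank ℂ ↥(MvPolynomial.restrictTotalDegree (Fin 2) ℂ d ⊓
                ⨅ i : Fin n, Submodule.restrictScalars ℂ
                  ((RingHom.ker (MvPolynomial.eval (p i)) :
                      Ideal (MvPolynomial (Fin 2) ℂ)) ^ m i)) =
        Fintype.card ↥(tri (d + 1)) - Fintype.card (Σ i : Fin n, ↥(tri (m i))) := by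
      rw [← h2, ← h3]; rfl
    rw [h4]
    have h5 : ((2 * Fintype.card ↥(tri (d + 1)) : ℕ) : ℤ) = ((d : ℤ) + 1) * ((d : ℤ) + 2) := by
      rw [Fintype.card_coe, two_card_tri]
      push_cast; ring
    have h6 : ((2 * Fintype.card (Σ i : Fin n, ↥(tri (m i))) : ℕ) : ℤ) =
        ∑ i, (m i : ℤ) * ((m i : ℤ) + 1) := by
      rw [Fintype.card_sigma, Finset.mul_sum]
      push_cast
      refine Finset.sum_congr rfl fun i _ => ?_
      have := two_card_tri (m i)
      rw [Fintype.card_coe]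
      exact_mod_cast this
    rw [← h5, ← h6]
    push_cast
    omega

end

end Pool.MP_70e04f_ag
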