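import Mathlib

/-!
Linear algebra: matrices of full rank, and openness of this condition.
-/

namespace Pool.MP_70e04f_ag

open Matrix

section
variable {I J K : Type*} [Fintype I] [Fintype J] [Field K]

/-- The kernel of `A` has the smallest dimension that the shape of `A` allows. -/
def Good (A : Matrix J I K) : Prop :=
  Module.finrank K (LinearMap.ker A.mulVecLin) ≤ Fintype.card I - Fintype.card J

lemma good_of_left [DecidableEq I] (L : Matrix I J K) (X : Matrix J I K)
    (h : (L * X).det ≠ 0) : Good X := by
  have hk : LinearMap.ker X.mulVecLin = ⊥ := by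
    rw [LinearMap.ker_eq_bot']
    intro v hv
    rw [Matrix.mulVecLin_apply] at hv
    have h1 : (L * X).mulVec v = 0 := by
      rw [← Matrix.mulVec_mulVec, hv, Matrix.mulVec_zero]
    exact Matrix.eq_zero_of_mulVec_eq_zero h h1
  unfold Good
  rw [hk, finrank_bot]
  exact Nat.zero_le _

lemma good_of_right [DecidableEq J] (R : Matrix I J K) (X : Matrix J I K)
    (h : (X * R).det ≠ 0) : Good X := by
  have hr : LinearMap.range X.mulVecLin = ⊤ := by
    rw [LinearMap.range_eq_top]
    intro w
    have hu : IsUnit (X * R) := (Matrix.isUnit_iff_isUnit_det _).2 (isUnit_iff_ne_zero.2 h)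
    refine ⟨R.mulVec ((X * R)⁻¹.mulVec w), ?_⟩
    rw [Matrix.mulVecLin_apply, Matrix.mulVec_mulVec, Matrix.mulVec_mulVec,
      Matrix.mul_nonsing_inv _ ((Matrix.isUnit_iff_isUnit_det _).1 hu), Matrix.one_mulVec]
  have := LinearMap.finrank_range_add_finrank_ker X.mulVecLin
  rw [hr, finrank_top, Module.finrank_fintype_fun_eq_card, Module.finrank_fintype_fun_eq_card] at this
  unfold Good
  omega

lemma Good.exists_left [DecidableEq I] [DecidableEq J] {A : Matrix J I K} (h : Good A)
    (hc : Fintype.card I ≤ Fintype.card J) : ∃ L : Matrix I J K, L * A = 1 := by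
  unfold Good at h
  rw [Nat.sub_eq_zero_of_le hc] at h
  have hk : LinearMap.ker A.mulVecLin = ⊥ := by
    exact Submodule.finrank_eq_zero.1 (Nat.le_zero.1 h)
  obtain ⟨g, hg⟩ := A.mulVecLin.exists_leftInverse_of_injective hk
  refine ⟨LinearMap.toMatrix' g, ?_⟩
  have h1 : LinearMap.toMatrix' (g ∘ₗ Matrix.toLin' A) = 1 := by
    rw [Matrix.toLin'_apply', hg, LinearMap.toMatrix'_id]
  rw [LinearMap.toMatrix'_comp, LinearMap.toMatrix'_toLin'] at h1
  exact h1

lemma Good.exists_right [DecidableEq I] [DecidableEq J] {A : Matrix J I K} (h : Good A)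
    (hc : Fintype.card J ≤ Fintype.card I) : ∃ R : Matrix I J K, A * R = 1 := by
  unfold Good at h
  have h0 := LinearMap.finrank_range_add_finrank_ker A.mulVecLin
  rw [Module.finrank_fintype_fun_eq_card] at h0
  have hr : LinearMap.range A.mulVecLin = ⊤ := by
    apply Submodule.eq_top_of_finrank_eq
    have h2 := Submodule.finrank_le (LinearMap.range A.mulVecLin)
    rw [Module.finrank_fintype_fun_eq_card] at h2 ⊢
    omega
  obtain ⟨g, hg⟩ := A.mulVecLin.exists_rightInverse_of_surjective hr
  refine ⟨LinearMap.toMatrix' g, ?_⟩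
  have h1 : LinearMap.toMatrix' (Matrix.toLin' A ∘ₗ g) = 1 := by
    rw [Matrix.toLin'_apply', hg, LinearMap.toMatrix'_id]
  rw [LinearMap.toMatrix'_comp, LinearMap.toMatrix'_toLin'] at h1
  exact h1

/-- Being of full rank is an open condition. -/
theorem exists_detpoly [DecidableEq I] [DecidableEq J] {S : Type*} [CommRing S]
    (c : K →+* S) (F : Matrix J I S) (φ0 : S →+* K) (hφ0 : φ0.comp c = RingHom.id K)
    (h : Good (F.map φ0)) :
    ∃ g : S, φ0 g ≠ 0 ∧ ∀ φ : S →+* K, φ.comp c = RingHom.id K → φ g ≠ 0 → Good (F.map φ) := by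
  have hmap : ∀ (φ : S →+* K), φ.comp c = RingHom.id K → ∀ {P Q : Type _} (L : Matrix P Q K),
      (L.map c).map φ = L := by
    intro φ hφ P Q L
    ext i j
    simp only [Matrix.map_apply]
    exact congrArg (fun ψ : K →+* K => ψ (L i j)) hφ
  rcases le_total (Fintype.card I) (Fintype.card J) with hc | hc
  · obtain ⟨L, hL⟩ := h.exists_left hc
    have hd : ∀ φ : S →+* K, φ.comp c = RingHom.id K →
        φ ((L.map c * F).det) = (L * F.map φ).det := by
      intro φ hφ
      rw [RingHom.map_det, RingHom.mapMatrix_apply, Matrix.map_mul, hmap φ hφ]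
    refine ⟨(L.map c * F).det, ?_, ?_⟩
    · rw [hd φ0 hφ0, hL, Matrix.det_one]; exact one_ne_zero
    · intro φ hφ hne
      rw [hd φ hφ] at hne
      exact good_of_left L _ hne
  · obtain ⟨R, hR⟩ := h.exists_right hc
    have hd : ∀ φ : S →+* K, φ.comp c = RingHom.id K →
        φ ((F * R.map c).det) = (F.map φ * R).det := by
      intro φ hφ
      rw [RingHom.map_det, RingHom.mapMatrix_apply, Matrix.map_mul, hmap φ hφ]
    refine ⟨(F * R.map c).det, ?_, ?_⟩
    · rw [hd φ0 hφ0, hR, Matrix.det_one]; exact one_ne_zero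
    · intro φ hφ hne
      rw [hd φ hφ] at hne
      exact good_of_right R _ hne

/-- Full rank is preserved by field extension. -/
lemma Good.map [DecidableEq I] [DecidableEq J] {K' : Type*} [Field K'] (f : K →+* K')
    {A : Matrix J I K} (h : Good A) : Good (A.map f) := by
  rcases le_total (Fintype.card I) (Fintype.card J) with hc | hc
  · obtain ⟨L, hL⟩ := h.exists_left hc
    apply good_of_left (L.map f)
    rw [← Matrix.map_mul, hL, Matrix.map_one f (map_zero f) (map_one f), Matrix.det_one]
    exact one_ne_zero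
  · obtain ⟨R, hR⟩ := h.exists_right hc
    apply good_of_right (R.map f)
    rw [← Matrix.map_mul, hR, Matrix.map_one f (map_zero f) (map_one f), Matrix.det_one]
    exact one_ne_zero

/-- Full rank gives the exact dimension of the kernel. -/
lemma Good.finrank_eq {A : Matrix J I K} (h : Good A) :
    Module.finrank K (LinearMap.ker A.mulVecLin) = Fintype.card I - Fintype.card J := by
  have h0 := LinearMap.finrank_range_add_finrank_ker A.mulVecLin
  rw [Module.finrank_fintype_fun_eq_card] at h0
  have h2 := Submodule.finrank_le (LinearMap.range A.mulVecLin)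
  rw [Module.finrank_fintype_fun_eq_card] at h2
  unfold Good at h
  omega

/-- To bound the dimension of a kernel it is enough to kill it by few further conditions. -/
lemma finrank_ker_le {E : Type*} [Fintype E] (A : Matrix J I K) (θ : (I → K) →ₗ[K] (E → K))
    (h : ∀ v, A.mulVec v = 0 → θ v = 0 → v = 0) :
    Module.finrank K (LinearMap.ker A.mulVecLin) ≤ Fintype.card E := by
  have hinj : Function.Injective (θ.domRestrict (LinearMap.ker A.mulVecLin)) := by
    rw [← LinearMap.ker_eq_bot, LinearMap.ker_eq_bot']
    rintro ⟨v, hv⟩ hv2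
    have h1 : A.mulVec v = 0 := by simpa using hv
    have h2 : θ v = 0 := hv2
    exact Subtype.ext (h v h1 h2)
  have := LinearMap.finrank_le_finrank_of_injective hinj
  rwa [Module.finrank_fintype_fun_eq_card] at this

end

end Pool.MP_70e04f_ag
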