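import Pool.Agent.Lib_MP_70e04f_ag.Poly

/-!
The matrix of conditions, and the linear system of curves.
-/

namespace Pool.MP_70e04f_ag

open MvPolynomial

/-- The matrix of the vanishing conditions on the polynomials of degree `< N`. -/
noncomputable def condMat {R : Type*} [CommRing R] {n : ℕ} (N : ℕ) (m : Fin n → ℕ)
    (p : Fin n → Fin 2 → R) : Matrix (Σ i : Fin n, ↥(tri (m i))) ↥(tri N) R :=
  fun c q => ec (p c.1 0) (p c.1 1) q.1.1 q.1.2 c.2.1.1 c.2.1.2

lemma condMat_map {R S : Type*} [CommRing R] [CommRing S] {n : ℕ} (N : ℕ) (m : Fin n → ℕ)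
    (p : Fin n → Fin 2 → R) (φ : R →+* S) :
    (condMat N m p).map φ = condMat N m (fun i j => φ (p i j)) := by
  ext c q
  exact ec_map φ _ _ _ _ _ _

/-- The polynomial with given coefficients. -/
noncomputable def toPoly (K : Type*) [Field K] (N : ℕ) :
    (↥(tri N) → K) →ₗ[K] MvPolynomial (Fin 2) K :=
  Fintype.linearCombination K (fun q : ↥(tri N) => (X 0 ^ q.1.1 * X 1 ^ q.1.2 : MvPolynomial (Fin 2) K))

lemma toPoly_apply {K : Type*} [Field K] {N : ℕ} (v : ↥(tri N) → K) :
    toPoly K N v = ∑ q : ↥(tri N), v q • (X 0 ^ q.1.1 * X 1 ^ q.1.2 : MvPolynomial (Fin 2) K) := rfl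

lemma X_pow_mul_X_pow {K : Type*} [Field K] (a b : ℕ) :
    (X 0 ^ a * X 1 ^ b : MvPolynomial (Fin 2) K) = monomial (mon a b) 1 := by
  rw [mon, monomial_eq, Finsupp.prod_add_index']
  · rw [Finsupp.prod_single_index (by simp), Finsupp.prod_single_index (by simp)]; simp
  · intro; simp
  · intro _ _ _; rw [pow_add]

lemma coeff_toPoly {K : Type*} [Field K] {N : ℕ} (v : ↥(tri N) → K) (q : ↥(tri N)) :
    coeff (mon q.1.1 q.1.2) (toPoly K N v) = v q := by
  classical
  rw [toPoly_apply, coeff_sum]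
  simp only [coeff_smul, X_pow_mul_X_pow, coeff_monomial, smul_eq_mul, mul_ite, mul_one, mul_zero]
  rw [Finset.sum_eq_single q]
  · simp
  · intro b _ hb
    rw [if_neg]
    intro h
    apply hb
    have := mon_inj.1 h
    exact Subtype.ext (Prod.ext this.1 this.2)
  · intro h; exact absurd (Finset.mem_univ q) h

lemma toPoly_injective (K : Type*) [Field K] (N : ℕ) : Function.Injective (toPoly K N) := by
  intro v w h
  funext q
  rw [← coeff_toPoly v q, h, coeff_toPoly]

lemma mem_range_toPoly {K : Type*} [Field K] (d : ℕ) (f : MvPolynomial (Fin 2) K) :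
    f ∈ restrictTotalDegree (Fin 2) K d ↔ ∃ v, toPoly K (d + 1) v = f := by
  classical
  rw [mem_restrictTotalDegree]
  constructor
  · intro h
    refine ⟨fun q => coeff (mon q.1.1 q.1.2) f, ?_⟩
    ext s
    by_cases hs : s 0 + s 1 < d + 1
    · have := coeff_toPoly (K := K) (N := d + 1) (fun q => coeff (mon q.1.1 q.1.2) f)
        ⟨(s 0, s 1), mem_tri.2 hs⟩
      simpa only [mon_eta] using this
    · have h1 : coeff s f = 0 := by
        apply coeff_eq_zero_of_totalDegree_lt
        have : s.degree = s 0 + s 1 := by rw [← mon_eta s, degree_mon]; simp [mon]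
        have h2 : ∑ i ∈ s.support, s i = s.degree := rfl
        rw [h2, this]; omega
      rw [h1, toPoly_apply, coeff_sum]
      apply Finset.sum_eq_zero
      intro q _
      rw [coeff_smul, X_pow_mul_X_pow, coeff_monomial, if_neg, smul_zero]
      intro h
      apply hs
      rw [← h, mon_zero', mon_one']
      exact mem_tri.1 q.2
  · rintro ⟨v, rfl⟩
    rw [toPoly_apply]
    apply (totalDegree_finsetSum _ _).trans
    apply Finset.sup_le
    intro q _
    refine (totalDegree_smul_le _ _).trans ?_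
    rw [X_pow_mul_X_pow]
    refine (totalDegree_monomial_le _ _).trans ?_
    have : (mon q.1.1 q.1.2).sum (fun _ => id) = q.1.1 + q.1.2 := degree_mon _ _
    rw [this]
    have := mem_tri.1 q.2
    omega

/-- The conditions on `toPoly v` at all points are the equations `condMat v = 0`. -/
lemma toPoly_mem_iff {K : Type*} [Field K] {n : ℕ} (N : ℕ) (m : Fin n → ℕ)
    (p : Fin n → Fin 2 → K) (v : ↥(tri N) → K) :
    (∀ i, toPoly K N v ∈ (RingHom.ker (MvPolynomial.eval (p i)) :
      Ideal (MvPolynomial (Fin 2) K)) ^ m i) ↔ (condMat N m p).mulVec v = 0 := by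
  have key : ∀ (i : Fin n) (q : ℕ × ℕ), coeff (mon q.1 q.2) (shift (p i) (toPoly K N v)) =
      ∑ r : ↥(tri N), ec (p i 0) (p i 1) r.1.1 r.1.2 q.1 q.2 * v r := by
    intro i q
    rw [toPoly_apply, map_sum, coeff_sum]
    refine Finset.sum_congr rfl fun r _ => ?_
    rw [map_smul, coeff_smul, coeff_shift_mon, smul_eq_mul, mul_comm]
  constructor
  · intro h
    funext c
    have := (mem_ker_pow_iff (p c.1) (m c.1) _).1 (h c.1) c.2.1 c.2.2
    rw [key] at this
    exact this
  · intro h i
    rw [mem_ker_pow_iff]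
    intro q hq
    rw [key]
    exact congrFun h ⟨i, ⟨q, hq⟩⟩

/-- The linear system `L(d; m)` at the points `p`. -/
noncomputable def system (K : Type*) [Field K] {n : ℕ} (d : ℕ) (m : Fin n → ℕ)
    (p : Fin n → Fin 2 → K) : Submodule K (MvPolynomial (Fin 2) K) :=
  restrictTotalDegree (Fin 2) K d ⊓
    ⨅ i : Fin n, Submodule.restrictScalars K
      ((RingHom.ker (MvPolynomial.eval (p i)) : Ideal (MvPolynomial (Fin 2) K)) ^ m i)

lemma system_eq_map (K : Type*) [Field K] {n : ℕ} (d : ℕ) (m : Fin n → ℕ)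
    (p : Fin n → Fin 2 → K) :
    system K d m p = (LinearMap.ker (condMat (d + 1) m p).mulVecLin).map (toPoly K (d + 1)) := by
  ext f
  rw [system, Submodule.mem_inf, Submodule.mem_iInf, mem_range_toPoly, Submodule.mem_map]
  constructor
  · rintro ⟨⟨v, rfl⟩, h⟩
    refine ⟨v, ?_, rfl⟩
    rw [LinearMap.mem_ker, Matrix.mulVecLin_apply, ← toPoly_mem_iff]
    exact h
  · rintro ⟨v, hv, rfl⟩
    refine ⟨⟨v, rfl⟩, ?_⟩
    rw [LinearMap.mem_ker, Matrix.mulVecLin_apply, ← toPoly_mem_iff] at hv
    exact hv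

lemma finrank_system (K : Type*) [Field K] {n : ℕ} (d : ℕ) (m : Fin n → ℕ)
    (p : Fin n → Fin 2 → K) :
    Module.finrank K (system K d m p) =
      Module.finrank K (LinearMap.ker (condMat (d + 1) m p).mulVecLin) := by
  rw [system_eq_map]
  exact (LinearEquiv.finrank_eq (Submodule.equivMapOfInjective _ (toPoly_injective K (d + 1)) _)).symm

end Pool.MP_70e04f_ag
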