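import Pool.Agent.Lib_MP_70e04f_ag.Front

/-!
Second differences of the front patterns, and the filling of one row.
-/

namespace Pool.MP_70e04f_ag

/-- Summation by parts. -/
lemma second_sum (e : ℕ → ℤ) (j : ℕ) :
    ∑ t ∈ Finset.range j, ((t : ℤ) + 1) * (t + 2) * (e t - 2 * e (t + 1) + e (t + 2)) =
      2 * ∑ t ∈ Finset.range (j + 1), e t - (j + 1) * (j + 2) * e j + j * (j + 1) * e (j + 1) := by
  induction j with
  | zero => simp
  | succ j ih =>
    rw [Finset.sum_range_succ, ih, Finset.sum_range_succ _ (j + 1)]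
    push_cast
    ring

lemma frac_sum (c j : ℕ) :
    ∑ t ∈ Finset.range j, ((t : ℤ) + 1) * (t + 2) *
      ((if t + 2 = c then 1 else 0) - (if t + 1 = c then 1 else 0)) =
      if c ≤ j then -(2 * (c : ℤ)) else if c = j + 1 then (j : ℤ) * (j + 1) else 0 := by
  induction j with
  | zero =>
    rw [Finset.sum_range_zero]
    split_ifs with h1 h2
    · have : c = 0 := by omega
      rw [this]; simp
    · simp
    · rfl
  | succ j ih =>
    rw [Finset.sum_range_succ, ih]
    by_cases h1 : c = j + 2
    · subst h1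
      rw [if_neg (by omega), if_neg (by omega), if_pos rfl, if_neg (by omega), if_neg (by omega),
        if_pos rfl]
      push_cast; ring
    · rw [if_neg (show ¬ j + 2 = c by omega), if_neg (show ¬ c = j + 1 + 1 by omega)]
      by_cases h2 : c = j + 1
      · subst h2
        rw [if_neg (by omega), if_pos rfl, if_pos rfl, if_pos le_rfl]
        push_cast; ring
      · rw [if_neg h2, if_neg (show ¬ j + 1 = c by omega)]
        by_cases h3 : c ≤ j
        · rw [if_pos h3, if_pos (by omega)]; ring
        · rw [if_neg h3, if_neg (by omega)]; ring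

/-- The second difference functional of a front pattern. -/
def Wf (μ b c j : ℕ) : ℤ :=
  2 * ∑ t ∈ Finset.range (j + 1), (vp μ b c t : ℤ) - (j + 1) * (j + 2) * vp μ b c j +
    j * (j + 1) * vp μ b c (j + 1)

lemma Wf_eq (μ b c j : ℕ) : Wf μ b c j = ∑ t ∈ Finset.range j, ((t : ℤ) + 1) * (t + 2) *
    ((vp μ b c t : ℤ) - 2 * vp μ b c (t + 1) + vp μ b c (t + 2)) := by
  rw [second_sum (fun t => (vp μ b c t : ℤ)) j]
  rfl

/-- Points at rest. -/
lemma Wf_rest (μ j : ℕ) : 0 ≤ Wf μ 0 0 j := by
  rw [Wf_eq]
  apply Finset.sum_nonneg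
  intro t _
  apply mul_nonneg (by positivity)
  unfold vp
  split_ifs <;> omega

/-- Points placed at the row `R` far above. -/
lemma Wf_far (μ R c j : ℕ) (hR : j + 2 ≤ R) (hc : c ≤ R) (hc' : R ≤ c + μ) :
    ∑ t ∈ Finset.range j, ((t : ℤ) + 1) * (t + 2) * (if R = μ + (t + 1) then 1 else 0) -
      (if c ≤ j then 2 * (j : ℤ) else 0) ≤ Wf μ (R - 1) c j := by
  have h1 : ∀ t ∈ Finset.range j, ((t : ℤ) + 1) * (t + 2) *
      (if R = μ + (t + 1) then 1 else 0) + ((t : ℤ) + 1) * (t + 2) *
      ((if t + 2 = c then 1 else 0) - (if t + 1 = c then 1 else 0)) ≤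
      ((t : ℤ) + 1) * (t + 2) * ((vp μ (R - 1) c t : ℤ) - 2 * vp μ (R - 1) c (t + 1) +
        vp μ (R - 1) c (t + 2)) := by
    intro t ht
    rw [Finset.mem_range] at ht
    rw [← mul_add]
    apply mul_le_mul_of_nonneg_left _ (by positivity)
    unfold vp
    split_ifs <;> omega
  have h2 := Finset.sum_le_sum h1
  rw [Finset.sum_add_distrib, frac_sum c j] at h2
  rw [Wf_eq]
  have h3 : -(if c ≤ j then 2 * (j : ℤ) else 0) ≤
      if c ≤ j then -(2 * (c : ℤ)) else if c = j + 1 then (j : ℤ) * (j + 1) else 0 := by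
    split_ifs
    · omega
    · positivity
    · simp
  linarith

/-- Points placed at the row `j + 1`. -/
lemma Wf_near (μ c j : ℕ) (hj : 1 ≤ j) (hμ : j < μ) (hc : c ≤ j + 1) :
    -((j : ℤ) * (j + 1) * (j + 1 - c : ℕ)) - (if c ≤ j then (j : ℤ) * (j + 1) + 2 * j else 0) ≤
      Wf μ j c j := by
  have h1 : ∀ t ∈ Finset.range j, ((t : ℤ) + 1) * (t + 2) *
      ((if t + 2 = c then 1 else 0) - (if t + 1 = c then 1 else 0)) +
      (if t = j - 1 then -((j : ℤ) * (j + 1) * (j + 2 - c : ℕ)) else 0) ≤
      ((t : ℤ) + 1) * (t + 2) * ((vp μ j c t : ℤ) - 2 * vp μ j c (t + 1) +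
        vp μ j c (t + 2)) := by
    intro t ht
    rw [Finset.mem_range] at ht
    by_cases h : t = j - 1
    · rw [if_pos h]
      have e1 : (j : ℤ) * (j + 1) = ((t : ℤ) + 1) * (t + 2) := by
        have : (j : ℤ) = t + 1 := by omega
        rw [this]; ring
      rw [e1, ← mul_neg, ← mul_add]
      apply mul_le_mul_of_nonneg_left _ (by positivity)
      unfold vp
      split_ifs <;> omega
    · rw [if_neg h, add_zero]
      apply mul_le_mul_of_nonneg_left _ (by positivity)
      unfold vp
      split_ifs <;> omega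
  have h2 := Finset.sum_le_sum h1
  rw [Finset.sum_add_distrib, frac_sum c j, Finset.sum_ite_eq' (Finset.range j) (j - 1)
    (fun _ => -((j : ℤ) * (j + 1) * (j + 2 - c : ℕ))),
    if_pos (Finset.mem_range.2 (by omega))] at h2
  rw [Wf_eq]
  refine le_trans ?_ h2
  have e2 : ((j + 2 - c : ℕ) : ℤ) = ((j + 1 - c : ℕ) : ℤ) + 1 := by omega
  rw [e2]
  by_cases h3 : c ≤ j
  · rw [if_pos h3, if_pos h3]
    have : (c : ℤ) ≤ j := by exact_mod_cast h3
    nlinarith
  · rw [if_neg h3, if_neg h3, if_pos (by omega)]
    nlinarith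

/-- Filling one row by points of antitone weights, with at most two incomplete points. -/
theorem row_fill (w : ℕ → ℕ) (hw : Antitone w) (q n : ℕ) (hqn : q ≤ n) (g : ℕ)
    (hg : g ≤ ∑ i ∈ Finset.Ico q n, w i) (free : Prop) (hf : free ∨ w q ≤ 2 * g ∨ g = 0) :
    ∃ q' : ℕ, ∃ d : ℕ → ℕ, q ≤ q' ∧ q' ≤ n ∧ (∀ i, d i ≤ w i) ∧
      (free ∨ ∀ i, 2 * d i ≤ w i) ∧ ∑ i ∈ Finset.Ico q q', (w i - d i) = g ∧
      ((Finset.Ico q q').filter (fun i => d i ≠ 0)).card ≤ 2 ∧
      ∑ i ∈ Finset.Ico q q', d i ≤ w q := by
  classical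
  set P : ℕ → Prop := fun s => q ≤ s → ∑ i ∈ Finset.Ico q s, w i ≤ g with hP
  set s := Nat.findGreatest P n with hs
  have hPq : P q := by intro _; simp
  have hsq : q ≤ s := Nat.le_findGreatest hqn hPq
  have hsn : s ≤ n := Nat.findGreatest_le n
  have hPs : ∑ i ∈ Finset.Ico q s, w i ≤ g := Nat.findGreatest_spec hqn hPq hsq
  obtain ⟨ρ, hρ⟩ := Nat.exists_eq_add_of_le hPs
  rcases Nat.eq_zero_or_pos ρ with h0 | h0
  · refine ⟨s, fun _ => 0, hsq, hsn, fun _ => Nat.zero_le _, Or.inr fun _ => Nat.zero_le _, ?_, ?_,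
      ?_⟩
    · simp only [Nat.sub_zero]; omega
    · simp
    · simp
  have hsn' : s < n := by
    rcases Nat.eq_or_lt_of_le hsn with h | h
    · rw [h] at hρ; omega
    · exact h
  have hlt : ρ < w s := by
    have h1 : ¬ P (s + 1) :=
      Nat.findGreatest_is_greatest (P := P) (k := s + 1) (n := n) (Nat.lt_succ_self s) (by omega)
    simp only [hP, Classical.not_imp, not_le] at h1
    rw [Finset.sum_Ico_succ_top hsq] at h1
    omega
  have hws : w s ≤ w q := hw hsq
  by_cases hcase : free ∨ w s ≤ 2 * ρ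
  · -- one incomplete point
    refine ⟨s + 1, fun i => if i = s then w s - ρ else 0, by omega, by omega, ?_, ?_, ?_, ?_, ?_⟩
    · intro i
      simp only
      split_ifs with h
      · rw [h]; omega
      · omega
    · rcases hcase with h | h
      · exact Or.inl h
      · right
        intro i
        simp only
        split_ifs with h'
        · rw [h']; omega
        · omega
    · rw [Finset.sum_Ico_succ_top hsq]
      beta_reduce
      rw [if_pos rfl]
      have : ∑ i ∈ Finset.Ico q s, (w i - if i = s then w s - ρ else 0) =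
          ∑ i ∈ Finset.Ico q s, w i := by
        refine Finset.sum_congr rfl fun i hi => ?_
        rw [Finset.mem_Ico] at hi
        rw [if_neg (by omega), Nat.sub_zero]
      rw [this]; omega
    · refine (Finset.card_le_card (t := {s}) ?_).trans (by simp)
      intro i hi
      rw [Finset.mem_filter] at hi
      rw [Finset.mem_singleton]
      by_contra h
      exact hi.2 (if_neg h)
    · rw [Finset.sum_ite_eq' (Finset.Ico q (s + 1)) s (fun _ => w s - ρ),
        if_pos (Finset.mem_Ico.2 ⟨hsq, by omega⟩)]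
      omega
  · -- two incomplete points
    rw [not_or, not_le] at hcase
    have hs1 : q < s := by
      rcases Nat.eq_or_lt_of_le hsq with h | h
      · exfalso
        rw [← h, Finset.Ico_self, Finset.sum_empty] at hρ
        rcases hf with hf | hf | hf
        · exact hcase.1 hf
        · rw [h] at hf; omega
        · omega
      · exact h
    have hws1 : w s ≤ w (s - 1) := hw (by omega)
    refine ⟨s + 1, fun i => if i = s then w s / 2 else if i = s - 1 then (w s + 1) / 2 - ρ else 0,
      by omega, by omega, ?_, ?_, ?_, ?_, ?_⟩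
    · intro i
      simp only
      split_ifs with h h'
      · rw [h]; omega
      · rw [h']; omega
      · omega
    · right
      intro i
      simp only
      split_ifs with h h'
      · rw [h]; omega
      · rw [h']; omega
      · omega
    · have e1 : s = s - 1 + 1 := by omega
      have e2 : ∑ i ∈ Finset.Ico q s, (w i - if i = s then w s / 2 else
          if i = s - 1 then (w s + 1) / 2 - ρ else 0) = ∑ i ∈ Finset.Ico q (s - 1), w i +
          (w (s - 1) - ((w s + 1) / 2 - ρ)) := by
        have : Finset.Ico q s = Finset.Ico q (s - 1 + 1) := by rw [← e1]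
        rw [this, Finset.sum_Ico_succ_top (by omega), if_neg (by omega), if_pos rfl]
        congr 1
        refine Finset.sum_congr rfl fun i hi => ?_
        rw [Finset.mem_Ico] at hi
        rw [if_neg (by omega), if_neg (by omega), Nat.sub_zero]
      have e3 : ∑ i ∈ Finset.Ico q s, w i = ∑ i ∈ Finset.Ico q (s - 1), w i + w (s - 1) := by
        have : Finset.Ico q s = Finset.Ico q (s - 1 + 1) := by rw [← e1]
        rw [this, Finset.sum_Ico_succ_top (by omega)]
      rw [Finset.sum_Ico_succ_top hsq]
      beta_reduce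
      rw [e2, if_pos rfl]
      omega
    · refine (Finset.card_le_card (t := {s, s - 1}) ?_).trans Finset.card_le_two
      intro i hi
      rw [Finset.mem_filter] at hi
      rw [Finset.mem_insert, Finset.mem_singleton]
      by_contra h
      rw [not_or] at h
      apply hi.2
      beta_reduce
      rw [if_neg h.1, if_neg h.2]
    · have e2 : ∑ i ∈ Finset.Ico q s, (if i = s then w s / 2 else
          if i = s - 1 then (w s + 1) / 2 - ρ else 0) = (w s + 1) / 2 - ρ := by
        have e3 : ∀ i ∈ Finset.Ico q s, (if i = s then w s / 2 else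
          if i = s - 1 then (w s + 1) / 2 - ρ else 0) =
          if i = s - 1 then (w s + 1) / 2 - ρ else 0 := by
          intro i hi
          rw [Finset.mem_Ico] at hi
          rw [if_neg (by omega)]
        rw [Finset.sum_congr rfl e3, Finset.sum_ite_eq' (Finset.Ico q s) (s - 1)
          (fun _ => (w s + 1) / 2 - ρ), if_pos (Finset.mem_Ico.2 ⟨by omega, by omega⟩)]
      rw [Finset.sum_Ico_succ_top hsq]
      rw [e2, if_pos rfl]
      omega

end Pool.MP_70e04f_ag
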