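import Pool.Agent.Lib_MP_70e04f_ag.Mix1

/-!
Filling the rows exactly by points of arbitrary multiplicities in decreasing order.
-/

namespace Pool.MP_70e04f_ag

/-- The state when all the rows above `j` have been filled: `q` points have been placed, the point
`i` at the row `R i` with the parameter `c i`. -/
structure Stage (lam : ℕ → ℕ) (n m β : ℕ) (r : ℕ → ℤ) (j q : ℕ) (R c : ℕ → ℕ) : Prop where
  hq : q ≤ n
  un : ∀ i, q ≤ i → R i = 1 ∧ c i = 0
  row : ∀ i, i < q → j < R i ∧ R i ≤ β ∧ c i ≤ R i ∧ R i ≤ c i + lam i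
  half : ∀ i, i < q → R i ≤ 2 * c i ∨ m ≤ c i
  two : ∀ B, j < B → ((Finset.range q).filter (fun i => R i = B ∧ c i < B)).card ≤ 2
  defi : ∀ B, j < B → ∑ i ∈ (Finset.range q).filter (fun i => R i = B), (B - c i) ≤ min B m
  exact : ∀ s, j < s → ∑ i ∈ Finset.range n, (vp (lam i) (R i - 1) (c i) s : ℤ) = r s
  cross : ∀ t, 1 ≤ t → t < m → j < t + lam q →
    7 ≤ ((Finset.range q).filter (fun i => R i = lam i + t)).card

section
variable (lam : ℕ → ℕ) (n m β : ℕ) (r : ℕ → ℤ) (hlam : Antitone lam) (hm : ∀ i, lam i ≤ m)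
  (hβ : 2 * m ≤ β) (htot : 2 * ∑ s ∈ Finset.range (β + 2), r s =
    ∑ i ∈ Finset.range n, (lam i : ℤ) * (lam i + 1))
  (j q : ℕ) (R c : ℕ → ℕ) (h : Stage lam n m β r j q R c)
include hlam hm hβ htot h

set_option linter.unusedSectionVars false

/-- The loads have the right total. -/
lemma Stage.total : ∑ s ∈ Finset.range (β + 2), ∑ i ∈ Finset.range n,
    (vp (lam i) (R i - 1) (c i) s : ℤ) = ∑ s ∈ Finset.range (β + 2), r s := by
  have h1 : ∀ i ∈ Finset.range n, 2 * ∑ s ∈ Finset.range (β + 2),
      (vp (lam i) (R i - 1) (c i) s : ℤ) = (lam i : ℤ) * (lam i + 1) := by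
    intro i _
    have h2 := hm i
    have h3 : c i ≤ R i - 1 + 1 ∧ R i - 1 + 2 ≤ β + 2 := by
      rcases Nat.lt_or_ge i q with h4 | h4
      · have := h.row i h4
        omega
      · have := h.un i h4
        omega
    have := sum_vp (lam i) (R i - 1) (c i) (β + 2) h3.1 h3.2 (by omega)
    exact_mod_cast this
  have h2 := Finset.sum_congr rfl h1
  rw [← Finset.mul_sum, Finset.sum_comm, ← htot] at h2
  linarith

/-- The load of the row `j` when the remaining multiplicities are at most `j`. -/
lemma Stage.stepA (hj : lam q ≤ j) : ∑ i ∈ Finset.range n, (vp (lam i) (R i - 1) (c i) j : ℤ) ≤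
    r (j + 1) + ((∑ i ∈ (Finset.range q).filter (fun i => R i = j + 1), (j + 1 - c i) : ℕ) : ℤ) := by
  rw [← h.exact (j + 1) (by omega)]
  have h1 : ((∑ i ∈ (Finset.range q).filter (fun i => R i = j + 1), (j + 1 - c i) : ℕ) : ℤ) =
      ∑ i ∈ Finset.range n, if i < q ∧ R i = j + 1 then ((j + 1 - c i : ℕ) : ℤ) else 0 := by
    rw [← Finset.sum_filter]
    push_cast
    refine Finset.sum_congr ?_ fun _ _ => rfl
    ext i
    have := h.hq
    rw [Finset.mem_filter, Finset.mem_filter, Finset.mem_range, Finset.mem_range]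
    constructor
    · rintro ⟨h2, h3⟩
      exact ⟨by omega, h2, h3⟩
    · rintro ⟨_, h2, h3⟩
      exact ⟨h2, h3⟩
  rw [h1, ← Finset.sum_add_distrib]
  apply Finset.sum_le_sum
  intro i _
  rcases Nat.lt_or_ge i q with h4 | h4
  · obtain ⟨g1, g2, g3, g4⟩ := h.row i h4
    unfold vp
    split_ifs <;> omega
  · obtain ⟨g1, g2⟩ := h.un i h4
    have g3 := hlam h4
    rw [g1, g2]
    unfold vp
    split_ifs <;> omega

/-- There are enough remaining points. -/
lemma Stage.enough (hj : 1 ≤ j) (hjβ : j ≤ β) (hr : ∀ s, s < j → r j ≤ r s) :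
    r j - ∑ i ∈ Finset.range n, (vp (lam i) (R i - 1) (c i) j : ℤ) ≤
      ((∑ i ∈ Finset.Ico q n, min j (lam i) : ℕ) : ℤ) := by
  by_contra hcon
  push Not at hcon
  set V : ℕ → ℕ → ℤ := fun i s => if i < q then (vp (lam i) (R i - 1) (c i) s : ℤ) else
    (vp (lam i) (j - 1) j s : ℤ) with hV
  have hT : 2 * ∑ s ∈ Finset.range (β + 2), ∑ i ∈ Finset.range n, V i s =
      ∑ i ∈ Finset.range n, (lam i : ℤ) * (lam i + 1) := by
    rw [Finset.sum_comm, Finset.mul_sum]
    refine Finset.sum_congr rfl fun i _ => ?_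
    have h2 := hm i
    simp only [hV]
    by_cases h4 : i < q
    · have h3 := h.row i h4
      have := sum_vp (lam i) (R i - 1) (c i) (β + 2) (by omega) (by omega) (by omega)
      simp only [if_pos h4]
      exact_mod_cast this
    · have := sum_vp (lam i) (j - 1) j (β + 2) (by omega) (by omega) (by omega)
      simp only [if_neg h4]
      exact_mod_cast this
  have hrow1 : ∀ s, j < s → ∑ i ∈ Finset.range n, V i s = r s := by
    intro s hs
    rw [← h.exact s hs]
    refine Finset.sum_congr rfl fun i _ => ?_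
    simp only [hV]
    by_cases h4 : i < q
    · rw [if_pos h4]
    · rw [if_neg h4, (h.un i (by omega)).1, (h.un i (by omega)).2]
      unfold vp
      split_ifs <;> omega
  have hrow2 : ∑ i ∈ Finset.range n, V i j < r j := by
    have h2 : ∑ i ∈ Finset.range n, V i j =
        ∑ i ∈ Finset.range n, (vp (lam i) (R i - 1) (c i) j : ℤ) +
        ((∑ i ∈ Finset.Ico q n, min j (lam i) : ℕ) : ℤ) := by
      have h3 : ((∑ i ∈ Finset.Ico q n, min j (lam i) : ℕ) : ℤ) =
          ∑ i ∈ Finset.range n, if q ≤ i then ((min j (lam i) : ℕ) : ℤ) else 0 := by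
        rw [← Finset.sum_filter]
        push_cast
        refine Finset.sum_congr ?_ fun _ _ => rfl
        ext i
        rw [Finset.mem_filter, Finset.mem_Ico, Finset.mem_range]
        omega
      rw [h3, ← Finset.sum_add_distrib]
      refine Finset.sum_congr rfl fun i _ => ?_
      simp only [hV]
      by_cases h4 : i < q
      · rw [if_pos h4, if_neg (by omega), add_zero]
      · rw [if_neg h4, if_pos (by omega), (h.un i (by omega)).1, (h.un i (by omega)).2]
        unfold vp
        split_ifs <;> omega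
    rw [h2]
    linarith
  have hrow3 : ∀ s, s < j → ∑ i ∈ Finset.range n, V i s ≤ ∑ i ∈ Finset.range n, V i j := by
    intro s hs
    apply Finset.sum_le_sum
    intro i _
    simp only [hV]
    by_cases h4 : i < q
    · rw [if_pos h4, if_pos h4]
      have h3 := h.row i h4
      unfold vp
      split_ifs <;> omega
    · rw [if_neg h4, if_neg h4]
      unfold vp
      split_ifs <;> omega
  have hlt : ∑ s ∈ Finset.range (β + 2), ∑ i ∈ Finset.range n, V i s <
      ∑ s ∈ Finset.range (β + 2), r s := by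
    apply Finset.sum_lt_sum
    · intro s _
      rcases Nat.lt_trichotomy s j with h1 | h1 | h1
      · have := hrow3 s h1
        have := hr s h1
        linarith
      · rw [h1]; exact hrow2.le
      · exact (hrow1 s h1).le
    · exact ⟨j, Finset.mem_range.2 (by omega), hrow2⟩
  linarith

/-- The load of the row `j` when the remaining multiplicities are larger than `j`. -/
lemma Stage.stepB (κ : ℤ) (hκ : ∀ s, s < m → r s - r (s + 1) = κ) (hj : 1 ≤ j)
    (hjq : j < lam q) :
    (j : ℤ) ≤ 2 * (r j - ∑ i ∈ Finset.range n, (vp (lam i) (R i - 1) (c i) j : ℤ)) := by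
  classical
  have hjm : j < m := lt_of_lt_of_le hjq (hm q)
  set L : ℕ → ℤ := fun s => ∑ i ∈ Finset.range n, (vp (lam i) (R i - 1) (c i) s : ℤ) with hL
  -- the identity
  have id1 : ∑ i ∈ Finset.range n, Wf (lam i) (R i - 1) (c i) j =
      ((j : ℤ) + 1) * (j + 2) * (r j - L j) := by
    have e1 : ∑ i ∈ Finset.range n, Wf (lam i) (R i - 1) (c i) j =
        2 * ∑ s ∈ Finset.range (j + 1), L s - (j + 1) * (j + 2) * L j +
        j * (j + 1) * L (j + 1) := by
      unfold Wf
      simp only [hL]
      rw [Finset.sum_add_distrib, Finset.sum_sub_distrib, ← Finset.mul_sum, ← Finset.mul_sum,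
        ← Finset.mul_sum, Finset.sum_comm]
    have e2 := second_sum r j
    have e3 : ∑ t ∈ Finset.range j, ((t : ℤ) + 1) * (t + 2) *
        (r t - 2 * r (t + 1) + r (t + 2)) = 0 := by
      apply Finset.sum_eq_zero
      intro t ht
      rw [Finset.mem_range] at ht
      have h1 := hκ t (by omega)
      have h2 := hκ (t + 1) (by omega)
      have h3 : r t - 2 * r (t + 1) + r (t + 2) = 0 := by
        have e : t + 1 + 1 = t + 2 := rfl
        rw [e] at h2
        linarith
      rw [h3, mul_zero]
    have e4 : L (j + 1) = r (j + 1) := h.exact (j + 1) (by omega)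
    have e5 : ∑ s ∈ Finset.range (j + 1), L s = ∑ s ∈ Finset.range (j + 1), r s := by
      have h1 := h.total lam n m β r hlam hm hβ htot j q R c
      have h2 : β + 2 = (j + 1) + (β + 1 - j) := by omega
      rw [h2, Finset.sum_range_add, Finset.sum_range_add _ (j + 1)] at h1
      have h3 : ∑ x ∈ Finset.range (β + 1 - j), ∑ i ∈ Finset.range n,
          (vp (lam i) (R i - 1) (c i) (j + 1 + x) : ℤ) =
          ∑ x ∈ Finset.range (β + 1 - j), r (j + 1 + x) :=
        Finset.sum_congr rfl fun x _ => h.exact (j + 1 + x) (by omega)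
      rw [h3] at h1
      simp only [hL]
      linarith
    rw [e1, e4, e5]
    rw [e3] at e2
    linarith
  -- the pointwise bound
  have hpt : ∀ i ∈ Finset.range n, (if i < q then (∑ t ∈ Finset.range j,
      ((t : ℤ) + 1) * (t + 2) * (if R i = lam i + (t + 1) then 1 else 0)) -
      (if j + 2 ≤ R i ∧ c i ≤ j then 2 * (j : ℤ) else 0) -
      (if R i = j + 1 then (j : ℤ) * (j + 1) * (j + 1 - c i : ℕ) else 0) -
      (if R i = j + 1 ∧ c i < j + 1 then (j : ℤ) * (j + 1) + 2 * j else 0) else 0) ≤
      Wf (lam i) (R i - 1) (c i) j := by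
    intro i _
    by_cases h4 : i < q
    · rw [if_pos h4]
      obtain ⟨g1, g2, g3, g4⟩ := h.row i h4
      have g5 : lam q ≤ lam i := hlam h4.le
      rcases Nat.eq_or_lt_of_le (show j + 1 ≤ R i from g1) with g6 | g6
      · rw [if_neg (by omega), if_pos g6.symm]
        have e1 : ∑ t ∈ Finset.range j, ((t : ℤ) + 1) * (t + 2) *
            (if R i = lam i + (t + 1) then 1 else 0) = 0 := by
          apply Finset.sum_eq_zero
          intro t _
          rw [if_neg (by omega), mul_zero]
        have e2 := Wf_near (lam i) (c i) j hj (by omega) (by omega)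
        have e3 : R i - 1 = j := by omega
        rw [e1, e3]
        refine le_trans (le_of_eq ?_) e2
        by_cases g7 : c i ≤ j
        · rw [if_pos ⟨g6.symm, by omega⟩, if_pos g7]; ring
        · rw [if_neg (by omega), if_neg g7]; ring
      · have e2 := Wf_far (lam i) (R i) (c i) j g6 g3 g4
        refine le_trans (le_of_eq ?_) e2
        rw [if_neg (show ¬ R i = j + 1 by omega), if_neg (show ¬ (R i = j + 1 ∧ c i < j + 1) by omega),
          sub_zero, sub_zero]
        congr 1
        by_cases g7 : c i ≤ j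
        · rw [if_pos ⟨by omega, g7⟩, if_pos g7]
        · rw [if_neg (by omega), if_neg g7]
    · rw [if_neg h4]
      obtain ⟨g1, g2⟩ := h.un i (by omega)
      rw [g1, g2]
      exact Wf_rest (lam i) j
  have hsum := Finset.sum_le_sum hpt
  rw [id1] at hsum
  -- the four sums
  have hsplit : ∑ i ∈ Finset.range n, (if i < q then (∑ t ∈ Finset.range j,
      ((t : ℤ) + 1) * (t + 2) * (if R i = lam i + (t + 1) then 1 else 0)) -
      (if j + 2 ≤ R i ∧ c i ≤ j then 2 * (j : ℤ) else 0) -
      (if R i = j + 1 then (j : ℤ) * (j + 1) * (j + 1 - c i : ℕ) else 0) -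
      (if R i = j + 1 ∧ c i < j + 1 then (j : ℤ) * (j + 1) + 2 * j else 0) else 0) =
      ∑ i ∈ Finset.range q, ∑ t ∈ Finset.range j,
        ((t : ℤ) + 1) * (t + 2) * (if R i = lam i + (t + 1) then 1 else 0) -
      ∑ i ∈ Finset.range q, (if j + 2 ≤ R i ∧ c i ≤ j then 2 * (j : ℤ) else 0) -
      ∑ i ∈ Finset.range q, (if R i = j + 1 then (j : ℤ) * (j + 1) * (j + 1 - c i : ℕ) else 0) -
      ∑ i ∈ Finset.range q,
        (if R i = j + 1 ∧ c i < j + 1 then (j : ℤ) * (j + 1) + 2 * j else 0) := by
    rw [← Finset.sum_filter, ← Finset.sum_sub_distrib, ← Finset.sum_sub_distrib,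
      ← Finset.sum_sub_distrib]
    refine Finset.sum_congr ?_ fun _ _ => rfl
    ext i
    have := h.hq
    rw [Finset.mem_filter, Finset.mem_range, Finset.mem_range]
    omega
  have s1 : 7 * ∑ t ∈ Finset.range j, ((t : ℤ) + 1) * (t + 2) ≤
      ∑ i ∈ Finset.range q, ∑ t ∈ Finset.range j,
        ((t : ℤ) + 1) * (t + 2) * (if R i = lam i + (t + 1) then 1 else 0) := by
    rw [Finset.sum_comm, Finset.mul_sum]
    apply Finset.sum_le_sum
    intro t ht
    rw [Finset.mem_range] at ht
    have h1 := h.cross (t + 1) (by omega) (by omega) (by omega)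
    rw [← Finset.mul_sum, ← Finset.sum_filter, Finset.sum_const, nsmul_one, mul_comm]
    apply mul_le_mul_of_nonneg_left _ (by positivity)
    exact_mod_cast h1
  have s1' : 3 * ∑ t ∈ Finset.range j, ((t : ℤ) + 1) * (t + 2) = j * (j + 1) * (j + 2) := by
    clear * -
    induction j with
    | zero => simp
    | succ j ih =>
      rw [Finset.sum_range_succ, mul_add, ih]
      push_cast; ring
  have s2 : ∑ i ∈ Finset.range q, (if j + 2 ≤ R i ∧ c i ≤ j then 2 * (j : ℤ) else 0) ≤
      2 * j * (2 * (j - 1 : ℕ)) := by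
    rw [← Finset.sum_filter, Finset.sum_const, nsmul_eq_mul, mul_comm]
    apply mul_le_mul_of_nonneg_left _ (by positivity)
    have h1 : ((Finset.range q).filter (fun i => j + 2 ≤ R i ∧ c i ≤ j)).card ≤
        2 * (j - 1) := by
      have h2 : ∀ i ∈ (Finset.range q).filter (fun i => j + 2 ≤ R i ∧ c i ≤ j),
          R i ∈ Finset.Ioc (j + 1) (2 * j) := by
        intro i hi
        rw [Finset.mem_filter, Finset.mem_range] at hi
        have h3 := h.half i hi.1
        rw [Finset.mem_Ioc]
        omega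
      rw [Finset.card_eq_sum_card_fiberwise h2]
      have h3 : ∀ B ∈ Finset.Ioc (j + 1) (2 * j),
          (((Finset.range q).filter (fun i => j + 2 ≤ R i ∧ c i ≤ j)).filter
            (fun i => R i = B)).card ≤ 2 := by
        intro B hB
        rw [Finset.mem_Ioc] at hB
        refine (Finset.card_le_card ?_).trans (h.two B (by omega))
        intro i hi
        rw [Finset.mem_filter, Finset.mem_filter] at hi
        rw [Finset.mem_filter]
        exact ⟨hi.1.1, hi.2, by omega⟩
      refine (Finset.sum_le_sum h3).trans ?_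
      rw [Finset.sum_const, Nat.card_Ioc, smul_eq_mul]
      omega
    exact_mod_cast h1
  have s3 : ∑ i ∈ Finset.range q,
      (if R i = j + 1 then (j : ℤ) * (j + 1) * (j + 1 - c i : ℕ) else 0) ≤
      j * (j + 1) * (j + 1) := by
    rw [← Finset.sum_filter, ← Finset.mul_sum]
    apply mul_le_mul_of_nonneg_left _ (by positivity)
    have h1 := h.defi (j + 1) (by omega)
    have h2 : ∑ i ∈ (Finset.range q).filter (fun i => R i = j + 1), (j + 1 - c i) ≤ j + 1 := by
      omega
    have h3 : ((∑ i ∈ (Finset.range q).filter (fun i => R i = j + 1), (j + 1 - c i) : ℕ) : ℤ) ≤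
      ((j + 1 : ℕ) : ℤ) := by exact_mod_cast h2
    rw [Nat.cast_sum] at h3
    push_cast at h3 ⊢
    exact h3
  have s4 : ∑ i ∈ Finset.range q,
      (if R i = j + 1 ∧ c i < j + 1 then (j : ℤ) * (j + 1) + 2 * j else 0) ≤
      2 * (j * (j + 1) + 2 * j) := by
    rw [← Finset.sum_filter, Finset.sum_const, nsmul_eq_mul]
    apply mul_le_mul_of_nonneg_right _ (by positivity)
    have h1 := h.two (j + 1) (by omega)
    exact_mod_cast h1
  rw [hsplit] at hsum
  by_contra hcon
  push Not at hcon
  have hj0 : (1 : ℤ) ≤ j := by exact_mod_cast hj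
  have e6 : ((j - 1 : ℕ) : ℤ) = j - 1 := by omega
  rw [e6] at s2
  set g := r j - L j with hg
  have h7 : 2 * g ≤ j - 1 := by omega
  have h8 : ((j : ℤ) + 1) * (j + 2) * (2 * g) ≤ (j + 1) * (j + 2) * (j - 1) :=
    mul_le_mul_of_nonneg_left h7 (by positivity)
  have h9 : (0 : ℤ) < 5 * j ^ 3 - 12 * j ^ 2 + 13 * j + 6 := by
    have : (5 * (j : ℤ) ^ 3 - 12 * j ^ 2 + 13 * j + 6) = j * (5 * j ^ 2 - 12 * j + 13) + 6 := by
      ring
    rw [this]
    have h10 : (0 : ℤ) ≤ 5 * j ^ 2 - 12 * j + 13 := by nlinarith [sq_nonneg ((j : ℤ) - 1)]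
    have := mul_nonneg (show (0 : ℤ) ≤ j by omega) h10
    linarith
  nlinarith

end

end Pool.MP_70e04f_ag
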