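import Pool.Agent.Lib_MP_70e04f_ag.Mix2

/-!
The exact filling of the rows by points of arbitrary multiplicities.
-/

namespace Pool.MP_70e04f_ag

section
variable (lam : ℕ → ℕ) (n m β : ℕ) (r : ℕ → ℤ) (hlam : Antitone lam) (hm : ∀ i, lam i ≤ m)
  (hβ : 2 * m ≤ β) (htot : 2 * ∑ s ∈ Finset.range (β + 2), r s =
    ∑ i ∈ Finset.range n, (lam i : ℤ) * (lam i + 1))
include hlam hm hβ htot

set_option linter.unusedSectionVars false

/-- Filling one more row. -/
lemma Stage.step (j q : ℕ) (R c : ℕ → ℕ) (h : Stage lam n m β r j q R c)
    (hj : 1 ≤ j) (hjβ : j ≤ β) (hr0 : r (β + 1) = 0) (hrβ : 0 ≤ r β)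
    (hslope : ∀ s, s < β → (m : ℤ) ≤ r s - r (s + 1))
    (hslope7 : ∀ s, s < 2 * m → 7 * (m : ℤ) + 1 ≤ r s - r (s + 1))
    (κ : ℤ) (hκ : ∀ s, s < m → r s - r (s + 1) = κ) :
    ∃ q' R' c', Stage lam n m β r (j - 1) q' R' c' := by
  classical
  set L : ℤ := ∑ i ∈ Finset.range n, (vp (lam i) (R i - 1) (c i) j : ℤ) with hL
  -- the deficiency of the previous row
  have hD := h.defi (j + 1) (by omega)
  set D := ∑ i ∈ (Finset.range q).filter (fun i => R i = j + 1), (j + 1 - c i) with hDdef
  have hDβ : j = β → D = 0 := by
    intro h1
    rw [hDdef, Finset.sum_filter]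
    apply Finset.sum_eq_zero
    intro i hi
    rw [Finset.mem_range] at hi
    rw [if_neg]
    have := (h.row i hi).2.1
    omega
  -- the case of small multiplicities
  have hA : lam q ≤ j → (r j - r (j + 1)) - D ≤ r j - L := by
    intro h1
    have := h.stepA lam n m β r hlam hm hβ htot j q R c h1
    linarith
  have hA7 : j < 2 * m → lam q ≤ j → 6 * (m : ℤ) + 1 ≤ r j - L := by
    intro h1 h2
    have h3 := hA h2
    have h4 := hslope7 j h1
    omega
  have hg0 : 0 ≤ r j - L := by
    rcases Nat.lt_or_ge j (2 * m) with h1 | h1
    · rcases Nat.lt_or_ge j (lam q) with h2 | h2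
      · have := h.stepB lam n m β r hlam hm hβ htot j q R c κ hκ hj h2
        omega
      · have := hA7 h1 h2
        omega
    · have h2 := hA ((hm q).trans (by omega))
      rcases Nat.eq_or_lt_of_le hjβ with h3 | h3
      · rw [hDβ h3, h3, hr0] at h2
        rw [h3]
        push_cast at h2
        omega
      · have h4 := hslope j h3
        omega
  obtain ⟨g, hg⟩ : ∃ g : ℕ, (g : ℤ) = r j - L := ⟨(r j - L).toNat, Int.toNat_of_nonneg hg0⟩
  have hmono : ∀ s, s < j → r j ≤ r s := by
    intro s hs
    have key : ∀ x, s + x ≤ β → r (s + x) ≤ r s := by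
      intro x
      induction x with
      | zero => intro _; exact le_rfl
      | succ x ih =>
        intro hx
        have h1 := ih (by omega)
        have h2 := hslope (s + x) (by omega)
        have e : s + (x + 1) = s + x + 1 := rfl
        rw [e]
        omega
    have := key (j - s) (by omega)
    rwa [show s + (j - s) = j by omega] at this
  have henough := h.enough lam n m β r hlam hm hβ htot j q R c hj hjβ hmono
  rw [← hL, ← hg] at henough
  have henough' : g ≤ ∑ i ∈ Finset.Ico q n, min j (lam i) := by exact_mod_cast henough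
  have hf : 2 * m ≤ j ∨ min j (lam q) ≤ 2 * g ∨ g = 0 := by
    rcases Nat.lt_or_ge j (2 * m) with h1 | h1
    · right; left
      rcases Nat.lt_or_ge j (lam q) with h2 | h2
      · have := h.stepB lam n m β r hlam hm hβ htot j q R c κ hκ hj h2
        omega
      · have := hA7 h1 h2
        have := hm q
        omega
    · exact Or.inl h1
  obtain ⟨q', d, g1, g2, g3, g4, g5, g6, g7⟩ := row_fill (fun i => min j (lam i))
    (fun a b hab => by have := hlam hab; simp only; omega) q n h.hq g henough' (2 * m ≤ j) hf
  set R' : ℕ → ℕ := fun i => if q ≤ i ∧ i < q' then j else R i with hR'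
  set c' : ℕ → ℕ := fun i => if q ≤ i ∧ i < q' then j - d i else c i with hc'
  have hRold : ∀ i, i < q → R' i = R i ∧ c' i = c i := by
    intro i hi
    simp only [hR', hc']
    rw [if_neg (by omega), if_neg (by omega)]
    exact ⟨rfl, rfl⟩
  have hRnew : ∀ i, q ≤ i → i < q' → R' i = j ∧ c' i = j - d i := by
    intro i hi hi'
    simp only [hR', hc']
    rw [if_pos ⟨hi, hi'⟩, if_pos ⟨hi, hi'⟩]
    exact ⟨rfl, rfl⟩
  have hRrest : ∀ i, q' ≤ i → R' i = 1 ∧ c' i = 0 := by
    intro i hi
    simp only [hR', hc']
    rw [if_neg (by omega), if_neg (by omega)]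
    exact h.un i (by omega)
  refine ⟨q', R', c', ?_, hRrest, ?_, ?_, ?_, ?_, ?_, ?_⟩
  · exact g2
  · intro i hi
    rcases Nat.lt_or_ge i q with h1 | h1
    · rw [(hRold i h1).1, (hRold i h1).2]
      have := h.row i h1
      omega
    · rw [(hRnew i h1 hi).1, (hRnew i h1 hi).2]
      have := g3 i
      omega
  · intro i hi
    rcases Nat.lt_or_ge i q with h1 | h1
    · rw [(hRold i h1).1, (hRold i h1).2]
      exact h.half i h1
    · rw [(hRnew i h1 hi).1, (hRnew i h1 hi).2]
      have h3 := g3 i
      have h4 := hm i
      rcases g4 with g4 | g4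
      · right; omega
      · left
        have := g4 i
        omega
  · -- at most two incomplete points
    intro B hB
    rcases Nat.eq_or_lt_of_le (show j ≤ B by omega) with h1 | h1
    · subst h1
      refine (Finset.card_le_card ?_).trans g6
      intro i hi
      rw [Finset.mem_filter, Finset.mem_range] at hi
      rw [Finset.mem_filter, Finset.mem_Ico]
      have h2 : q ≤ i := by
        by_contra hcon
        have h3 := (hRold i (by omega)).1
        have h4 := (h.row i (by omega)).1
        omega
      have h3 := (hRnew i h2 hi.1).2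
      exact ⟨⟨h2, hi.1⟩, by omega⟩
    · refine (Finset.card_le_card ?_).trans (h.two B h1)
      intro i hi
      rw [Finset.mem_filter, Finset.mem_range] at hi
      rw [Finset.mem_filter, Finset.mem_range]
      have h2 : i < q := by
        by_contra hcon
        have h3 := (hRnew i (by omega) hi.1).1
        omega
      rw [(hRold i h2).1, (hRold i h2).2] at hi
      exact ⟨h2, hi.2⟩
  · -- the deficiencies
    intro B hB
    rcases Nat.eq_or_lt_of_le (show j ≤ B by omega) with h1 | h1
    · subst h1
      have e1 : (Finset.range q').filter (fun i => R' i = j) = Finset.Ico q q' := by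
        ext i
        rw [Finset.mem_filter, Finset.mem_range, Finset.mem_Ico]
        constructor
        · rintro ⟨h2, h3⟩
          refine ⟨?_, h2⟩
          by_contra hcon
          have h4 := (hRold i (by omega)).1
          have h5 := (h.row i (by omega)).1
          omega
        · rintro ⟨h2, h3⟩
          exact ⟨h3, (hRnew i h2 h3).1⟩
      rw [e1]
      have e2 : ∑ i ∈ Finset.Ico q q', (j - c' i) = ∑ i ∈ Finset.Ico q q', d i := by
        refine Finset.sum_congr rfl fun i hi => ?_
        rw [Finset.mem_Ico] at hi
        rw [(hRnew i hi.1 hi.2).2]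
        have := g3 i
        omega
      rw [e2]
      refine g7.trans ?_
      have := hm q
      omega
    · have e1 : (Finset.range q').filter (fun i => R' i = B) =
          (Finset.range q).filter (fun i => R i = B) := by
        ext i
        rw [Finset.mem_filter, Finset.mem_filter, Finset.mem_range, Finset.mem_range]
        constructor
        · rintro ⟨h2, h3⟩
          have h4 : i < q := by
            by_contra hcon
            have := (hRnew i (by omega) h2).1
            omega
          rw [(hRold i h4).1] at h3
          exact ⟨h4, h3⟩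
        · rintro ⟨h2, h3⟩
          refine ⟨by omega, ?_⟩
          rw [(hRold i h2).1]
          exact h3
      rw [e1]
      refine le_trans (le_of_eq ?_) (h.defi B h1)
      refine Finset.sum_congr rfl fun i hi => ?_
      rw [Finset.mem_filter, Finset.mem_range] at hi
      rw [(hRold i hi.1).2]
  · -- exactness
    intro s hs
    rcases Nat.eq_or_lt_of_le (show j ≤ s by omega) with h1 | h1
    · subst h1
      have e1 : ∑ i ∈ Finset.range n, (vp (lam i) (R' i - 1) (c' i) j : ℤ) = L + g := by
        have e2 : (g : ℤ) = ∑ i ∈ Finset.range n,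
            if q ≤ i ∧ i < q' then ((min j (lam i) - d i : ℕ) : ℤ) else 0 := by
          rw [← g5, ← Finset.sum_filter]
          push_cast
          refine Finset.sum_congr ?_ fun _ _ => rfl
          ext i
          rw [Finset.mem_filter, Finset.mem_Ico, Finset.mem_range]
          omega
        rw [e2, hL, ← Finset.sum_add_distrib]
        refine Finset.sum_congr rfl fun i _ => ?_
        rcases Nat.lt_or_ge i q with h2 | h2
        · rw [(hRold i h2).1, (hRold i h2).2, if_neg (by omega), add_zero]
        · rcases Nat.lt_or_ge i q' with h3 | h3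
          · rw [(hRnew i h2 h3).1, (hRnew i h2 h3).2, if_pos ⟨h2, h3⟩, (h.un i h2).1,
              (h.un i h2).2]
            have h4 := g3 i
            unfold vp
            split_ifs <;> omega
          · rw [(hRrest i h3).1, (hRrest i h3).2, if_neg (by omega), add_zero, (h.un i h2).1,
              (h.un i h2).2]
      rw [e1]
      linarith
    · rw [← h.exact s h1]
      refine Finset.sum_congr rfl fun i _ => ?_
      rcases Nat.lt_or_ge i q with h2 | h2
      · rw [(hRold i h2).1, (hRold i h2).2]
      · rcases Nat.lt_or_ge i q' with h3 | h3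
        · rw [(hRnew i h2 h3).1, (hRnew i h2 h3).2, (h.un i h2).1, (h.un i h2).2]
          unfold vp
          split_ifs <;> omega
        · rw [(hRrest i h3).1, (hRrest i h3).2, (h.un i h2).1, (h.un i h2).2]
  · -- the crossings
    intro t ht htm hcr
    rcases Nat.lt_or_ge j (t + lam q) with h1 | h1
    · refine (h.cross t ht htm h1).trans (Finset.card_le_card ?_)
      intro i hi
      rw [Finset.mem_filter, Finset.mem_range] at hi
      rw [Finset.mem_filter, Finset.mem_range, (hRold i hi.1).1]
      exact ⟨by omega, hi.2⟩
    · have h2 : lam q' ≤ lam q := hlam g1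
      have h3 : lam q' = lam q := by omega
      have h4 : j = t + lam q := by omega
      have h5 : lam q ≤ m := hm q
      have h6 := hA7 (by omega) (by omega)
      rw [← hg] at h6
      have h7 : ∀ i ∈ Finset.Ico q q', lam i = lam q := by
        intro i hi
        rw [Finset.mem_Ico] at hi
        have := hlam hi.1
        have := hlam hi.2.le
        omega
      have h8 : g ≤ (q' - q) * m := by
        rw [← g5]
        have h9 : ∀ i ∈ Finset.Ico q q', min j (lam i) - d i ≤ m := by
          intro i _
          have := hm i
          omega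
        refine (Finset.sum_le_sum h9).trans ?_
        rw [Finset.sum_const, Nat.card_Ico, smul_eq_mul]
      have h9 : 7 ≤ q' - q := by
        by_contra hcon
        have h10 : (q' - q) * m ≤ 6 * m := Nat.mul_le_mul_right m (by omega)
        omega
      have h10 : Finset.Ico q q' ⊆ (Finset.range q').filter (fun i => R' i = lam i + t) := by
        intro i hi
        have h11 := h7 i hi
        rw [Finset.mem_Ico] at hi
        rw [Finset.mem_filter, Finset.mem_range, (hRnew i hi.1 hi.2).1, h11]
        exact ⟨hi.2, by omega⟩
      have h11 := Finset.card_le_card h10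
      rw [Nat.card_Ico] at h11
      omega

/-- The exact filling of a profile by points of arbitrary multiplicities. -/
theorem mix_fill (hr : ∀ s, β < s → r s = 0) (hrβ : 0 ≤ r β)
    (hslope : ∀ s, s < β → (m : ℤ) ≤ r s - r (s + 1))
    (hslope7 : ∀ s, s < 2 * m → 7 * (m : ℤ) + 1 ≤ r s - r (s + 1))
    (κ : ℤ) (hκ : ∀ s, s < m → r s - r (s + 1) = κ) :
    ∃ b c : ℕ → ℕ, (∀ i, c i ≤ b i + 1) ∧ (∀ i, b i ≤ β) ∧
      ∀ s, ∑ i ∈ Finset.range n, (vp (lam i) (b i) (c i) s : ℤ) = r s := by
  have key : ∀ x ≤ β, ∃ q R c, Stage lam n m β r (β - x) q R c := by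
    intro x
    induction x with
    | zero =>
      intro _
      refine ⟨0, fun _ => 1, fun _ => 0, Nat.zero_le n, fun _ _ => ⟨rfl, rfl⟩,
        fun i hi => absurd hi (Nat.not_lt_zero i), fun i hi => absurd hi (Nat.not_lt_zero i),
        fun B _ => by simp, fun B _ => by simp, ?_, ?_⟩
      · intro s hs
        rw [hr s (by omega)]
        apply Finset.sum_eq_zero
        intro i _
        have := hm i
        unfold vp
        split_ifs <;> omega
      · intro t _ h1 h2
        have := hm 0
        omega
    | succ x ih =>
      intro hx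
      obtain ⟨q, R, c, h⟩ := ih (by omega)
      obtain ⟨q', R', c', h'⟩ := h.step lam n m β r hlam hm hβ htot (β - x) q R c (by omega)
        (by omega) (hr (β + 1) (by omega)) hrβ hslope hslope7 κ hκ
      refine ⟨q', R', c', ?_⟩
      rwa [show β - (x + 1) = β - x - 1 by omega]
  obtain ⟨q, R, c, h⟩ := key β le_rfl
  rw [Nat.sub_self] at h
  refine ⟨fun i => R i - 1, c, ?_, ?_, ?_⟩
  · intro i
    rcases Nat.lt_or_ge i q with h1 | h1
    · have := h.row i h1
      simp only
      omega
    · rw [(h.un i h1).2]; omega
  · intro i
    rcases Nat.lt_or_ge i q with h1 | h1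
    · have := h.row i h1
      simp only
      omega
    · simp only
      rw [(h.un i h1).1]; omega
  · intro s
    rcases Nat.eq_zero_or_pos s with h0 | h0
    · subst h0
      have h1 := h.total lam n m β r hlam hm hβ htot 0 q R c
      rw [show β + 2 = (β + 1) + 1 from rfl, Finset.sum_range_succ', Finset.sum_range_succ' r] at h1
      have h2 : ∑ s ∈ Finset.range (β + 1), ∑ i ∈ Finset.range n,
          (vp (lam i) (R i - 1) (c i) (s + 1) : ℤ) = ∑ s ∈ Finset.range (β + 1), r (s + 1) :=
        Finset.sum_congr rfl fun s _ => h.exact (s + 1) (by omega)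
      linarith
    · exact h.exact s h0

end

end Pool.MP_70e04f_ag
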