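import Pool.Agent.Lib_MP_70e04f_ag.FrontPot

/-!
The sizes of the rows, and the truncated ramp.
-/

namespace Pool.MP_70e04f_ag

lemma S_step_ge (k w : ℕ) (h : k ≤ w) : 2 * S k (w - k) + k * (k + 1) ≤ 2 * S k w := by
  have h1 := sum_sub_range k k le_rfl
  have h2 : S k (w - k) + ∑ r ∈ Finset.range k, (k - r) ≤ S k w := by
    unfold S
    rw [← Finset.sum_add_distrib]
    apply Finset.sum_le_sum
    intro r hr
    rw [Finset.mem_range] at hr
    omega
  omega

lemma S_step_eq (k w : ℕ) (h : 2 * k ≤ w + 1) : S k w = S k (w - k) + k ^ 2 := by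
  unfold S
  have h1 : ∀ r ∈ Finset.range k, w - r = (w - k - r) + k := by
    intro r hr
    rw [Finset.mem_range] at hr
    omega
  rw [Finset.sum_congr rfl h1, Finset.sum_add_distrib, Finset.sum_const, Finset.card_range,
    smul_eq_mul, sq]

section
variable (k N : ℕ) (hk : 0 < k)
include hk

lemma nrow_step_ge (j : ℕ) (h : k * (j + 1) ≤ N) :
    k * (k + 1) + 2 * nrow k N (j + 1) ≤ 2 * nrow k N j := by
  rw [nrow_eq k N j hk, nrow_eq k N (j + 1) hk]
  have h1 : k * (j + 1) = k * j + k := by ring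
  have h2 := S_step_ge k (N - k * j) (by omega)
  have h3 : N - k * (j + 1) = N - k * j - k := by omega
  rw [h3]
  omega

lemma nrow_step_eq (j : ℕ) (h : k * (j + 2) ≤ N + 1) :
    nrow k N j = nrow k N (j + 1) + k ^ 2 := by
  rw [nrow_eq k N j hk, nrow_eq k N (j + 1) hk]
  have h1 : k * (j + 1) = k * j + k := by ring
  have h4 : k * (j + 2) = k * j + 2 * k := by ring
  have h2 := S_step_eq k (N - k * j) (by omega)
  have h3 : N - k * (j + 1) = N - k * j - k := by omega
  rw [h3]
  exact h2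

/-- The total of the rows. -/
lemma sum_nrow_range (L : ℕ) (hL : N ≤ k * L) :
    2 * ∑ j ∈ Finset.range L, nrow k N j = N * (N + 1) := by
  have h1 := sum_nrow k N
  have h2 := two_card_tri N
  have h3 : ∑ j ∈ Finset.range L, nrow k N j = ∑ j ∈ Finset.range (L + N), nrow k N j := by
    apply Finset.sum_subset (Finset.range_subset_range.2 (by omega))
    intro j _ hj
    rw [Finset.mem_range, not_lt] at hj
    apply nrow_eq_zero k N j hk
    exact hL.trans (Nat.mul_le_mul_left k hj)
  have h4 : ∑ j ∈ Finset.range N, nrow k N j = ∑ j ∈ Finset.range (L + N), nrow k N j := by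
    apply Finset.sum_subset (Finset.range_subset_range.2 (by omega))
    intro j _ hj
    rw [Finset.mem_range, not_lt] at hj
    apply nrow_eq_zero k N j hk
    exact hj.trans (Nat.le_mul_of_pos_left j hk)
  omega

lemma nrow_shift (x j : ℕ) : nrow k N (x + j) = nrow k (N - k * x) j := by
  rw [nrow_eq k N _ hk, nrow_eq k _ j hk]
  congr 1
  rw [Nat.mul_add]
  omega

/-- The total of the first rows. -/
lemma sum_nrow_low (x L : ℕ) (hx : x ≤ L) (hL : N ≤ k * L) :
    2 * ∑ j ∈ Finset.range x, nrow k N j + (N - k * x) * (N - k * x + 1) = N * (N + 1) := by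
  obtain ⟨y, rfl⟩ := Nat.exists_eq_add_of_le hx
  have h1 := sum_nrow_range k N hk (x + y) hL
  rw [Finset.sum_range_add] at h1
  have h2 : ∀ j ∈ Finset.range y, nrow k N (x + j) = nrow k (N - k * x) j :=
    fun j _ => nrow_shift k N hk x j
  have h3 := sum_nrow_range k (N - k * x) hk y (by rw [Nat.mul_add] at hL; omega)
  have h4 : ∑ j ∈ Finset.range y, nrow k N (x + j) =
      ∑ j ∈ Finset.range y, nrow k (N - k * x) j := Finset.sum_congr rfl h2
  omega

end

/-- The truncated ramp: the ramp of height `ν` with peak at `b0`, and one more unit in the last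
`p` rows. -/
def ramp (b0 ν p j : ℕ) : ℕ :=
  if j ≤ b0 then (ν + j - b0) + (if b0 < j + p then 1 else 0) else 0

lemma exists_tri (t : ℕ) : ∃ ν p : ℕ, p ≤ ν ∧ 2 * t = ν * (ν + 1) + 2 * p := by
  induction t with
  | zero => exact ⟨0, 0, le_rfl, rfl⟩
  | succ t ih =>
    obtain ⟨ν, p, h1, h2⟩ := ih
    rcases Nat.eq_or_lt_of_le h1 with h | h
    · refine ⟨ν + 1, 0, Nat.zero_le _, ?_⟩
      subst h
      nlinarith
    · exact ⟨ν, p + 1, h, by omega⟩

section
variable (b0 ν p μ : ℕ) (hp : p ≤ ν) (hν : ν < μ) (hb : μ ≤ b0)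
include hp hν hb

set_option linter.unusedSectionVars false

lemma ramp_mono (j : ℕ) (hj : j + 1 ≤ b0) : ramp b0 ν p j ≤ ramp b0 ν p (j + 1) := by
  unfold ramp
  rw [if_pos (show j ≤ b0 by omega), if_pos hj]
  split_ifs <;> omega

lemma ramp_low (j : ℕ) (hj : j + μ ≤ b0) : ramp b0 ν p j = 0 := by
  unfold ramp
  split_ifs <;> omega

lemma ramp_le (j : ℕ) : ramp b0 ν p j ≤ μ := by
  unfold ramp
  split_ifs <;> omega

lemma ramp_le_vp (j : ℕ) : ramp b0 ν p j ≤ vp μ b0 0 j := by
  unfold ramp vp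
  split_ifs <;> omega

lemma sum_ramp (L : ℕ) (hL : b0 + 2 ≤ L) :
    2 * ∑ j ∈ Finset.range L, ramp b0 ν p j = ν * (ν + 1) + 2 * p := by
  have h1 : ∀ j ∈ Finset.range L, ramp b0 ν p j = vp ν b0 0 j +
      (if b0 - p < j ∧ j ≤ b0 then 1 else 0) := by
    intro j _
    unfold ramp vp
    split_ifs <;> omega
  rw [Finset.sum_congr rfl h1, Finset.sum_add_distrib, mul_add, sum_vp ν b0 0 L (by omega) hL
    (by omega), ← Finset.sum_filter, Finset.sum_const, smul_eq_mul, mul_one]
  have h2 : Finset.filter (fun j => b0 - p < j ∧ j ≤ b0) (Finset.range L) =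
      Finset.Ioc (b0 - p) b0 := by
    ext j
    rw [Finset.mem_filter, Finset.mem_range, Finset.mem_Ioc]
    omega
  rw [h2, Nat.card_Ioc]
  omega

end

end Pool.MP_70e04f_ag
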