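import Pool.Agent.Lib_MP_70e04f_ag.Mix4

/-!
The final statement for arbitrary multiplicities.
-/

open MvPolynomial

namespace Pool.MP_70e04f_ag

/-- The expected dimension in large degree. -/
theorem mainMix (n k m d : ℕ) (hk7 : 7 * m < k ^ 2) (mm : Fin n → ℕ)
    (hmm : ∀ i, mm i ≤ m) (hd : k * (2 * m + 1) ≤ d + 1) :
    ∃ g : MvPolynomial (Fin n × Fin 2) ℂ, g ≠ 0 ∧
      ∀ p : Fin n → Fin 2 → ℂ,
        MvPolynomial.eval (fun q : Fin n × Fin 2 => p q.1 q.2) g ≠ 0 →
          ((2 : ℤ) * ((Module.finrank ℂ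
              ↥(MvPolynomial.restrictTotalDegree (Fin 2) ℂ d ⊓
                ⨅ i : Fin n, Submodule.restrictScalars ℂ
                  ((RingHom.ker (MvPolynomial.eval (p i)) :
                      Ideal (MvPolynomial (Fin 2) ℂ)) ^ mm i)) : ℕ) : ℤ)
            = max 0 (((d : ℤ) + 1) * ((d : ℤ) + 2) -
                ∑ i, (mm i : ℤ) * ((mm i : ℤ) + 1))) := by
  apply generic_of_real
  have hk : 0 < k := by
    rcases Nat.eq_zero_or_pos k with h | h
    · subst h; simp at hk7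
    · exact h
  obtain ⟨b, c, g1, g2, g3⟩ := main_mix k (d + 1) m n mm hk7 hmm hd
  obtain ⟨u, hu⟩ := good_of_front k (d + 1) hk mm b c g1 g2 g3
  exact real_of_good k (d + 1) mm hk xpos u hu

/-- The expected dimension in large degree, or for many conditions. -/
theorem mainMix' (n k m d : ℕ) (hk7 : 7 * m < k ^ 2) (mm : Fin n → ℕ)
    (hmm : ∀ i, mm i ≤ m) (hd : k * (2 * m + 1) ≤ d + 1 ∨
      k * (2 * m + 1) * (k * (2 * m + 1) + 1) ≤ ∑ i, mm i * (mm i + 1)) :
    ∃ g : MvPolynomial (Fin n × Fin 2) ℂ, g ≠ 0 ∧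
      ∀ p : Fin n → Fin 2 → ℂ,
        MvPolynomial.eval (fun q : Fin n × Fin 2 => p q.1 q.2) g ≠ 0 →
          ((2 : ℤ) * ((Module.finrank ℂ
              ↥(MvPolynomial.restrictTotalDegree (Fin 2) ℂ d ⊓
                ⨅ i : Fin n, Submodule.restrictScalars ℂ
                  ((RingHom.ker (MvPolynomial.eval (p i)) :
                      Ideal (MvPolynomial (Fin 2) ℂ)) ^ mm i)) : ℕ) : ℤ)
            = max 0 (((d : ℤ) + 1) * ((d : ℤ) + 2) -
                ∑ i, (mm i : ℤ) * ((mm i : ℤ) + 1))) := by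
  have hk : 0 < k := by
    rcases Nat.eq_zero_or_pos k with h | h
    · subst h; simp at hk7
    · exact h
  rcases Nat.lt_or_ge (d + 1) (k * (2 * m + 1)) with hlt | hge
  · have hT : k * (2 * m + 1) * (k * (2 * m + 1) + 1) ≤ ∑ i, mm i * (mm i + 1) := by
      rcases hd with h | h
      · omega
      · exact h
    set N := k * (2 * m + 1) with hN
    obtain ⟨g, hg0, hg⟩ := mainMix n k m (N - 1) hk7 mm hmm (by omega)
    refine ⟨g, hg0, fun p hp => ?_⟩
    have h1 := hg p hp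
    have hT' : ((N * (N + 1) : ℕ) : ℤ) ≤ ∑ i, (mm i : ℤ) * ((mm i : ℤ) + 1) := by
      have : ((N * (N + 1) : ℕ) : ℤ) ≤ ((∑ i, mm i * (mm i + 1) : ℕ) : ℤ) := by exact_mod_cast hT
      push_cast at this ⊢
      exact this
    have e1 : ((N - 1 : ℕ) : ℤ) = N - 1 := by omega
    rw [e1] at h1
    have e2 : ((N : ℤ) - 1 + 1) * ((N : ℤ) - 1 + 2) -
        ∑ i, (mm i : ℤ) * ((mm i : ℤ) + 1) ≤ 0 := by
      push_cast at hT'
      linarith
    rw [max_eq_left e2] at h1
    have hle : MvPolynomial.restrictTotalDegree (Fin 2) ℂ d ⊓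
        ⨅ i : Fin n, Submodule.restrictScalars ℂ
          ((RingHom.ker (MvPolynomial.eval (p i)) :
            Ideal (MvPolynomial (Fin 2) ℂ)) ^ mm i) ≤
        MvPolynomial.restrictTotalDegree (Fin 2) ℂ (N - 1) ⊓
        ⨅ i : Fin n, Submodule.restrictScalars ℂ
          ((RingHom.ker (MvPolynomial.eval (p i)) :
            Ideal (MvPolynomial (Fin 2) ℂ)) ^ mm i) := by
      apply inf_le_inf_right
      intro f hf
      rw [MvPolynomial.mem_restrictTotalDegree] at hf ⊢
      omega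
    have : Module.Finite ℂ ↥(MvPolynomial.restrictTotalDegree (Fin 2) ℂ (N - 1) ⊓
        ⨅ i : Fin n, Submodule.restrictScalars ℂ
          ((RingHom.ker (MvPolynomial.eval (p i)) :
            Ideal (MvPolynomial (Fin 2) ℂ)) ^ mm i)) :=
      Submodule.finiteDimensional_inf_left _ _
    have h2 := Submodule.finrank_mono hle
    have e3 : ((d : ℤ) + 1) * ((d : ℤ) + 2) -
        ∑ i, (mm i : ℤ) * ((mm i : ℤ) + 1) ≤ 0 := by
      have h3 : (d + 1) * (d + 2) ≤ N * (N + 1) := Nat.mul_le_mul (by omega) (by omega)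
      have h4 : (((d + 1) * (d + 2) : ℕ) : ℤ) ≤ ((N * (N + 1) : ℕ) : ℤ) := by exact_mod_cast h3
      push_cast at h4 hT'
      linarith
    rw [max_eq_left e3]
    omega
  · exact mainMix n k m d hk7 mm hmm hge

end Pool.MP_70e04f_ag
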