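import Pool.Agent.Lib_MP_70e04f_ag.Degen
import Pool.Agent.Lib_MP_70e04f_ag.Elim

/-!
The limit system is spanned by monomials; its dimension is computed by the elimination lemma.
-/

namespace Pool.MP_70e04f_ag

open Polynomial

/-- The number of basis elements in row `j`. -/
def nrow (k N j : ℕ) : ℕ := ((tri N).filter (fun q => q.1 / k = j)).card

/-- The rows of a coefficient vector. -/
noncomputable def rowPoly (k N : ℕ) (v : ↥(tri N) → ℝ) (j : ℕ) : ℝ[X] :=
  ∑ q : ↥(tri N), if q.1.1 / k = j then C (v q) * X ^ (q.1.1 % k + k * q.1.2) else 0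

lemma taylor_rowPoly (k N : ℕ) (v : ↥(tri N) → ℝ) (j : ℕ) (x : ℝ) (α : ℕ) :
    (taylor x (rowPoly k N v j)).coeff α = ∑ q : ↥(tri N), if q.1.1 / k = j then
      v q * ((X + C x) ^ (q.1.1 % k + k * q.1.2) : ℝ[X]).coeff α else 0 := by
  rw [rowPoly, map_sum, Polynomial.finsetSum_coeff]
  refine Finset.sum_congr rfl fun q _ => ?_
  split_ifs with h
  · rw [Polynomial.taylor_apply, mul_comp, C_comp, pow_comp, X_comp, coeff_C_mul]
  · simp

lemma degMat_zero_mulVec {n : ℕ} (k N : ℕ) (m : Fin n → ℕ) (x u : Fin n → ℝ)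
    (v : ↥(tri N) → ℝ) (c : Σ i : Fin n, ↥(tri (m i))) :
    (degMat k N m x u 0).mulVec v c = ∑ j ∈ Finset.range N,
      (taylor (x c.1) (rowPoly k N v j)).coeff c.2.1.1 *
        ((X + C (u c.1)) ^ j : ℝ[X]).coeff c.2.1.2 := by
  have h1 : ∀ q : ↥(tri N), degMat k N m x u 0 c q =
      ec (x c.1) (u c.1) (q.1.1 % k + k * q.1.2) (q.1.1 / k) c.2.1.1 c.2.1.2 := by
    intro q
    unfold degMat
    rw [Finset.sum_eq_single 0]
    · simp
    · intro t _ ht
      rw [zero_pow ht]; simp
    · intro h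
      exact absurd (Finset.mem_range.2 (Nat.succ_pos _)) h
  have h2 : (degMat k N m x u 0).mulVec v c = ∑ q : ↥(tri N), degMat k N m x u 0 c q * v q := rfl
  rw [h2]
  simp only [taylor_rowPoly, Finset.sum_mul]
  rw [Finset.sum_comm]
  refine Finset.sum_congr rfl fun q _ => ?_
  rw [h1, Finset.sum_eq_single (q.1.1 / k)]
  · rw [if_pos rfl]; unfold ec; ring
  · intro j _ hj
    rw [if_neg (Ne.symm hj), zero_mul]
  · intro h
    exfalso
    apply h
    rw [Finset.mem_range]
    have := mem_tri.1 q.2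
    have := Nat.div_le_self q.1.1 k
    omega

lemma rowPoly_eq_zero (k N : ℕ) (v : ↥(tri N) → ℝ) (j : ℕ) (hj : N ≤ j) :
    rowPoly k N v j = 0 := by
  rw [rowPoly]
  apply Finset.sum_eq_zero
  intro q _
  rw [if_neg]
  intro h
  have := mem_tri.1 q.2
  have := Nat.div_le_self q.1.1 k
  omega

lemma card_support_rowPoly (k N : ℕ) (v : ↥(tri N) → ℝ) (j : ℕ) :
    (rowPoly k N v j).support.card ≤ nrow k N j := by
  classical
  unfold nrow
  have hsub : (rowPoly k N v j).support ⊆
      ((tri N).filter (fun q => q.1 / k = j)).image (fun q => q.1 % k + k * q.2) := by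
    intro s hs
    rw [Polynomial.mem_support_iff, rowPoly, Polynomial.finsetSum_coeff] at hs
    obtain ⟨q, _, hq⟩ := Finset.exists_ne_zero_of_sum_ne_zero hs
    rw [Finset.mem_image]
    by_cases h : q.1.1 / k = j
    · refine ⟨q.1, Finset.mem_filter.2 ⟨q.2, h⟩, ?_⟩
      rw [if_pos h, coeff_C_mul, coeff_X_pow] at hq
      by_contra hne
      apply hq
      rw [if_neg (fun h' => hne h'.symm), mul_zero]
    · rw [if_neg h] at hq
      simp at hq
  exact (Finset.card_le_card hsub).trans Finset.card_image_le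

lemma coeff_rowPoly (k N : ℕ) (hk : 0 < k) (v : ↥(tri N) → ℝ) (q : ↥(tri N)) :
    (rowPoly k N v (q.1.1 / k)).coeff (q.1.1 % k + k * q.1.2) = v q := by
  rw [rowPoly, Polynomial.finsetSum_coeff, Finset.sum_eq_single q]
  · rw [if_pos rfl, coeff_C_mul, coeff_X_pow, if_pos rfl, mul_one]
  · intro r _ hr
    split_ifs with h
    · rw [coeff_C_mul, coeff_X_pow, if_neg, mul_zero]
      intro he
      apply hr
      have hm : r.1.1 % k = q.1.1 % k := by
        have h1 : (q.1.1 % k + k * q.1.2) % k = q.1.1 % k := by simp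
        have h2 : (r.1.1 % k + k * r.1.2) % k = r.1.1 % k := by simp
        rw [← h1, he, h2]
      have hb : r.1.2 = q.1.2 := by
        rw [hm] at he
        have : k * q.1.2 = k * r.1.2 := by omega
        exact (Nat.eq_of_mul_eq_mul_left hk this).symm
      have ha : r.1.1 = q.1.1 := by
        rw [← Nat.div_add_mod r.1.1 k, ← Nat.div_add_mod q.1.1 k, h, hm]
      exact Subtype.ext (Prod.ext ha hb)
    · simp
  · intro h; exact absurd (Finset.mem_univ q) h

/-- The dimension of the limit system. -/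
theorem finrank_degMat_zero_le {n : ℕ} (k N : ℕ) (hk : 0 < k) (m : Fin n → ℕ)
    (A B : Finset (Fin n)) (hAB : Disjoint A B) (M jst : ℕ)
    (hA : ∀ i ∈ A, M + 1 ≤ m i) (hB : ∀ i ∈ B, M ≤ m i) (t : ℕ → ℕ)
    (H1 : ∀ j < M, nrow k N j ≤ (∑ i ∈ (A ∪ B)ᶜ, (m i - j)) + t j +
      (M - 1 - j) * B.card + (M - j) * A.card)
    (H2 : ∀ j, M ≤ j → j ≠ jst → nrow k N j ≤ (∑ i ∈ (A ∪ B)ᶜ, (m i - j)) + t j)
    (H3 : nrow k N jst ≤ (∑ i ∈ (A ∪ B)ᶜ, (m i - jst)) + t jst + (M + 1) * A.card +
      M * B.card) :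
    Module.finrank ℝ (LinearMap.ker (degMat k N m (fun i : Fin n => ((i : ℕ) : ℝ) + 2)
      (fun i => if i ∈ A ∪ B then 1 else 0) 0).mulVecLin) ≤ ∑ j ∈ Finset.range N, t j := by
  classical
  let θ : (↥(tri N) → ℝ) →ₗ[ℝ] ((Σ j : Fin N, Fin (t j)) → ℝ) :=
    { toFun := fun v c => (taylor 1 (rowPoly k N v c.1)).coeff c.2
      map_add' := by
        intro v w
        funext c
        simp only [taylor_rowPoly, Pi.add_apply]
        rw [← Finset.sum_add_distrib]
        refine Finset.sum_congr rfl fun q _ => ?_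
        split_ifs <;> ring
      map_smul' := by
        intro a v
        funext c
        simp only [taylor_rowPoly, Pi.smul_apply, smul_eq_mul, RingHom.id_apply, Finset.mul_sum]
        refine Finset.sum_congr rfl fun q _ => ?_
        split_ifs <;> ring }
  have hcard : Fintype.card (Σ j : Fin N, Fin (t j)) = ∑ j ∈ Finset.range N, t j := by
    rw [Fintype.card_sigma, Finset.sum_range]
    simp
  rw [← hcard]
  apply finrank_ker_le _ θ
  intro v hv hθ
  have hT : ∀ j, rowPoly k N v j = 0 := by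
    apply elim (fun i : Fin n => ((i : ℕ) : ℝ) + 2) (fun i => by positivity) ?_ 1 one_pos ?_ m
      ((A ∪ B)ᶜ) A B ?_ ?_ hAB M jst hA hB (rowPoly k N v) N
      (fun j hj => rowPoly_eq_zero k N v j hj) (nrow k N) t (card_support_rowPoly k N v) ?_ ?_ ?_
      H1 H2 H3
    · intro i j hij
      have : ((i : ℕ) : ℝ) = ((j : ℕ) : ℝ) := by simpa using hij
      exact Fin.ext (Nat.cast_injective this)
    · intro i h
      have : (0 : ℝ) ≤ ((i : ℕ) : ℝ) := Nat.cast_nonneg _
      have h' : ((i : ℕ) : ℝ) + 2 = 1 := h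
      linarith
    · rw [Finset.disjoint_left]
      intro i hi hi'
      rw [Finset.mem_compl] at hi
      exact hi (Finset.mem_union_left _ hi')
    · rw [Finset.disjoint_left]
      intro i hi hi'
      rw [Finset.mem_compl] at hi
      exact hi (Finset.mem_union_right _ hi')
    · intro i hi j
      rw [pow_dvd_iff_taylor]
      intro d hd
      have hc := congrFun hv ⟨i, ⟨(d, j), mem_tri.2 (by show d + j < m i; omega)⟩⟩
      rw [degMat_zero_mulVec] at hc
      simp only [Pi.zero_apply] at hc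
      rw [if_neg (Finset.mem_compl.1 hi)] at hc
      simp only [C_0, add_zero, coeff_X_pow, mul_ite, mul_one, mul_zero] at hc
      rw [Finset.sum_ite_eq] at hc
      split_ifs at hc with h
      · exact hc
      · rw [Finset.mem_range, not_lt] at h
        rw [rowPoly_eq_zero k N v j h]; simp
    · intro i hi al be hab
      have hc := congrFun hv ⟨i, ⟨(al, be), mem_tri.2 hab⟩⟩
      rw [degMat_zero_mulVec] at hc
      simp only [Pi.zero_apply] at hc
      rw [if_pos (Finset.mem_union.2 hi)] at hc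
      exact hc
    · intro j
      rw [pow_dvd_iff_taylor]
      intro d hd
      by_cases hj : j < N
      · exact congrFun hθ ⟨⟨j, hj⟩, ⟨d, hd⟩⟩
      · rw [rowPoly_eq_zero k N v j (by omega)]; simp
  funext q
  rw [← coeff_rowPoly k N hk v q, hT]
  simp

end Pool.MP_70e04f_ag
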