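import Pool.Agent.Lib_MP_70e04f_ag.General

/-!
The patterns used in the certificates.
-/

namespace Pool.MP_70e04f_ag

/-- The pattern of a point tending to the curve at infinity, when the top row is `M0`. -/
def treg (M0 μ j : ℕ) : ℕ := if j ≤ M0 then μ + j - M0 else 0

/-- The pattern `(M0; M0 - 1, …, 1, 0)` on the rows `M0; 0, 1, …, M0 - 1`. -/
def zpat (M0 j : ℕ) : ℕ := if j = M0 then M0 else M0 - 1 - j

/-- The pattern of the point exhausting row `0`. -/
def bstar (M e j : ℕ) : ℕ := if j = 0 then M - e else if j ≤ e then M + 1 - j else M - j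

/-- The pattern of the point exhausting row `M + 1`. -/
def tstar (M e j : ℕ) : ℕ :=
  if j = M + 1 then e else if j ≤ M then (if e < j then j else j - 1) else 0

lemma patOK_breg (μ : ℕ) : PatOK μ (fun j => μ - j) := by
  intro l F hF
  have : F ⊆ Finset.range (μ - l) := by
    intro j hj
    have := hF j hj
    simp only at this
    rw [Finset.mem_range]; omega
  simpa using Finset.card_le_card this

lemma patOK_treg (M0 μ : ℕ) : PatOK μ (treg M0 μ) := by
  intro l F hF
  have : F ⊆ Finset.Icc (M0 + l + 1 - μ) M0 := by
    intro j hj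
    have := hF j hj
    unfold treg at this
    rw [Finset.mem_Icc]
    split_ifs at this <;> omega
  have h2 := Finset.card_le_card this
  rw [Nat.card_Icc] at h2
  by_cases hF0 : F = ∅
  · rw [hF0, Finset.card_empty]; exact Nat.zero_le _
  · obtain ⟨j, hj⟩ := Finset.nonempty_iff_ne_empty.2 hF0
    have h3 := Finset.mem_Icc.1 (this hj)
    have h4 := hF j hj
    unfold treg at h4
    split_ifs at h4 <;> omega

lemma patOK_zpat (M0 : ℕ) : PatOK M0 (zpat M0) := by
  intro l F hF
  rcases Nat.lt_or_ge l M0 with hl | hl
  · have : F ⊆ insert M0 (Finset.range (M0 - 1 - l)) := by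
      intro j hj
      have := hF j hj
      unfold zpat at this
      rw [Finset.mem_insert, Finset.mem_range]
      split_ifs at this <;> omega
    have h2 := Finset.card_le_card this
    have h3 := Finset.card_insert_le M0 (Finset.range (M0 - 1 - l))
    rw [Finset.card_range] at h3
    omega
  · have : F ⊆ ∅ := by
      intro j hj
      have := hF j hj
      unfold zpat at this
      split_ifs at this <;> omega
    have h2 := Finset.card_le_card this
    rw [Finset.card_empty] at h2
    omega

lemma patOK_bstar (M e : ℕ) (he : e ≤ M) : PatOK M (bstar M e) := by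
  intro l F hF
  rcases Nat.lt_or_ge l (M - e) with hl | hl
  · have : F ⊆ Finset.range (M - l) := by
      intro j hj
      have := hF j hj
      unfold bstar at this
      rw [Finset.mem_range]
      split_ifs at this <;> omega
    simpa using Finset.card_le_card this
  · have : F ⊆ Finset.Icc 1 (M - l) := by
      intro j hj
      have := hF j hj
      unfold bstar at this
      rw [Finset.mem_Icc]
      split_ifs at this <;> omega
    simpa using Finset.card_le_card this

lemma patOK_tstar (M e : ℕ) (he : e ≤ M) : PatOK M (tstar M e) := by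
  intro l F hF
  rcases Nat.lt_or_ge l e with hl | hl
  · have : F ⊆ Finset.Icc (l + 2) (M + 1) := by
      intro j hj
      have := hF j hj
      unfold tstar at this
      rw [Finset.mem_Icc]
      split_ifs at this <;> omega
    have h2 := Finset.card_le_card this
    rw [Nat.card_Icc] at h2
    omega
  · have : F ⊆ Finset.Icc (l + 1) M := by
      intro j hj
      have := hF j hj
      unfold tstar at this
      rw [Finset.mem_Icc]
      split_ifs at this <;> omega
    have h2 := Finset.card_le_card this
    rw [Nat.card_Icc] at h2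
    omega

lemma tot_breg (μ L : ℕ) (h : ∀ j, L ≤ j → μ - j = 0) :
    2 * ∑ j ∈ Finset.range L, (μ - j) = μ * (μ + 1) :=
  sum_sub_range μ L (by have := h L le_rfl; omega)

lemma tot_treg (M0 μ L : ℕ) (hμ : μ ≤ M0 + 1) (h : ∀ j, L ≤ j → treg M0 μ j = 0) :
    2 * ∑ j ∈ Finset.range L, treg M0 μ j = μ * (μ + 1) := by
  rcases Nat.eq_zero_or_pos μ with h0 | h0
  · subst h0
    rw [Finset.sum_eq_zero (fun j _ => by unfold treg; split_ifs <;> omega)]
    rfl
  · have hL : M0 + 1 ≤ L := by
      by_contra hcon
      have := h M0 (by omega)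
      unfold treg at this
      rw [if_pos le_rfl] at this
      omega
    rw [← Finset.sum_subset (Finset.range_subset_range.2 hL)]
    · rw [← Finset.sum_range_reflect]
      rw [Finset.sum_congr rfl (g := fun j => μ - j)]
      · exact sum_sub_range μ (M0 + 1) hμ
      · intro j hj
        rw [Finset.mem_range] at hj
        unfold treg
        rw [if_pos (by omega)]
        omega
    · intro j _ hj
      rw [Finset.mem_range, not_lt] at hj
      unfold treg
      rw [if_neg (by omega)]

lemma tot_zpat (M0 L : ℕ) (h : ∀ j, L ≤ j → zpat M0 j = 0) :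
    2 * ∑ j ∈ Finset.range L, zpat M0 j = M0 * (M0 + 1) := by
  rcases Nat.eq_zero_or_pos M0 with h0 | h0
  · subst h0
    rw [Finset.sum_eq_zero (fun j _ => by unfold zpat; split_ifs <;> omega)]
    rfl
  · have hL : M0 < L := by
      by_contra hcon
      have := h M0 (by omega)
      unfold zpat at this
      rw [if_pos rfl] at this
      omega
    have h1 : ∀ j ∈ Finset.range L, zpat M0 j = (M0 - 1 - j) + (if j = M0 then M0 else 0) := by
      intro j _
      unfold zpat
      split_ifs with h2
      · omega
      · omega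
    rw [Finset.sum_congr rfl h1, Finset.sum_add_distrib, Finset.sum_ite_eq',
      if_pos (Finset.mem_range.2 hL), Nat.mul_add, sum_sub_range (M0 - 1) L (by omega)]
    obtain ⟨c, rfl⟩ := Nat.exists_eq_add_of_lt h0
    have e1 : 0 + c + 1 - 1 = c := by omega
    rw [e1]
    ring

lemma tot_bstar (M e L : ℕ) (he : e ≤ M) (h : ∀ j, L ≤ j → bstar M e j = 0) :
    2 * ∑ j ∈ Finset.range L, bstar M e j = M * (M + 1) := by
  rcases Nat.eq_zero_or_pos M with h0 | h0
  · subst h0
    rw [Finset.sum_eq_zero (fun j _ => by unfold bstar; split_ifs <;> omega)]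
    rfl
  · have hL : M ≤ L ∧ e < L := by
      constructor
      · by_contra hcon
        have h1 := h L le_rfl
        unfold bstar at h1
        split_ifs at h1 with h2 h3
        · have h3 := h (L + 1) (by omega)
          unfold bstar at h3
          split_ifs at h3 <;> omega
        · omega
        · omega
      · by_contra hcon
        have h1 := h e (by omega)
        unfold bstar at h1
        split_ifs at h1 <;> omega
    have h1 : ∑ j ∈ Finset.range L, (bstar M e j + (if j = 0 then e else 0)) =
        ∑ j ∈ Finset.range L, ((M - j) + (if j ∈ Finset.Icc 1 e then 1 else 0)) := by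
      refine Finset.sum_congr rfl fun j _ => ?_
      unfold bstar
      simp only [Finset.mem_Icc]
      split_ifs <;> omega
    rw [Finset.sum_add_distrib, Finset.sum_add_distrib, Finset.sum_ite_eq',
      if_pos (Finset.mem_range.2 (by omega)), Finset.sum_ite_mem] at h1
    have h2 : Finset.range L ∩ Finset.Icc 1 e = Finset.Icc 1 e := by
      apply Finset.inter_eq_right.2
      intro j hj
      rw [Finset.mem_Icc] at hj
      rw [Finset.mem_range]; omega
    rw [h2, Finset.sum_const, Nat.card_Icc, smul_eq_mul] at h1
    have h3 := sum_sub_range M L hL.1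
    omega

lemma tot_tstar (M e L : ℕ) (he : e ≤ M) (h : ∀ j, L ≤ j → tstar M e j = 0) :
    2 * ∑ j ∈ Finset.range L, tstar M e j = M * (M + 1) := by
  have key : ∀ L, M + 2 ≤ L → 2 * ∑ j ∈ Finset.range L, tstar M e j = M * (M + 1) := by
    intro L hL
    have h1 : ∑ j ∈ Finset.range L, (tstar M e j + (if j ∈ Finset.Icc 1 e then 1 else 0)) =
        ∑ j ∈ Finset.range L, (treg M M j + (if j = M + 1 then e else 0)) := by
      refine Finset.sum_congr rfl fun j _ => ?_
      unfold tstar treg
      simp only [Finset.mem_Icc]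
      split_ifs <;> omega
    rw [Finset.sum_add_distrib, Finset.sum_add_distrib, Finset.sum_ite_eq',
      if_pos (Finset.mem_range.2 (by omega)), Finset.sum_ite_mem] at h1
    have h2 : Finset.range L ∩ Finset.Icc 1 e = Finset.Icc 1 e := by
      apply Finset.inter_eq_right.2
      intro j hj
      rw [Finset.mem_Icc] at hj
      rw [Finset.mem_range]; omega
    rw [h2, Finset.sum_const, Nat.card_Icc, smul_eq_mul] at h1
    have h3 := tot_treg M M L (by omega) (by
      intro j hj
      unfold treg
      rw [if_neg (by omega)])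
    omega
  rw [← key (max L (M + 2)) (le_max_right _ _)]
  congr 1
  apply Finset.sum_subset (Finset.range_subset_range.2 (le_max_left _ _))
  intro j _ hj
  rw [Finset.mem_range, not_lt] at hj
  exact h j hj

section
variable {n : ℕ}

/-- The regular certificates. -/
def vreg (m : Fin n → ℕ) (M0 : ℕ) (T Γ : Finset (Fin n)) (w : ℕ → ℕ) (i : Fin n) : ℕ → ℕ :=
  if i ∈ Γ then w else if i ∈ T then treg M0 (m i) else fun j => m i - j

theorem isCert_reg (m : Fin n → ℕ) (M0 : ℕ) (T Γ : Finset (Fin n)) (w : ℕ → ℕ) (Mc : ℕ)
    (hm : ∀ i, m i ≤ M0 + 1) (hw : PatOK Mc w) (hw0 : ∀ j, M0 < j → w j = 0)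
    (hΓ : ∀ i ∈ Γ, Mc ≤ m i) :
    IsCert m (vreg m M0 T Γ w) (fun i => if i ∈ T then 1 else -1) (fun _ => 0) Γ w Mc where
  hσ := by intro i; by_cases h : i ∈ T <;> simp [h]
  hΓm := hΓ
  hΓV := by intro i hi; unfold vreg; rw [if_pos hi]
  hw := hw
  hV := by
    intro i hi
    unfold vreg
    rw [if_neg hi]
    split_ifs
    · exact patOK_treg M0 (m i)
    · exact patOK_breg (m i)
  hex := by
    intro i hi j0 j hj hV p _ _
    have hj' : 0 < (if i ∈ T then (1 : ℤ) else -1) * ((j : ℤ) - j0) := hj
    by_cases hT : i ∈ T
    · rw [if_pos hT] at hj'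
      unfold vreg at hV
      rw [if_neg hi, if_pos hT] at hV
      have hjM : M0 < j := by
        by_contra hcon
        unfold treg at hV
        rw [if_pos (by omega), if_pos (by omega)] at hV
        omega
      unfold vreg
      split_ifs
      · exact hw0 j hjM
      · unfold treg; rw [if_neg (by omega)]
      · have := hm p
        show m p - j = 0
        omega
    · exfalso
      rw [if_neg hT] at hj'
      unfold vreg at hV
      rw [if_neg hi, if_neg hT] at hV
      omega

lemma sum_vreg (m : Fin n → ℕ) (M0 : ℕ) (T Γ : Finset (Fin n)) (w : ℕ → ℕ)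
    (hTΓ : Disjoint T Γ) (j : ℕ) :
    ∑ i, vreg m M0 T Γ w i j = ∑ i ∈ (T ∪ Γ)ᶜ, (m i - j) + ∑ i ∈ T, treg M0 (m i) j +
      Γ.card * w j := by
  classical
  rw [← Finset.sum_compl_add_sum (T ∪ Γ), Finset.sum_union hTΓ, ← add_assoc]
  congr 1
  · congr 1
    · refine Finset.sum_congr rfl fun i hi => ?_
      rw [Finset.mem_compl, Finset.mem_union, not_or] at hi
      unfold vreg
      rw [if_neg hi.2, if_neg hi.1]
    · refine Finset.sum_congr rfl fun i hi => ?_
      unfold vreg
      rw [if_neg (Finset.disjoint_left.1 hTΓ hi), if_pos hi]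
  · rw [Finset.sum_congr rfl (g := fun _ => w j), Finset.sum_const, smul_eq_mul]
    intro i hi
    unfold vreg
    rw [if_pos hi]

lemma tot_vreg (m : Fin n → ℕ) (M0 : ℕ) (T Γ : Finset (Fin n)) (w : ℕ → ℕ)
    (hm : ∀ i, m i ≤ M0 + 1)
    (hwt : ∀ i ∈ Γ, ∀ L, (∀ j, L ≤ j → w j = 0) →
      2 * ∑ j ∈ Finset.range L, w j = m i * (m i + 1)) (i : Fin n) (L : ℕ)
    (h : ∀ j, L ≤ j → vreg m M0 T Γ w i j = 0) :
    2 * ∑ j ∈ Finset.range L, vreg m M0 T Γ w i j = m i * (m i + 1) := by
  unfold vreg at h ⊢
  split_ifs at h ⊢ with h1 h2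
  · exact hwt i h1 L h
  · exact tot_treg M0 (m i) L (hm i) h
  · exact tot_breg (m i) L h

/-- The certificates with two exhausting points. -/
def vstar (m : Fin n → ℕ) (M e : ℕ) (b t : Fin n) (T Γ : Finset (Fin n)) (i : Fin n) : ℕ → ℕ :=
  if i ∈ Γ then treg M M else if i = b then bstar M e else if i = t then tstar M e else
    if i ∈ T then treg (M + 1) (m i) else fun j => m i - j

theorem isCert_star (m : Fin n → ℕ) (M e : ℕ) (b t : Fin n) (T Γ : Finset (Fin n))
    (he : e ≤ M) (hbt : b ≠ t) (hbT : b ∉ T) (htT : t ∉ T)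
    (hm : ∀ i, m i ≤ M + 1) (hb : m b = M) (ht : m t = M) (hΓ : ∀ i ∈ Γ, M ≤ m i) :
    IsCert m (vstar m M e b t T Γ) (fun i => if i ∈ T ∨ i = t then 1 else -1)
      (fun i => if i = b then 1 else if i = t then 3 else if i ∈ T then 2 else 0) Γ
      (treg M M) M where
  hσ := by intro i; by_cases h : i ∈ T ∨ i = t <;> simp [h]
  hΓm := hΓ
  hΓV := by intro i hi; unfold vstar; rw [if_pos hi]
  hw := patOK_treg M M
  hV := by
    intro i hi
    unfold vstar
    rw [if_neg hi]
    split_ifs with h1 h2 h3
    · rw [h1, hb]; exact patOK_bstar M e he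
    · rw [h2, ht]; exact patOK_tstar M e he
    · exact patOK_treg (M + 1) (m i)
    · exact patOK_breg (m i)
  hex := by
    intro i hi j0 j hj hV p hpi hp
    have hj' : 0 < (if i ∈ T ∨ i = t then (1 : ℤ) else -1) * ((j : ℤ) - j0) := hj
    by_cases hib : i = b
    · -- the point `b`
      subst hib
      have hσ : ¬(i ∈ T ∨ i = t) := by tauto
      rw [if_neg hσ] at hj'
      simp only [if_true] at hp
      unfold vstar at hV
      rw [if_neg hi, if_pos rfl] at hV
      have hj0 : j = 0 := by
        by_contra hcon
        unfold bstar at hV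
        split_ifs at hV <;> omega
      subst hj0
      unfold vstar
      split_ifs with h1 h3 h4
      · unfold treg; simp
      · simp [tstar]
      · unfold treg
        have := hm p
        rw [if_pos (Nat.zero_le _)]
        omega
      · exfalso
        rcases hp with hp | hp
        · exact h1 hp
        · rw [if_neg hpi, if_neg h3, if_neg h4] at hp
          omega
    · by_cases hit : i = t
      · subst hit
        rw [if_pos (Or.inr rfl)] at hj'
        simp only [hib, if_false, if_true] at hp
        unfold vstar at hV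
        rw [if_neg hi, if_neg hib, if_pos rfl] at hV
        have hjM : M < j := by
          by_contra hcon
          unfold tstar at hV
          split_ifs at hV <;> omega
        have hpΓ : p ∈ Γ := by
          rcases hp with hp | hp
          · exact hp
          · exfalso
            rw [if_neg hpi] at hp
            split_ifs at hp <;> omega
        unfold vstar
        rw [if_pos hpΓ]
        unfold treg
        rw [if_neg (by omega)]
      · by_cases hT : i ∈ T
        · rw [if_pos (Or.inl hT)] at hj'
          simp only [hib, hit, hT, if_false, if_true] at hp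
          unfold vstar at hV
          rw [if_neg hi, if_neg hib, if_neg hit, if_pos hT] at hV
          have hjM : M + 1 < j := by
            by_contra hcon
            unfold treg at hV
            rw [if_pos (by omega), if_pos (by omega)] at hV
            omega
          unfold vstar
          split_ifs with h1 h2 h3 h4
          · unfold treg; rw [if_neg (by omega)]
          · exfalso
            rcases hp with hp | hp
            · exact h1 hp
            · rw [if_pos h2] at hp; omega
          · unfold tstar
            rw [if_neg (by omega), if_neg (by omega)]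
          · unfold treg; rw [if_neg (by omega)]
          · have := hm p
            show m p - j = 0
            omega
        · exfalso
          have hσ : ¬(i ∈ T ∨ i = t) := by tauto
          rw [if_neg hσ] at hj'
          unfold vstar at hV
          rw [if_neg hi, if_neg hib, if_neg hit, if_neg hT] at hV
          omega

lemma tot_vstar (m : Fin n → ℕ) (M e : ℕ) (b t : Fin n) (T Γ : Finset (Fin n)) (he : e ≤ M)
    (hm : ∀ i, m i ≤ M + 1) (hb : m b = M) (ht : m t = M) (hΓ : ∀ i ∈ Γ, m i = M)
    (i : Fin n) (L : ℕ) (h : ∀ j, L ≤ j → vstar m M e b t T Γ i j = 0) :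
    2 * ∑ j ∈ Finset.range L, vstar m M e b t T Γ i j = m i * (m i + 1) := by
  unfold vstar at h ⊢
  split_ifs at h ⊢ with h1 h2 h3 h4
  · rw [hΓ i h1]; exact tot_treg M M L (by omega) h
  · rw [h2, hb]; exact tot_bstar M e L he h
  · rw [h3, ht]; exact tot_tstar M e L he h
  · exact tot_treg (M + 1) (m i) L ((hm i).trans (by omega)) h
  · exact tot_breg (m i) L h

lemma sum_vstar (m : Fin n → ℕ) (M e : ℕ) (b t : Fin n) (T Γ : Finset (Fin n))
    (hTΓ : Disjoint T Γ) (hbt : b ≠ t) (hb : b ∉ T ∪ Γ) (ht : t ∉ T ∪ Γ) (j : ℕ) :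
    ∑ i, vstar m M e b t T Γ i j = ∑ i ∈ (insert b (insert t (T ∪ Γ)))ᶜ, (m i - j) +
      bstar M e j + tstar M e j + ∑ i ∈ T, treg (M + 1) (m i) j + Γ.card * treg M M j := by
  classical
  rw [← Finset.sum_compl_add_sum (insert b (insert t (T ∪ Γ))),
    Finset.sum_insert (by rw [Finset.mem_insert]; tauto), Finset.sum_insert ht,
    Finset.sum_union hTΓ]
  have hbΓ : b ∉ Γ := fun h => hb (Finset.mem_union_right _ h)
  have htΓ : t ∉ Γ := fun h => ht (Finset.mem_union_right _ h)
  have e1 : ∑ i ∈ (insert b (insert t (T ∪ Γ)))ᶜ, vstar m M e b t T Γ i j =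
      ∑ i ∈ (insert b (insert t (T ∪ Γ)))ᶜ, (m i - j) := by
    refine Finset.sum_congr rfl fun i hi => ?_
    simp only [Finset.mem_compl, Finset.mem_insert, Finset.mem_union, not_or] at hi
    unfold vstar
    rw [if_neg hi.2.2.2, if_neg hi.1, if_neg hi.2.1, if_neg hi.2.2.1]
  have e2 : vstar m M e b t T Γ b j = bstar M e j := by
    unfold vstar; rw [if_neg hbΓ, if_pos rfl]
  have e3 : vstar m M e b t T Γ t j = tstar M e j := by
    unfold vstar; rw [if_neg htΓ, if_neg (Ne.symm hbt), if_pos rfl]
  have e4 : ∑ i ∈ T, vstar m M e b t T Γ i j = ∑ i ∈ T, treg (M + 1) (m i) j := by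
    refine Finset.sum_congr rfl fun i hi => ?_
    have h1 : i ∉ Γ := Finset.disjoint_left.1 hTΓ hi
    have h2 : i ≠ b := by rintro rfl; exact hb (Finset.mem_union_left _ hi)
    have h3 : i ≠ t := by rintro rfl; exact ht (Finset.mem_union_left _ hi)
    unfold vstar
    rw [if_neg h1, if_neg h2, if_neg h3, if_pos hi]
  have e5 : ∑ i ∈ Γ, vstar m M e b t T Γ i j = Γ.card * treg M M j := by
    rw [Finset.sum_congr rfl (g := fun _ => treg M M j), Finset.sum_const, smul_eq_mul]
    intro i hi
    unfold vstar
    rw [if_pos hi]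
  rw [e1, e2, e3, e4, e5]
  ring

end

end Pool.MP_70e04f_ag
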