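import Pool.Agent.Lib_MP_70e04f_ag.Lin

/-!
Bivariate polynomials, vanishing order at a point, and Taylor coefficients.
-/

namespace Pool.MP_70e04f_ag

open MvPolynomial

/-- The pairs `(a, b)` with `a + b < m`. -/
def tri (m : ℕ) : Finset (ℕ × ℕ) :=
  (Finset.range m ×ˢ Finset.range m).filter (fun q => q.1 + q.2 < m)

lemma mem_tri {m : ℕ} {q : ℕ × ℕ} : q ∈ tri m ↔ q.1 + q.2 < m := by
  unfold tri
  rw [Finset.mem_filter, Finset.mem_product, Finset.mem_range, Finset.mem_range]
  omega

/-- The exponent vector `(a, b)`. -/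
noncomputable def mon (a b : ℕ) : Fin 2 →₀ ℕ := Finsupp.single 0 a + Finsupp.single 1 b

lemma mon_zero' (a b : ℕ) : mon a b 0 = a := by simp [mon]
lemma mon_one' (a b : ℕ) : mon a b 1 = b := by simp [mon]

lemma mon_inj {a b a' b' : ℕ} : mon a b = mon a' b' ↔ a = a' ∧ b = b' := by
  constructor
  · intro h
    exact ⟨by rw [← mon_zero' a b, h, mon_zero'], by rw [← mon_one' a b, h, mon_one']⟩
  · rintro ⟨rfl, rfl⟩; rfl

lemma mon_eta (s : Fin 2 →₀ ℕ) : mon (s 0) (s 1) = s := by
  ext i
  fin_cases i
  · exact mon_zero' _ _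
  · exact mon_one' _ _

lemma degree_mon (a b : ℕ) : (mon a b).degree = a + b := by
  simp [mon]

/-- Translation of the variables. -/
noncomputable def shift {R : Type*} [CommRing R] (p : Fin 2 → R) :
    MvPolynomial (Fin 2) R →ₐ[R] MvPolynomial (Fin 2) R :=
  aeval (fun i => X i + C (p i))

lemma shift_shift_neg {R : Type*} [CommRing R] (p : Fin 2 → R) (f : MvPolynomial (Fin 2) R) :
    shift (fun i => - p i) (shift p f) = f := by
  have : (shift (fun i => - p i)).comp (shift p) = AlgHom.id R _ := by
    apply MvPolynomial.algHom_ext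
    intro i
    simp [shift]
  exact congrArg (fun ψ : MvPolynomial (Fin 2) R →ₐ[R] MvPolynomial (Fin 2) R => ψ f) this

/-- Univariate times univariate. -/
lemma coeff_sep {R : Type*} [CommRing R] (f g : Polynomial R) (α β : ℕ) :
    coeff (mon α β) (Polynomial.aeval (X 0 : MvPolynomial (Fin 2) R) f *
      Polynomial.aeval (X 1 : MvPolynomial (Fin 2) R) g) = f.coeff α * g.coeff β := by
  classical
  induction f using Polynomial.induction_on' with
  | add f1 f2 h1 h2 => rw [map_add, add_mul, coeff_add, h1, h2, Polynomial.coeff_add, add_mul]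
  | monomial a c =>
    induction g using Polynomial.induction_on' with
    | add g1 g2 h1 h2 => rw [map_add, mul_add, coeff_add, h1, h2, Polynomial.coeff_add, mul_add]
    | monomial b d =>
      rw [Polynomial.aeval_monomial, Polynomial.aeval_monomial, Polynomial.coeff_monomial,
        Polynomial.coeff_monomial]
      have : algebraMap R (MvPolynomial (Fin 2) R) c * X 0 ^ a *
          (algebraMap R (MvPolynomial (Fin 2) R) d * X 1 ^ b) =
          monomial (mon a b) (c * d) := by
        rw [MvPolynomial.algebraMap_eq, mon, monomial_eq, Finsupp.prod_add_index', C_mul]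
        · rw [Finsupp.prod_single_index (by simp), Finsupp.prod_single_index (by simp)]; ring
        · intro; simp
        · intro _ _ _; rw [pow_add]
      rw [this, coeff_monomial]
      by_cases h1 : a = α
      · by_cases h2 : b = β
        · rw [if_pos (mon_inj.2 ⟨h1, h2⟩), if_pos h1, if_pos h2]
        · rw [if_neg (fun h => h2 (mon_inj.1 h).2), if_neg h2, mul_zero]
      · rw [if_neg (fun h => h1 (mon_inj.1 h).1), if_neg h1, zero_mul]

/-- The Taylor coefficient of index `(α, β)` at `(p, q)` of the monomial `x^a y^b`. -/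
noncomputable def ec {R : Type*} [CommRing R] (p q : R) (a b α β : ℕ) : R :=
  ((Polynomial.X + Polynomial.C p) ^ a : Polynomial R).coeff α *
    ((Polynomial.X + Polynomial.C q) ^ b : Polynomial R).coeff β

lemma coeff_shift_mon {R : Type*} [CommRing R] (p : Fin 2 → R) (a b α β : ℕ) :
    coeff (mon α β) (shift p (X 0 ^ a * X 1 ^ b)) = ec (p 0) (p 1) a b α β := by
  have : shift p (X 0 ^ a * X 1 ^ b) =
      Polynomial.aeval (X 0 : MvPolynomial (Fin 2) R) ((Polynomial.X + Polynomial.C (p 0)) ^ a) *
      Polynomial.aeval (X 1 : MvPolynomial (Fin 2) R)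
        ((Polynomial.X + Polynomial.C (p 1)) ^ b) := by
    simp [shift]
  rw [this, coeff_sep]
  rfl

lemma ec_map {R S : Type*} [CommRing R] [CommRing S] (φ : R →+* S) (p q : R) (a b α β : ℕ) :
    φ (ec p q a b α β) = ec (φ p) (φ q) a b α β := by
  unfold ec
  rw [map_mul, ← Polynomial.coeff_map, ← Polynomial.coeff_map]
  simp

/-- Membership in a power of the maximal ideal of a point, by Taylor coefficients. -/
theorem mem_ker_pow_iff {K : Type*} [Field K] (p : Fin 2 → K) (m : ℕ)
    (f : MvPolynomial (Fin 2) K) :
    f ∈ (RingHom.ker (MvPolynomial.eval p) : Ideal (MvPolynomial (Fin 2) K)) ^ m ↔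
      ∀ q ∈ tri m, coeff (mon q.1 q.2) (shift p f) = 0 := by
  have hker : ∀ g : MvPolynomial (Fin 2) K, g ∈ idealOfVars (Fin 2) K ↔ coeff 0 g = 0 := by
    intro g
    have := mem_pow_idealOfVars_iff' (σ := Fin 2) (R := K) 1 g
    rw [pow_one] at this
    rw [this]
    constructor
    · intro h; exact h 0 (by simp)
    · intro h x hx
      have : x = 0 := by
        rw [Nat.lt_one_iff] at hx
        exact (Finsupp.degree_eq_zero_iff x).1 hx
      rw [this]; exact h
  have hev : ∀ g : MvPolynomial (Fin 2) K, coeff 0 (shift p g) = eval p g := by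
    intro g
    have : (constantCoeff : MvPolynomial (Fin 2) K →+* K).comp (shift p).toRingHom
        = (eval p : MvPolynomial (Fin 2) K →+* K) := by
      apply MvPolynomial.ringHom_ext
      · intro r; simp [shift]
      · intro i; simp [shift]
    have := congrArg (fun ψ : MvPolynomial (Fin 2) K →+* K => ψ g) this
    exact this
  have hev' : ∀ g : MvPolynomial (Fin 2) K, eval p (shift (fun i => - p i) g) = coeff 0 g := by
    intro g
    rw [← hev]
    have := shift_shift_neg (fun i => - p i) g
    simp only [neg_neg] at this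
    rw [this]
  have h1 : Ideal.map (shift p).toRingHom (RingHom.ker (MvPolynomial.eval p)) ≤
      idealOfVars (Fin 2) K := by
    rw [Ideal.map_le_iff_le_comap]
    intro g hg
    rw [Ideal.mem_comap, hker]
    change coeff 0 (shift p g) = 0
    rw [hev]; exact hg
  have h2 : Ideal.map (shift (fun i => - p i)).toRingHom (idealOfVars (Fin 2) K) ≤
      RingHom.ker (MvPolynomial.eval p) := by
    rw [Ideal.map_le_iff_le_comap]
    intro g hg
    rw [Ideal.mem_comap, RingHom.mem_ker]
    change eval p (shift (fun i => - p i) g) = 0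
    rw [hev', ← hker]; exact hg
  have h3 : f ∈ (RingHom.ker (MvPolynomial.eval p) : Ideal (MvPolynomial (Fin 2) K)) ^ m ↔
      shift p f ∈ idealOfVars (Fin 2) K ^ m := by
    constructor
    · intro hf
      have := Ideal.mem_map_of_mem (shift p).toRingHom hf
      rw [Ideal.map_pow] at this
      exact Ideal.pow_right_mono h1 m this
    · intro hf
      have := Ideal.mem_map_of_mem (shift (fun i => - p i)).toRingHom hf
      rw [Ideal.map_pow] at this
      have := Ideal.pow_right_mono h2 m this
      have h4 := shift_shift_neg p f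
      change shift (fun i => - p i) (shift p f) ∈ _ at this
      rwa [h4] at this
  rw [h3, mem_pow_idealOfVars_iff']
  constructor
  · intro h q hq
    apply h
    rw [degree_mon]; exact mem_tri.1 hq
  · intro h x hx
    have := h (x 0, x 1) (mem_tri.2 (by rw [← mon_eta x, degree_mon] at hx; exact hx))
    rwa [mon_eta] at this

end Pool.MP_70e04f_ag
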