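import Pool.Agent.Lib_MP_70e04f_ag.Patterns
import Pool.Agent.Lib_MP_70e04f_ag.Cases

/-!
The capacity profiles of the certificates for multiplicities `M` and `M + 1`.
-/

namespace Pool.MP_70e04f_ag

/-- There is a certificate with capacities `c`. -/
def HasCert {n : ℕ} (m : Fin n → ℕ) (c : ℕ → ℕ) : Prop :=
  ∃ (V : Fin n → ℕ → ℕ) (σ : Fin n → ℤ) (ord : Fin n → ℕ) (Γ : Finset (Fin n)) (w : ℕ → ℕ)
    (Mc : ℕ), IsCert m V σ ord Γ w Mc ∧ (∀ j, ∑ i, V i j = c j) ∧
    ∀ i L, (∀ j, L ≤ j → V i j = 0) → 2 * ∑ j ∈ Finset.range L, V i j = m i * (m i + 1)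

theorem HasCert.good {n : ℕ} {m : Fin n → ℕ} {c : ℕ → ℕ} (h : HasCert m c) (k N : ℕ)
    (hk : 0 < k) (hc : (∀ j, nrow k N j ≤ c j) ∨ (∀ j, c j ≤ nrow k N j)) :
    ∃ u : Fin n → ℝ, Good (degMat k N m xpos u 0) := by
  obtain ⟨V, σ, ord, Γ, w, Mc, hC, hs, ht⟩ := h
  rcases hc with hc | hc
  · exact good_of_cert_le k N hk m V σ ord Γ w Mc hC (fun j => by rw [hs]; exact hc j)
  · exact good_of_cert_ge k N hk m V σ ord Γ w Mc hC (fun j => by rw [hs]; exact hc j) ht

lemma patOK_zero : PatOK 0 (fun _ => 0) := by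
  intro l F hF
  have : F = ∅ := by
    rw [Finset.eq_empty_iff_forall_notMem]
    intro j hj
    exact absurd (hF j hj) (Nat.not_lt_zero l)
  rw [this]; simp

lemma star_row (M e j : ℕ) (he : e ≤ M) (hj : j ≤ M) :
    bstar M e j + tstar M e j + (j - 1) * e + e = M + j * e := by
  unfold bstar tstar
  rcases Nat.eq_zero_or_pos j with h0 | h0
  · subst h0
    rw [if_pos rfl, if_neg (Nat.succ_ne_zero M).symm, if_pos (Nat.zero_le _)]
    simp only [ite_self, Nat.zero_sub, Nat.zero_mul, add_zero]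
    omega
  · obtain ⟨c, rfl⟩ := Nat.exists_eq_add_of_lt h0
    have e1 : 0 + c + 1 - 1 = c := by omega
    have e2 : (0 + c + 1) * e = c * e + e := by ring
    rw [e1, e2, if_neg (by omega), if_neg (show ¬ (0 + c + 1 = M + 1) by omega), if_pos hj]
    by_cases h1 : 0 + c + 1 ≤ e
    · rw [if_pos h1, if_neg (by omega)]; omega
    · rw [if_neg h1, if_pos (by omega)]; omega

lemma bstar_top (M e j : ℕ) (he : e ≤ M) (hj : M < j) : bstar M e j = 0 := by
  unfold bstar
  rw [if_neg (by omega), if_neg (by omega)]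
  omega

section
variable {n : ℕ} (m : Fin n → ℕ) (M : ℕ)

theorem hasCert_reg (M0 : ℕ) (T Γ : Finset (Fin n)) (hTΓ : Disjoint T Γ) (w : ℕ → ℕ) (Mc : ℕ)
    (hm : ∀ i, m i ≤ M0 + 1) (hw : PatOK Mc w) (hw0 : ∀ j, M0 < j → w j = 0)
    (hΓ : ∀ i ∈ Γ, m i = Mc)
    (hwt : ∀ L, (∀ j, L ≤ j → w j = 0) → 2 * ∑ j ∈ Finset.range L, w j = Mc * (Mc + 1)) :
    HasCert m (fun j => ∑ i ∈ (T ∪ Γ)ᶜ, (m i - j) + ∑ i ∈ T, treg M0 (m i) j + Γ.card * w j) :=
  ⟨vreg m M0 T Γ w, _, _, Γ, w, Mc, isCert_reg m M0 T Γ w Mc hm hw hw0 (fun i hi => (hΓ i hi).ge),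
    fun j => sum_vreg m M0 T Γ w hTΓ j,
    fun i L h => tot_vreg m M0 T Γ w hm (fun i hi L h => by rw [hΓ i hi]; exact hwt L h) i L h⟩

theorem hasCert_star (e : ℕ) (b t : Fin n) (T Γ : Finset (Fin n)) (hTΓ : Disjoint T Γ)
    (he : e ≤ M) (hbt : b ≠ t) (hbT : b ∉ T ∪ Γ) (htT : t ∉ T ∪ Γ)
    (hm : ∀ i, m i ≤ M + 1) (hb : m b = M) (ht : m t = M) (hΓ : ∀ i ∈ Γ, m i = M) :
    HasCert m (fun j => ∑ i ∈ (insert b (insert t (T ∪ Γ)))ᶜ, (m i - j) +
      bstar M e j + tstar M e j + ∑ i ∈ T, treg (M + 1) (m i) j + Γ.card * treg M M j) :=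
  ⟨vstar m M e b t T Γ, _, _, Γ, treg M M, M,
    isCert_star m M e b t T Γ he hbt (fun h => hbT (Finset.mem_union_left _ h))
      (fun h => htT (Finset.mem_union_left _ h)) hm hb ht (fun i hi => (hΓ i hi).ge),
    fun j => sum_vstar m M e b t T Γ hTΓ hbt hbT htT j,
    fun i L h => tot_vstar m M e b t T Γ he hm hb ht hΓ i L h⟩

/-- All the points on the curve. -/
theorem prof0 (hm : ∀ i, m i = M ∨ m i = M + 1) :
    HasCert m (fun j => ∑ i, (m i - j)) := by
  have h := hasCert_reg m M ∅ ∅ (Finset.disjoint_empty_left _) (fun _ => 0) 0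
    (fun i => by rcases hm i with h | h <;> omega)
    patOK_zero (fun _ _ => rfl) (by simp) (by simp)
  simpa using h

variable (hm : ∀ i, m i = M ∨ m i = M + 1)
include hm

set_option linter.unusedSectionVars false

lemma sum_treg_M (T : Finset (Fin n)) (j : ℕ) (hj : j ≤ M) :
    ∑ i ∈ T, treg M (m i) j = j * T.card + (T.filter (fun i => m i = M + 1)).card := by
  have : ∀ i ∈ T, treg M (m i) j = j + (if m i = M + 1 then 1 else 0) := by
    intro i _
    unfold treg
    rw [if_pos hj]
    rcases hm i with h | h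
    · rw [h, if_neg (by omega)]; omega
    · rw [h, if_pos rfl]; omega
  rw [Finset.sum_congr rfl this, Finset.sum_add_distrib, Finset.sum_const, smul_eq_mul, mul_comm,
    Finset.card_filter]

lemma sum_treg_zero (M0 : ℕ) (T : Finset (Fin n)) (j : ℕ) (hj : M0 < j) :
    ∑ i ∈ T, treg M0 (m i) j = 0 := by
  apply Finset.sum_eq_zero
  intro i _
  unfold treg
  rw [if_neg (by omega)]

lemma sum_treg_raised (T : Finset (Fin n)) (hT : ∀ i ∈ T, m i = M + 1) (j : ℕ) (hj : j ≤ M + 1) :
    ∑ i ∈ T, treg (M + 1) (m i) j = j * T.card := by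
  rw [Finset.sum_congr rfl (g := fun _ => j), Finset.sum_const, smul_eq_mul, mul_comm]
  intro i hi
  rw [hT i hi]
  unfold treg
  rw [if_pos hj]
  omega

lemma sum_treg_low (T : Finset (Fin n)) (hT : ∀ i ∈ T, m i = M) (j : ℕ) (hj : j ≤ M + 1) :
    ∑ i ∈ T, treg (M + 1) (m i) j = (j - 1) * T.card := by
  rw [Finset.sum_congr rfl (g := fun _ => j - 1), Finset.sum_const, smul_eq_mul, mul_comm]
  intro i hi
  rw [hT i hi]
  unfold treg
  rw [if_pos hj]
  omega

lemma filter_raised_card (T : Finset (Fin n)) (hT : ∀ i ∈ T, m i = M) :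
    (T.filter (fun i => m i = M + 1)).card = 0 := by
  rw [Finset.card_eq_zero, Finset.filter_eq_empty_iff]
  intro i hi h
  rw [hT i hi] at h
  omega

/-- The first profile. -/
theorem prof1 (k R y : ℕ) (hn : n = k ^ 2 + 2 * R)
    (hy : (Finset.univ.filter (fun i => m i = M + 1)).card + y ≤ k ^ 2 + R) :
    ∃ c : ℕ → ℕ, HasCert m c ∧
      (∀ j < M, c j + y = k ^ 2 * (M - j) + R * M +
        (Finset.univ.filter (fun i => m i = M + 1)).card) ∧
      (c M = R * M + (Finset.univ.filter (fun i => m i = M + 1)).card + y * M) ∧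
      (∀ j, M < j → c j = 0) := by
  classical
  set A0 : Finset (Fin n) := Finset.univ.filter (fun i => m i = M + 1) with hA0
  have hmA : ∀ i, i ∉ A0 → m i = M := by
    intro i hi
    rcases hm i with h | h
    · exact h
    · exact absurd (Finset.mem_filter.2 ⟨Finset.mem_univ i, h⟩) hi
  have hA0c : A0.card + A0ᶜ.card = n := by
    rw [Finset.card_add_card_compl, Fintype.card_fin]
  obtain ⟨X, hX, hXc⟩ := Finset.exists_subset_card_eq (show R + y ≤ A0ᶜ.card by omega)
  obtain ⟨T, hT, hTc⟩ := Finset.exists_subset_card_eq (show R ≤ X.card by omega)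
  set Γ := X \ T with hΓ
  have hTΓ : Disjoint T Γ := Finset.disjoint_sdiff
  have hun : T ∪ Γ = X := Finset.union_sdiff_of_subset hT
  have hΓc : Γ.card = y := by
    rw [hΓ, Finset.card_sdiff_of_subset hT]; omega
  have hXm : ∀ i ∈ X, m i = M := fun i hi => hmA i (Finset.mem_compl.1 (hX hi))
  have hXcc : X.card + Xᶜ.card = n := by
    rw [Finset.card_add_card_compl, Fintype.card_fin]
  have hfil : (Xᶜ.filter (fun i => m i = M + 1)).card = A0.card := by
    congr 1
    ext i
    simp only [Finset.mem_filter, Finset.mem_compl, hA0, Finset.mem_univ, true_and]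
    constructor
    · exact fun h => h.2
    · intro h
      refine ⟨fun hi => ?_, h⟩
      have := hXm i hi
      omega
  refine ⟨_, hasCert_reg m M T Γ hTΓ (zpat M) M (fun i => by rcases hm i with h | h <;> omega)
    (patOK_zpat M) (by intro j hj; unfold zpat; rw [if_neg (by omega)]; omega)
    (fun i hi => hXm i (Finset.mem_sdiff.1 hi).1) (fun L h => tot_zpat M L h), ?_, ?_, ?_⟩
  · intro j hj
    simp only [hun]
    rw [sum_c M m hm _ j hj.le, sum_treg_M m M hm T j hj.le, hfil,
      filter_raised_card m M hm T (fun i hi => hXm i (hT hi)), hTc, hΓc]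
    unfold zpat
    rw [if_neg (by omega)]
    obtain ⟨c, hc⟩ : ∃ c, M = j + c + 1 := ⟨M - j - 1, by omega⟩
    have e1 : M - j = c + 1 := by omega
    have e2 : M - 1 - j = c := by omega
    rw [e1, e2]
    have e3 : Xᶜ.card + y = k ^ 2 + R := by omega
    have e4 : (c + 1) * Xᶜ.card + (c + 1) * y = (c + 1) * (k ^ 2 + R) := by rw [← e3]; ring
    have e5 : R * M = R * j + R * (c + 1) := by rw [hc]; ring
    nlinarith
  · simp only [hun]
    rw [sum_c M m hm _ M le_rfl, sum_treg_M m M hm T M le_rfl, hfil,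
      filter_raised_card m M hm T (fun i hi => hXm i (hT hi)), hTc, hΓc, Nat.sub_self]
    unfold zpat
    rw [if_pos rfl]
    ring
  · intro j hj
    rw [sum_c_zero M m hm _ j hj, sum_treg_zero m M hm M T j hj]
    unfold zpat
    rw [if_neg (by omega)]
    have : M - 1 - j = 0 := by omega
    rw [this]
    ring

/-- The first profile with no cluster. -/
theorem prof1' (k R : ℕ) (hn : n = k ^ 2 + 2 * R) :
    ∃ c : ℕ → ℕ, HasCert m c ∧
      (∀ j ≤ M, c j = k ^ 2 * (M - j) + R * M +
        (Finset.univ.filter (fun i => m i = M + 1)).card) ∧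
      (∀ j, M < j → c j = 0) := by
  classical
  set A0 : Finset (Fin n) := Finset.univ.filter (fun i => m i = M + 1) with hA0
  obtain ⟨T, -, hTc⟩ := Finset.exists_subset_card_eq
    (show R ≤ (Finset.univ : Finset (Fin n)).card by rw [Finset.card_univ, Fintype.card_fin]; omega)
  have hTcc : T.card + Tᶜ.card = n := by
    rw [Finset.card_add_card_compl, Fintype.card_fin]
  have hfil : (Tᶜ.filter (fun i => m i = M + 1)).card + (T.filter (fun i => m i = M + 1)).card =
      A0.card := by
    rw [← Finset.card_union_of_disjoint]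
    · congr 1
      ext i
      simp only [Finset.mem_union, Finset.mem_filter, Finset.mem_compl, hA0, Finset.mem_univ,
        true_and]
      tauto
    · rw [Finset.disjoint_left]
      intro i hi hi'
      rw [Finset.mem_filter] at hi hi'
      exact (Finset.mem_compl.1 hi.1) hi'.1
  refine ⟨_, hasCert_reg m M T ∅ (Finset.disjoint_empty_right _) (fun _ => 0) 0
    (fun i => by rcases hm i with h | h <;> omega)
    patOK_zero (fun _ _ => rfl) (by simp) (by simp), ?_, ?_⟩
  · intro j hj
    simp only [Finset.union_empty]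
    rw [sum_c M m hm _ j hj, sum_treg_M m M hm T j hj, Finset.card_empty, ← hfil, hTc]
    obtain ⟨c, rfl⟩ := Nat.exists_eq_add_of_le hj
    rw [Nat.add_sub_cancel_left]
    have e3 : Tᶜ.card = k ^ 2 + R := by omega
    rw [e3]
    ring
  · intro j hj
    simp only [Finset.union_empty]
    rw [sum_c_zero M m hm _ j hj, sum_treg_zero m M hm M T j hj, Finset.card_empty]

/-- The second profile, many raised points, few exhausting ones. -/
theorem prof5 (k R t : ℕ) (hn : n = k ^ 2 + 2 * R)
    (h1 : t ≤ (Finset.univ.filter (fun i => m i = M + 1)).card) (h2 : t ≤ R)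
    (h3 : (Finset.univ.filter (fun i => m i = M + 1)).card ≤ k ^ 2 + R + t) :
    ∃ c : ℕ → ℕ, HasCert m c ∧
      (∀ j ≤ M, c j + t = k ^ 2 * (M - j) + R * M +
        (Finset.univ.filter (fun i => m i = M + 1)).card) ∧
      (c (M + 1) = (M + 1) * t) ∧ (∀ j, M + 1 < j → c j = 0) := by
  classical
  set A0 : Finset (Fin n) := Finset.univ.filter (fun i => m i = M + 1) with hA0
  have hmA : ∀ i, i ∉ A0 → m i = M := by
    intro i hi
    rcases hm i with h | h
    · exact h
    · exact absurd (Finset.mem_filter.2 ⟨Finset.mem_univ i, h⟩) hi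
  have hmA1 : ∀ i ∈ A0, m i = M + 1 := fun i hi => (Finset.mem_filter.1 hi).2
  have hA0c : A0.card + A0ᶜ.card = n := by
    rw [Finset.card_add_card_compl, Fintype.card_fin]
  obtain ⟨T, hT, hTc⟩ := Finset.exists_subset_card_eq h1
  obtain ⟨Γ, hΓ, hΓc⟩ := Finset.exists_subset_card_eq (show R - t ≤ A0ᶜ.card by omega)
  have hTΓ : Disjoint T Γ := by
    rw [Finset.disjoint_left]
    intro i hi hi'
    exact (Finset.mem_compl.1 (hΓ hi')) (hT hi)
  have hOc : (T ∪ Γ).card + (T ∪ Γ)ᶜ.card = n := by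
    rw [Finset.card_add_card_compl, Fintype.card_fin]
  rw [Finset.card_union_of_disjoint hTΓ, hTc, hΓc] at hOc
  have hfil : ((T ∪ Γ)ᶜ.filter (fun i => m i = M + 1)).card + t = A0.card := by
    rw [← hTc, ← Finset.card_union_of_disjoint]
    · congr 1
      ext i
      simp only [Finset.mem_union, Finset.mem_filter, Finset.mem_compl, hA0, Finset.mem_univ,
        true_and]
      constructor
      · rintro (h | h)
        · exact h.2
        · exact hmA1 i (hT h)
      · intro h
        by_cases hiT : i ∈ T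
        · exact Or.inr hiT
        · left
          refine ⟨?_, h⟩
          rintro (h' | h')
          · exact hiT h'
          · have := hmA i (Finset.mem_compl.1 (hΓ h'))
            omega
    · rw [Finset.disjoint_left]
      intro i hi hi'
      rw [Finset.mem_filter, Finset.mem_compl, Finset.mem_union] at hi
      exact hi.1 (Or.inl hi')
  refine ⟨_, hasCert_reg m (M + 1) T Γ hTΓ (treg M M) M
    (fun i => by rcases hm i with h | h <;> omega)
    (patOK_treg M M) (by intro j hj; unfold treg; rw [if_neg (by omega)])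
    (fun i hi => hmA i (Finset.mem_compl.1 (hΓ hi))) (fun L h => tot_treg M M L (by omega) h),
    ?_, ?_, ?_⟩
  · intro j hj
    rw [sum_c M m hm _ j hj, sum_treg_raised m M hm T (fun i hi => hmA1 i (hT hi)) j (by omega),
      hTc, hΓc]
    have ew : treg M M j = j := by
      unfold treg; rw [if_pos hj]; omega
    rw [ew]
    obtain ⟨c, rfl⟩ := Nat.exists_eq_add_of_le hj
    rw [Nat.add_sub_cancel_left]
    obtain ⟨s, rfl⟩ := Nat.exists_eq_add_of_le h2
    rw [Nat.add_sub_cancel_left] at hOc ⊢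
    have e3 : (T ∪ Γ)ᶜ.card = k ^ 2 + (t + s) := by omega
    rw [e3, ← hfil]
    ring
  · rw [sum_c_zero M m hm _ (M + 1) (by omega),
      sum_treg_raised m M hm T (fun i hi => hmA1 i (hT hi)) (M + 1) le_rfl, hTc]
    have ew : treg M M (M + 1) = 0 := by
      unfold treg; rw [if_neg (by omega)]
    rw [ew]
    ring
  · intro j hj
    rw [sum_c_zero M m hm _ j (by omega), sum_treg_zero m M hm (M + 1) T j hj]
    have ew : treg M M j = 0 := by
      unfold treg; rw [if_neg (by omega)]
    rw [ew]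
    ring

/-- The second profile, with a cluster of raised points. -/
theorem prof6 (k R t : ℕ) (hn : n = k ^ 2 + 2 * R)
    (h1 : t ≤ (Finset.univ.filter (fun i => m i = M + 1)).card) (h2 : R ≤ t) :
    ∃ c : ℕ → ℕ, HasCert m c ∧
      (∀ j ≤ M, c j + t = k ^ 2 * (M - j) + R * M +
        (Finset.univ.filter (fun i => m i = M + 1)).card) ∧
      (c (M + 1) = (M + 1) * t) ∧ (∀ j, M + 1 < j → c j = 0) := by
  classical
  set A0 : Finset (Fin n) := Finset.univ.filter (fun i => m i = M + 1) with hA0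
  have hmA1 : ∀ i ∈ A0, m i = M + 1 := fun i hi => (Finset.mem_filter.1 hi).2
  have hA0n : A0.card ≤ n := by
    have := Finset.card_le_univ A0
    rwa [Fintype.card_fin] at this
  obtain ⟨X, hX, hXc⟩ := Finset.exists_subset_card_eq h1
  obtain ⟨T, hT, hTc⟩ := Finset.exists_subset_card_eq (show R ≤ X.card by omega)
  set Γ := X \ T with hΓ
  have hTΓ : Disjoint T Γ := Finset.disjoint_sdiff
  have hun : T ∪ Γ = X := Finset.union_sdiff_of_subset hT
  have hΓc : Γ.card = t - R := by
    rw [hΓ, Finset.card_sdiff_of_subset hT]; omega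
  have hXm : ∀ i ∈ X, m i = M + 1 := fun i hi => hmA1 i (hX hi)
  have hXcc : X.card + Xᶜ.card = n := by
    rw [Finset.card_add_card_compl, Fintype.card_fin]
  have hfil : (Xᶜ.filter (fun i => m i = M + 1)).card + t = A0.card := by
    rw [← hXc, ← Finset.card_union_of_disjoint]
    · congr 1
      ext i
      simp only [Finset.mem_union, Finset.mem_filter, Finset.mem_compl, hA0, Finset.mem_univ,
        true_and]
      constructor
      · rintro (h | h)
        · exact h.2
        · exact hXm i h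
      · intro h
        by_cases hiX : i ∈ X
        · exact Or.inr hiX
        · exact Or.inl ⟨hiX, h⟩
    · rw [Finset.disjoint_left]
      intro i hi hi'
      rw [Finset.mem_filter, Finset.mem_compl] at hi
      exact hi.1 hi'
  refine ⟨_, hasCert_reg m (M + 1) T Γ hTΓ (zpat (M + 1)) (M + 1)
    (fun i => by rcases hm i with h | h <;> omega)
    (patOK_zpat (M + 1)) (by intro j hj; unfold zpat; rw [if_neg (by omega)]; omega)
    (fun i hi => hXm i (Finset.mem_sdiff.1 hi).1) (fun L h => tot_zpat (M + 1) L h),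
    ?_, ?_, ?_⟩
  · intro j hj
    simp only [hun]
    rw [sum_c M m hm _ j hj, sum_treg_raised m M hm T (fun i hi => hXm i (hT hi)) j (by omega),
      hTc, hΓc]
    have ew : zpat (M + 1) j = M - j := by
      unfold zpat; rw [if_neg (by omega)]; omega
    rw [ew]
    obtain ⟨c, rfl⟩ := Nat.exists_eq_add_of_le hj
    rw [Nat.add_sub_cancel_left]
    obtain ⟨s, rfl⟩ := Nat.exists_eq_add_of_le h2
    rw [Nat.add_sub_cancel_left]
    have e3 : Xᶜ.card + s = k ^ 2 + R := by omega
    have e4 : c * Xᶜ.card + c * s = c * (k ^ 2 + R) := by rw [← e3]; ring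
    rw [← hfil]
    nlinarith
  · rw [sum_c_zero M m hm _ (M + 1) (by omega),
      sum_treg_raised m M hm T (fun i hi => hXm i (hT hi)) (M + 1) le_rfl, hTc, hΓc]
    have ew : zpat (M + 1) (M + 1) = M + 1 := by
      unfold zpat; rw [if_pos rfl]
    rw [ew]
    obtain ⟨s, rfl⟩ := Nat.exists_eq_add_of_le h2
    rw [Nat.add_sub_cancel_left]
    ring
  · intro j hj
    rw [sum_c_zero M m hm _ j (by omega), sum_treg_zero m M hm (M + 1) T j hj]
    have ew : zpat (M + 1) j = 0 := by
      unfold zpat; rw [if_neg (by omega)]; omega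
    rw [ew]
    ring

/-- The second profile, few raised points. -/
theorem prof7 (k R t : ℕ) (hn : n = k ^ 2 + 2 * R)
    (h1 : (Finset.univ.filter (fun i => m i = M + 1)).card < t) (h2 : t + 1 ≤ R)
    (h3 : t ≤ (Finset.univ.filter (fun i => m i = M + 1)).card + M) :
    ∃ c : ℕ → ℕ, HasCert m c ∧
      (∀ j ≤ M, c j + t = k ^ 2 * (M - j) + R * M +
        (Finset.univ.filter (fun i => m i = M + 1)).card) ∧
      (c (M + 1) = (M + 1) * t) ∧ (∀ j, M + 1 < j → c j = 0) := by
  classical
  set A0 : Finset (Fin n) := Finset.univ.filter (fun i => m i = M + 1) with hA0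
  have hmA : ∀ i, i ∉ A0 → m i = M := by
    intro i hi
    rcases hm i with h | h
    · exact h
    · exact absurd (Finset.mem_filter.2 ⟨Finset.mem_univ i, h⟩) hi
  have hmA1 : ∀ i ∈ A0, m i = M + 1 := fun i hi => (Finset.mem_filter.1 hi).2
  have hA0c : A0.card + A0ᶜ.card = n := by
    rw [Finset.card_add_card_compl, Fintype.card_fin]
  obtain ⟨e, he⟩ := Nat.exists_eq_add_of_lt h1
  set e := e + 1 with hedef
  have he' : t = A0.card + e := by omega
  -- the low points: X ⊂ A0ᶜ of size e, Γ of size R - t - 1, and two more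
  obtain ⟨Y, hY, hYc⟩ := Finset.exists_subset_card_eq
    (show e + (R - t - 1) + 2 ≤ A0ᶜ.card by omega)
  obtain ⟨X, hX, hXc⟩ := Finset.exists_subset_card_eq (show e ≤ Y.card by omega)
  obtain ⟨Γ, hΓ, hΓc⟩ := Finset.exists_subset_card_eq (show R - t - 1 ≤ (Y \ X).card by
    rw [Finset.card_sdiff_of_subset hX]; omega)
  have hrest : ((Y \ X) \ Γ).card = 2 := by
    rw [Finset.card_sdiff_of_subset hΓ, Finset.card_sdiff_of_subset hX]; omega
  obtain ⟨b, t0, hbt, hbtr⟩ := Finset.card_eq_two.1 hrest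
  have hbm : b ∈ (Y \ X) \ Γ := by rw [hbtr]; simp
  have htm : t0 ∈ (Y \ X) \ Γ := by rw [hbtr]; simp
  simp only [Finset.mem_sdiff] at hbm htm
  have hYm : ∀ i ∈ Y, m i = M := fun i hi => hmA i (Finset.mem_compl.1 (hY hi))
  have hYA : ∀ i ∈ Y, i ∉ A0 := fun i hi => Finset.mem_compl.1 (hY hi)
  have hA0X : Disjoint A0 X := by
    rw [Finset.disjoint_left]
    intro i hi hi'
    exact hYA i (hX hi') hi
  have hTΓ : Disjoint (A0 ∪ X) Γ := by
    rw [Finset.disjoint_left]
    intro i hi hi'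
    have h4 := Finset.mem_sdiff.1 (hΓ hi')
    rcases Finset.mem_union.1 hi with h | h
    · exact hYA i h4.1 h
    · exact h4.2 h
  have hb1 : b ∉ (A0 ∪ X) ∪ Γ := by
    simp only [Finset.mem_union, not_or]
    exact ⟨⟨hYA b hbm.1.1, hbm.1.2⟩, hbm.2⟩
  have ht1 : t0 ∉ (A0 ∪ X) ∪ Γ := by
    simp only [Finset.mem_union, not_or]
    exact ⟨⟨hYA t0 htm.1.1, htm.1.2⟩, htm.2⟩
  set O := (insert b (insert t0 ((A0 ∪ X) ∪ Γ)))ᶜ with hO
  have hOc : (insert b (insert t0 ((A0 ∪ X) ∪ Γ))).card + O.card = n := by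
    rw [hO, Finset.card_add_card_compl, Fintype.card_fin]
  rw [Finset.card_insert_of_notMem (by rw [Finset.mem_insert]; tauto),
    Finset.card_insert_of_notMem ht1, Finset.card_union_of_disjoint hTΓ,
    Finset.card_union_of_disjoint hA0X, hXc, hΓc] at hOc
  have hfil : (O.filter (fun i => m i = M + 1)).card = 0 := by
    rw [Finset.card_eq_zero, Finset.filter_eq_empty_iff]
    intro i hi h
    rw [hO] at hi
    simp only [Finset.mem_compl, Finset.mem_insert, Finset.mem_union, not_or] at hi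
    exact hi.2.2.1.1 (Finset.mem_filter.2 ⟨Finset.mem_univ i, h⟩)
  have hsumT : ∀ j ≤ M + 1, ∑ i ∈ A0 ∪ X, treg (M + 1) (m i) j = j * A0.card + (j - 1) * e := by
    intro j hj
    rw [Finset.sum_union hA0X, sum_treg_raised m M hm A0 hmA1 j hj,
      sum_treg_low m M hm X (fun i hi => hYm i (hX hi)) j hj, hXc]
  refine ⟨_, hasCert_star m M e b t0 (A0 ∪ X) Γ hTΓ (by omega) hbt hb1 ht1
    (fun i => by rcases hm i with h | h <;> omega) (hYm b hbm.1.1) (hYm t0 htm.1.1)
    (fun i hi => hYm i (Finset.mem_sdiff.1 (hΓ hi)).1), ?_, ?_, ?_⟩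
  · intro j hj
    rw [← hO, sum_c M m hm _ j hj, hfil, hsumT j (by omega), hΓc]
    have ew : treg M M j = j := by
      unfold treg; rw [if_pos hj]; omega
    rw [ew]
    have hstar := star_row M e j (by omega) hj
    have e3 : O.card = k ^ 2 + R - 1 := by omega
    obtain ⟨r, rfl⟩ := Nat.exists_eq_add_of_le h2
    have e4 : k ^ 2 + (t + 1 + r) - 1 = k ^ 2 + t + r := by omega
    have e5 : t + 1 + r - t - 1 = r := by omega
    rw [e3, e4, e5, he']
    obtain ⟨c, rfl⟩ := Nat.exists_eq_add_of_le hj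
    rw [Nat.add_sub_cancel_left]
    nlinarith
  · rw [← hO, sum_c_zero M m hm _ (M + 1) (by omega), hsumT (M + 1) le_rfl]
    have ew : treg M M (M + 1) = 0 := by
      unfold treg; rw [if_neg (by omega)]
    have eb : bstar M e (M + 1) = 0 := bstar_top M e (M + 1) (by omega) (by omega)
    have et : tstar M e (M + 1) = e := by
      unfold tstar; rw [if_pos rfl]
    rw [ew, eb, et, he', Nat.add_sub_cancel]
    ring
  · intro j hj
    rw [← hO, sum_c_zero M m hm _ j (by omega), sum_treg_zero m M hm (M + 1) _ j hj]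
    have ew : treg M M j = 0 := by
      unfold treg; rw [if_neg (by omega)]
    have eb : bstar M e j = 0 := bstar_top M e j (by omega) (by omega)
    have et : tstar M e j = 0 := by
      unfold tstar; rw [if_neg (by omega), if_neg (by omega)]
    rw [ew, eb, et]
    ring

end

end Pool.MP_70e04f_ag
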