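import Pool.Agent.Lib_MP_70e04f_ag.Count

/-!
Points of the ruled surface approaching one of the two curves `u = 0` and `u = infinity`.
-/

namespace Pool.MP_70e04f_ag

open Polynomial Filter Topology

section
variable (k N : ℕ)

/-- Scaling the rows. -/
def sc (s : ℕ → ℝ) (v : ↥(tri N) → ℝ) : ↥(tri N) → ℝ := fun q => s (q.1.1 / k) * v q

lemma rowPoly_sc (s : ℕ → ℝ) (v : ↥(tri N) → ℝ) (j : ℕ) :
    rowPoly k N (sc k N s v) j = C (s j) * rowPoly k N v j := by
  rw [rowPoly, rowPoly, Finset.mul_sum]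
  refine Finset.sum_congr rfl fun q _ => ?_
  split_ifs with h
  · rw [sc, h, C_mul, mul_assoc]
  · simp

/-- The rows as linear maps. -/
noncomputable def rowLin (j : ℕ) : (↥(tri N) → ℝ) →ₗ[ℝ] ℝ[X] where
  toFun v := rowPoly k N v j
  map_add' v w := by
    simp only [rowPoly, ← Finset.sum_add_distrib]
    refine Finset.sum_congr rfl fun q _ => ?_
    split_ifs
    · rw [Pi.add_apply, C_add, add_mul]
    · simp
  map_smul' a v := by
    simp only [rowPoly, RingHom.id_apply, Finset.smul_sum]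
    refine Finset.sum_congr rfl fun q _ => ?_
    split_ifs
    · rw [Pi.smul_apply, smul_eq_mul, C_mul, smul_eq_C_mul, mul_assoc]
    · simp

lemma rowLin_apply (j : ℕ) (v : ↥(tri N) → ℝ) : rowLin k N j v = rowPoly k N v j := rfl

lemma rowPoly_congr (j : ℕ) (v v' : ↥(tri N) → ℝ) (h : ∀ q, q.1.1 / k = j → v q = v' q) :
    rowPoly k N v j = rowPoly k N v' j := by
  rw [rowPoly, rowPoly]
  refine Finset.sum_congr rfl fun q _ => ?_
  split_ifs with hq
  · rw [h q hq]
  · rfl

/-- The vectors whose row `j` is divisible by `(X - x) ^ c`. -/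
noncomputable def divSub (x : ℝ) (c j : ℕ) : Submodule ℝ (↥(tri N) → ℝ) :=
  ((Ideal.span {(X - C x) ^ c}).restrictScalars ℝ).comap (rowLin k N j)

lemma mem_divSub (x : ℝ) (c j : ℕ) (v : ↥(tri N) → ℝ) :
    v ∈ divSub k N x c j ↔ (X - C x) ^ c ∣ rowPoly k N v j := by
  rw [divSub, Submodule.mem_comap, Submodule.restrictScalars_mem, Ideal.mem_span_singleton]
  rfl

/-- The vectors vanishing to order `m` at the point `(x, u)`. -/
noncomputable def offSub (m : ℕ) (x u : ℝ) : Submodule ℝ (↥(tri N) → ℝ) where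
  carrier := {v | ∀ al be, al + be < m → ∑ j ∈ Finset.range N,
    (taylor x (rowPoly k N v j)).coeff al * ((X + C u : ℝ[X]) ^ j).coeff be = 0}
  add_mem' := by
    intro v w hv hw al be h
    have h1 := hv al be h
    have h2 := hw al be h
    rw [← add_zero (0 : ℝ)]
    nth_rewrite 1 [← h1]
    rw [← h2, ← Finset.sum_add_distrib]
    refine Finset.sum_congr rfl fun j _ => ?_
    rw [← rowLin_apply, map_add, map_add, coeff_add, rowLin_apply, rowLin_apply, add_mul]
  zero_mem' := by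
    intro al be _
    apply Finset.sum_eq_zero
    intro j _
    rw [← rowLin_apply, map_zero, map_zero, coeff_zero, zero_mul]
  smul_mem' := by
    intro a v hv al be h
    have h1 := hv al be h
    rw [← mul_zero a, ← h1, Finset.mul_sum]
    refine Finset.sum_congr rfl fun j _ => ?_
    rw [← rowLin_apply, map_smul, map_smul, coeff_smul, rowLin_apply, smul_eq_mul, mul_assoc]

lemma mem_offSub (m : ℕ) (x u : ℝ) (v : ↥(tri N) → ℝ) :
    v ∈ offSub k N m x u ↔ ∀ al be, al + be < m → ∑ j ∈ Finset.range N,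
    (taylor x (rowPoly k N v j)).coeff al * ((X + C u : ℝ[X]) ^ j).coeff be = 0 := Iff.rfl

lemma sc_mem_offSub (m : ℕ) (x u c : ℝ) (v : ↥(tri N) → ℝ) (s : ℕ → ℝ)
    (hs : ∀ j, s j = c * u ^ j) (hv : v ∈ offSub k N m x u) :
    sc k N s v ∈ offSub k N m x 1 := by
  intro al be h
  have h1 := hv al be h
  rw [← mul_zero (c * u ^ be), ← h1, Finset.mul_sum]
  refine Finset.sum_congr rfl fun j _ => ?_
  rw [rowPoly_sc, taylor_mul, taylor_C, coeff_C_mul, hs, coeff_X_add_C_pow, coeff_X_add_C_pow,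
    one_pow, one_mul]
  rcases Nat.lt_or_ge j be with hj | hj
  · rw [Nat.choose_eq_zero_of_lt hj]; simp
  · obtain ⟨e, rfl⟩ := Nat.exists_eq_add_of_le hj
    rw [Nat.add_sub_cancel_left, pow_add]
    ring

/-- The projection to the rows `j` with `e * (j - j0) ≤ 0`. -/
noncomputable def prj (e : ℤ) (j0 : ℕ) : (↥(tri N) → ℝ) →ₗ[ℝ] (↥(tri N) → ℝ) where
  toFun v := fun q => if e * (((q.1.1 / k : ℕ) : ℤ) - j0) ≤ 0 then v q else 0
  map_add' v w := by
    funext q
    simp only [Pi.add_apply]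
    split_ifs <;> simp
  map_smul' a v := by
    funext q
    simp only [Pi.smul_apply, RingHom.id_apply]
    split_ifs <;> simp

/-- The limit lemma. -/
theorem exists_scale (m : ℕ) (x : ℝ) (G V : Submodule ℝ (↥(tri N) → ℝ))
    (hG : ∀ s, ∀ v ∈ G, sc k N s v ∈ G) (hVG : V ≤ G) (w : ℕ → ℕ) (e : ℤ) (he : e = 1 ∨ e = -1)
    (helim : ∀ j0 : ℕ, ∀ v ∈ G, (∀ q : ↥(tri N), e * (((q.1.1 / k : ℕ) : ℤ) - j0) < 0 → v q = 0) →
      v ∈ offSub k N m x 1 → (X - C x) ^ (w j0) ∣ rowPoly k N v j0)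
    (hV : ∀ v ∈ V, (∀ j, (X - C x) ^ (w j) ∣ rowPoly k N v j) → v = 0) :
    ∃ u : ℝ, 0 < u ∧ ∀ v ∈ V, v ∈ offSub k N m x u → v = 0 := by
  classical
  by_contra hcon
  push Not at hcon
  have hpos : ∀ n : ℕ, (0 : ℝ) < ((n : ℝ) + 1) := fun n => by positivity
  have hne : ∀ n : ℕ, ((n : ℝ) + 1) ≠ 0 := fun n => (hpos n).ne'
  have h1 : ∀ n : ℕ, ∃ v ∈ V, v ∈ offSub k N m x (((n : ℝ) + 1) ^ e) ∧ ‖v‖ = 1 := by
    intro n
    obtain ⟨v, hvV, hvo, hv0⟩ := hcon (((n : ℝ) + 1) ^ e) (zpow_pos (hpos n) e)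
    refine ⟨‖v‖⁻¹ • v, Submodule.smul_mem _ _ hvV, Submodule.smul_mem _ _ hvo, ?_⟩
    rw [norm_smul, norm_inv, norm_norm, inv_mul_cancel₀ (norm_ne_zero_iff.2 hv0)]
  choose z hzV hzo hz1 using h1
  obtain ⟨a, ha, φ, hφ, hlim⟩ := (isCompact_sphere (0 : ↥(tri N) → ℝ) 1).tendsto_subseq
    (x := z) (fun n => by rw [mem_sphere_zero_iff_norm]; exact hz1 n)
  have haV : a ∈ V := by
    have hc : IsClosed (V : Set (↥(tri N) → ℝ)) := Submodule.closed_of_finiteDimensional V
    exact hc.mem_of_tendsto hlim (Eventually.of_forall fun n => hzV (φ n))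
  have ha0 : a ≠ 0 := by
    rintro rfl
    rw [mem_sphere_zero_iff_norm, norm_zero] at ha
    exact zero_ne_one ha
  apply ha0
  apply hV a haV
  intro j0
  set Q : Submodule ℝ (↥(tri N) → ℝ) := (G ⊓ offSub k N m x 1).map (prj k N e j0) with hQ
  have hQc : IsClosed (Q : Set (↥(tri N) → ℝ)) := Submodule.closed_of_finiteDimensional Q
  set s : ℕ → ℕ → ℝ := fun n j => ((n : ℝ) + 1) ^ (e * ((j : ℤ) - j0)) with hs
  have hmem : ∀ n, prj k N e j0 (sc k N (s (φ n)) (z (φ n))) ∈ Q := by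
    intro n
    refine Submodule.mem_map_of_mem ⟨hG _ _ (hVG (hzV (φ n))), ?_⟩
    apply sc_mem_offSub k N m x (((φ n : ℝ) + 1) ^ e) (((φ n : ℝ) + 1) ^ (-(e * j0))) _ _ _
      (hzo (φ n))
    intro j
    rw [hs]
    simp only
    rw [← zpow_natCast, ← zpow_mul, ← zpow_add₀ (hne (φ n))]
    congr 1
    ring
  have hlim2 : Tendsto (fun n => prj k N e j0 (sc k N (s (φ n)) (z (φ n)))) atTop
      (𝓝 (fun q : ↥(tri N) => if q.1.1 / k = j0 then a q else 0)) := by
    rw [tendsto_pi_nhds]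
    intro q
    have hq := (tendsto_pi_nhds.1 hlim) q
    by_cases h2 : q.1.1 / k = j0
    · rw [if_pos h2]
      refine hq.congr fun n => ?_
      simp only [prj, LinearMap.coe_mk, AddHom.coe_mk, sc, hs, h2, sub_self, mul_zero, le_refl,
        if_true, zpow_zero, one_mul, Function.comp_apply]
    · rw [if_neg h2]
      by_cases h3 : e * (((q.1.1 / k : ℕ) : ℤ) - j0) ≤ 0
      · have h4 : e * (((q.1.1 / k : ℕ) : ℤ) - j0) < 0 := by
          refine lt_of_le_of_ne h3 ?_
          intro h5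
          rcases mul_eq_zero.1 h5 with h6 | h6
          · rcases he with h | h <;> omega
          · apply h2; omega
        have h5 : Tendsto (fun n => s (φ n) (q.1.1 / k)) atTop (𝓝 0) := by
          have h6 : Tendsto (fun n : ℕ => ((n : ℝ) + 1)) atTop atTop :=
            tendsto_atTop_add_const_right _ _ tendsto_natCast_atTop_atTop
          have h7 : Tendsto (fun n : ℕ => (((φ n : ℕ) : ℝ) + 1)) atTop atTop :=
            h6.comp hφ.tendsto_atTop
          obtain ⟨c, hc⟩ : ∃ c : ℕ, e * (((q.1.1 / k : ℕ) : ℤ) - j0) = -((c : ℤ) + 1) :=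
            ⟨(-(e * (((q.1.1 / k : ℕ) : ℤ) - j0)) - 1).toNat, by omega⟩
          have h8 : (fun n => s (φ n) (q.1.1 / k)) =
              fun n => ((((φ n : ℕ) : ℝ) + 1) ^ (c + 1))⁻¹ := by
            funext n
            rw [hs]
            simp only
            rw [hc, zpow_neg]
            congr 1
          rw [h8]
          exact (tendsto_pow_atTop (Nat.succ_ne_zero c)).comp h7 |>.inv_tendsto_atTop
        have h6 := h5.mul hq
        rw [zero_mul] at h6
        refine h6.congr fun n => ?_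
        simp only [prj, LinearMap.coe_mk, AddHom.coe_mk, sc, if_pos h3, Function.comp_apply]
      · refine tendsto_const_nhds.congr fun n => ?_
        simp only [prj, LinearMap.coe_mk, AddHom.coe_mk, if_neg h3]
  have hQm := hQc.mem_of_tendsto hlim2 (Eventually.of_forall hmem)
  obtain ⟨v, ⟨hvG, hvo⟩, hv⟩ := hQm
  have hvq : ∀ q : ↥(tri N), e * (((q.1.1 / k : ℕ) : ℤ) - j0) ≤ 0 →
      v q = if q.1.1 / k = j0 then a q else 0 := by
    intro q hq
    have := congrFun hv q
    simp only [prj, LinearMap.coe_mk, AddHom.coe_mk, if_pos hq] at this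
    exact this
  have h2 := helim j0 v hvG (by
    intro q hq
    rw [hvq q hq.le, if_neg]
    intro h
    rw [h, sub_self, mul_zero] at hq
    exact lt_irrefl _ hq) hvo
  rwa [rowPoly_congr k N j0 v a] at h2
  intro q hq
  rw [hvq q (by rw [hq]; simp), if_pos hq]

end

end Pool.MP_70e04f_ag
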